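import Mathlib

set_option autoImplicit false

namespace Pool.Agent.Lib.MP_3ef01f_nt

open Nat

/-- The product of `(4 j - 1) ^ 2` over `1 ≤ j ≤ N`. -/
def Pi1 (N : ℕ) : ℚ := ∏ j ∈ Finset.Icc 1 N, (4 * (j : ℚ) - 1) ^ 2

/-- The product of `(4 j - 3) ^ 2` over `1 ≤ j ≤ N`. -/
def Pi3 (N : ℕ) : ℚ := ∏ j ∈ Finset.Icc 1 N, (4 * (j : ℚ) - 3) ^ 2

/-- The sequence `u`. -/
def u : ℕ → ℚ
  | 0 => 1
  | (n + 1) => Pi1 (n + 1) -
      ∑ m : Fin (n + 1), ((2 * (n + 1) + 1).choose (2 * m + 1) : ℚ) * Pi3 (n + 1 - m) * u m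
  decreasing_by exact m.2

/-- The sequence `v`; the index `m` of the sum runs over `1, ..., n` written as `i + 1`. -/
def v : ℕ → ℚ
  | 0 => 1
  | (n + 1) => 2 ^ n * Pi3 (n + 1) -
      1 / 2 * ∑ i : Fin n, ((2 * (n + 1)).choose (2 * (i + 1)) : ℚ) * v (i + 1) * v (n - i)
  decreasing_by all_goals (have := i.2; omega)

/-- The power series `U`. -/
noncomputable def U : PowerSeries ℚ :=
  PowerSeries.mk fun i => if i % 2 = 1 then u (i / 2) / (i ! : ℚ) else 0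

/-- The matrix `r`. -/
noncomputable def r (n k : ℕ) : ℚ :=
  (2 : ℚ) ^ ((n : ℤ) - k) * (((2 * n)! : ℚ) / ((2 * k)! : ℚ)) *
    PowerSeries.coeff (2 * n) (U ^ (2 * k))

/-- The sequence `d`. -/
noncomputable def d : ℕ → ℚ
  | 0 => 1
  | (n + 1) => v (n + 1) - ∑ k : Fin (n + 1), r (n + 1) k * d k
  decreasing_by exact k.2

end Pool.Agent.Lib.MP_3ef01f_nt
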