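import Mathlib

set_option autoImplicit false

namespace Pool.Agent.Lib.MP_3ef01f_nt

open MvPolynomial

/-- The universal derivation on `ℤ[T, Y]`. -/
noncomputable def D0 : Derivation ℤ (MvPolynomial (Fin 2) ℤ) (MvPolynomial (Fin 2) ℤ) :=
  mkDerivation ℤ ![2 * (1 - 4 * X 0 ^ 2), 2 * (1 - 4 * X 0 ^ 2 - X 1 ^ 2)]

/-- The universal polynomials. -/
noncomputable def g : ℕ → MvPolynomial (Fin 2) ℤ
  | 0 => 1
  | (n + 1) => (4 * (n : MvPolynomial (Fin 2) ℤ) + 1) * X 1 * g n + D0 (g n)

/-- Their values at the origin. -/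
noncomputable def G0 (n : ℕ) : ℤ := aeval ![(0 : ℤ), 0] (g n)

section
variable {R S : Type*} [CommRing R] [CommRing S] [Algebra R S] [Algebra ℤ S] (E : Derivation R S S)

lemma chain (t y w : S) (ht : E t = w * (2 * (1 - 4 * t ^ 2)))
    (hy : E y = w * (2 * (1 - 4 * t ^ 2 - y ^ 2))) (q : MvPolynomial (Fin 2) ℤ) :
    E (aeval ![t, y] q) = w * aeval ![t, y] (D0 q) := by
  induction q using MvPolynomial.induction_on with
  | C a => simp
  | add p q hp hq => simp only [map_add, hp, hq]; ring
  | mul_X p i hp =>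
    have hi : E (![t, y] i) = w * aeval ![t, y] (D0 (X i)) := by
      fin_cases i
      · simp [D0, ht, map_ofNat]
      · simp [D0, hy, map_ofNat]
    simp only [map_mul, aeval_X, Derivation.leibniz, smul_eq_mul, map_add, hp, hi]
    ring

lemma iter (t y a f k : S) (hk : E k = 0) (ht : E t = k * a ^ 2 * (2 * (1 - 4 * t ^ 2)))
    (hy : E y = k * a ^ 2 * (2 * (1 - 4 * t ^ 2 - y ^ 2))) (ha : E a = 2 * k * a ^ 3 * y)
    (hf : E f = k * a ^ 2 * y * f) (n : ℕ) :
    E^[n] f = k ^ n * f * a ^ (2 * n) * aeval ![t, y] (g n) := by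
  have hpow : ∀ m : ℕ, E (a ^ m) = m * (2 * k * a ^ 2 * y) * a ^ m := by
    intro m
    induction m with
    | zero => simp
    | succ m ih =>
      rw [pow_succ, Derivation.leibniz, ih, ha]
      simp only [smul_eq_mul]
      push_cast
      ring
  have hkp : ∀ m : ℕ, E (k ^ m) = 0 := by
    intro m
    rw [Derivation.leibniz_pow, hk]
    simp
  induction n with
  | zero => simp [g]
  | succ n ih =>
    rw [Function.iterate_succ_apply', ih]
    simp only [Derivation.leibniz, smul_eq_mul, hpow, hkp, hf, chain E t y _ ht hy, g, map_add,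
      map_mul, aeval_X, map_natCast, map_ofNat, map_one, Matrix.cons_val_one,
      Matrix.cons_val_zero]
    push_cast
    ring

end

lemma map_aeval_g {S T : Type*} [CommRing S] [CommRing T] [Algebra ℤ S] [Algebra ℤ T] (φ : S →+* T) (t y : S)
    (q : MvPolynomial (Fin 2) ℤ) : φ (aeval ![t, y] q) = aeval ![φ t, φ y] q := by
  induction q using MvPolynomial.induction_on with
  | C a => simp
  | add p q hp hq => simp only [map_add, hp, hq]
  | mul_X p i hp =>
    simp only [map_mul, aeval_X, hp]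
    congr 1
    fin_cases i <;> simp

lemma aeval_zero_g {T : Type*} [CommRing T] [Algebra ℤ T] (n : ℕ) :
    aeval ![(0 : T), 0] (g n) = (G0 n : T) := by
  have := map_aeval_g (Int.castRingHom T) 0 0 (g n)
  simpa [G0] using this.symm

end Pool.Agent.Lib.MP_3ef01f_nt
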