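import Mathlib

set_option autoImplicit false

namespace Pool.Agent.Lib.MP_3ef01f_nt

open PowerSeries

variable {R : Type*} [CommRing R]

/-- Contraction principle for tuples of power series. -/
lemma fixed_point {ι : Type*} (Φ : (ι → R⟦X⟧) → (ι → R⟦X⟧))
    (h : ∀ (n : ℕ) (x y : ι → R⟦X⟧), (∀ i, X ^ n ∣ x i - y i) →
      ∀ i, X ^ (n + 1) ∣ Φ x i - Φ y i) : ∃ x, Φ x = x := by
  let s : ℕ → (ι → R⟦X⟧) := fun k => Φ^[k] 0
  have hs : ∀ k, s (k + 1) = Φ (s k) := fun k => Function.iterate_succ_apply' _ _ _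
  have h1 : ∀ k i, X ^ k ∣ s (k + 1) i - s k i := by
    intro k
    induction k with
    | zero => intro i; simp
    | succ k ih =>
      intro i
      have := h k _ _ ih i
      rwa [← hs, ← hs] at this
  have h2 : ∀ k m i, k ≤ m → X ^ k ∣ s m i - s k i := by
    intro k m i hkm
    induction m, hkm using Nat.le_induction with
    | base => simp
    | succ m hm ih =>
      have := (pow_dvd_pow X hm).trans (h1 m i)
      simpa using dvd_add this ih
  let x : ι → R⟦X⟧ := fun i => PowerSeries.mk fun n => coeff n (s (n + 1) i)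
  have h3 : ∀ k i, X ^ k ∣ x i - s k i := by
    intro k i
    rw [X_pow_dvd_iff]
    intro m hm
    have := X_pow_dvd_iff.1 (h2 (m + 1) k i hm) m (Nat.lt_succ_self m)
    simp only [map_sub, x, coeff_mk] at this ⊢
    linear_combination -this
  refine ⟨x, funext fun i => ?_⟩
  ext n
  have a1 := X_pow_dvd_iff.1 (h (n + 1) _ _ (h3 (n + 1)) i) n (by omega)
  have a2 := X_pow_dvd_iff.1 (h3 (n + 2) i) n (by omega)
  rw [← hs] at a1
  simp only [map_sub] at a1 a2
  linear_combination a1 - a2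

/-- The substitution of `X ^ 2` for `X`. -/
noncomputable abbrev ex : R⟦X⟧ →ₐ[R] R⟦X⟧ := PowerSeries.expand 2 two_ne_zero

/-- The Euler operator. -/
noncomputable def th : Derivation R R⟦X⟧ R⟦X⟧ := (X : R⟦X⟧) • PowerSeries.derivative R

lemma th_apply (f : R⟦X⟧) : th f = X * PowerSeries.derivative R f := by simp [th]

lemma coeff_th (f : R⟦X⟧) (n : ℕ) : coeff n (th f) = n * coeff n f := by
  rw [th_apply]
  cases n with
  | zero => simp
  | succ n => rw [coeff_succ_X_mul, coeff_derivative]; push_cast; ring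

lemma th_X : th (X : R⟦X⟧) = X := by simp [th_apply]

lemma th_ex (f : R⟦X⟧) : th (ex f) = 2 * ex (th f) := by
  ext n
  rw [coeff_th, show (2 : R⟦X⟧) = C 2 from (map_ofNat C 2).symm, coeff_C_mul, coeff_expand,
    coeff_expand]
  split_ifs with h
  · obtain ⟨m, rfl⟩ := h
    rw [coeff_th, Nat.mul_div_cancel_left _ two_pos]
    push_cast
    ring
  · simp

lemma ex_X : ex (X : R⟦X⟧) = X ^ 2 := expand_X _ _

lemma ex_dvd {n : ℕ} {f : R⟦X⟧} (h : X ^ n ∣ f) : X ^ (2 * n) ∣ ex f := by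
  have := map_dvd (ex (R := R)) h
  rwa [map_pow, ex_X, ← pow_mul] at this

lemma ex_dvd' {n : ℕ} {f g : R⟦X⟧} (h : X ^ n ∣ f - g) : X ^ n ∣ ex f - ex g := by
  rw [← map_sub]
  exact (pow_dvd_pow X (by omega)).trans (ex_dvd h)

lemma eq_zero_of_ex {f a b : R⟦X⟧} (ha : IsUnit a) (h0 : constantCoeff f = 0)
    (h : a * f = b * ex f) : f = 0 := by
  have key : ∀ n : ℕ, X ^ (n + 1) ∣ f := by
    intro n
    induction n with
    | zero => simpa using X_dvd_iff.2 h0
    | succ n ih =>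
      have h1 : X ^ (n + 2) ∣ a * f := by
        rw [h]
        exact ((pow_dvd_pow X (by omega)).trans (ex_dvd ih)).mul_left _
      exact (ha.dvd_mul_left).1 h1
  ext n
  simpa using X_pow_dvd_iff.1 (key n) n (Nat.lt_succ_self n)

lemma exists_theta (h : R) (hh : 2 * h = 1) : ∃ a s f : R⟦X⟧,
    constantCoeff a = 1 ∧ constantCoeff s = 1 ∧ constantCoeff f = 1 ∧
    a = ex a + 4 * X * ex s ∧ s ^ 2 = ex a * ex s ∧ f ^ 2 = a := by
  have hC : (2 : R⟦X⟧) * C h = 1 := by
    rw [show (2 : R⟦X⟧) = C 2 from (map_ofNat C 2).symm, ← map_mul, hh, map_one]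
  obtain ⟨x, hx⟩ := fixed_point (R := R) (ι := Fin 3) (fun x =>
    ![X * (ex (x 0) + 4 * X * ex (x 1)) + 4,
      X * (C h * (ex (x 0) + ex (x 1) + X ^ 2 * (ex (x 0) * ex (x 1)) - x 1 * x 1)),
      X * (C h * (ex (x 0) + 4 * X * ex (x 1) - x 2 * x 2)) + 2]) (by
    intro n x y hxy i
    have e0 := ex_dvd' (hxy 0)
    have e1 := ex_dvd' (hxy 1)
    have h1 := hxy 1
    have h2 := hxy 2
    obtain ⟨w0, hw0⟩ := e0
    obtain ⟨w1, hw1⟩ := e1
    obtain ⟨z1, hz1⟩ := h1
    obtain ⟨z2, hz2⟩ := h2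
    rw [sub_eq_iff_eq_add] at hw0 hw1 hz1 hz2
    fin_cases i
    · refine ⟨w0 + 4 * X * w1, ?_⟩
      simp only [Fin.zero_eta, Matrix.cons_val_zero]
      rw [hw0, hw1]
      ring
    · refine ⟨C h * (w0 + w1 + X ^ 2 * (X ^ n * w0 * w1 + w0 * ex (y 1) + w1 * ex (y 0)) -
        (X ^ n * z1 * z1 + 2 * z1 * y 1)), ?_⟩
      simp only [Fin.mk_one, Matrix.cons_val_one, Matrix.cons_val_zero]
      rw [hw0, hw1, hz1]
      ring
    · refine ⟨C h * (w0 + 4 * X * w1 - (X ^ n * z2 * z2 + 2 * z2 * y 2)), ?_⟩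
      simp only [Fin.reduceFinMk, Matrix.cons_val]
      rw [hw0, hw1, hz2]
      ring)
  have h0 := congrFun hx 0
  have h1 := congrFun hx 1
  have h2 := congrFun hx 2
  simp only [Matrix.cons_val_zero, Matrix.cons_val_one, Matrix.cons_val] at h0 h1 h2
  refine ⟨1 + X * x 0, 1 + X * x 1, 1 + X * x 2, by simp, by simp, by simp, ?_, ?_, ?_⟩
  · simp only [map_add, map_mul, map_one, ex_X]
    linear_combination (-X) * h0
  · simp only [map_add, map_mul, map_one, ex_X]
    linear_combination (-2 * X) * h1 +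
      X ^ 2 * (ex (x 0) + ex (x 1) + X ^ 2 * (ex (x 0) * ex (x 1)) - x 1 * x 1) * hC
  · linear_combination (-2 * X) * h2 + X * h0 +
      X ^ 2 * (ex (x 0) + 4 * X * ex (x 1) - x 2 * x 2) * hC

lemma th_ofNat (n : ℕ) [n.AtLeastTwo] : th (ofNat(n) : R⟦X⟧) = 0 := by
  have : (ofNat(n) : R⟦X⟧) = C (ofNat(n) : R) := (map_ofNat C n).symm
  rw [this, th_apply, derivative_C, mul_zero]

lemma const_th (f : R⟦X⟧) : constantCoeff (th f) = 0 := by simp [th_apply]

theorem theta (h : R) (hh : 2 * h = 1) : ∃ a f lam al ai w : R⟦X⟧,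
    constantCoeff a = 1 ∧ IsUnit f ∧ a * ai = 1 ∧ lam = X * w ∧ IsUnit w ∧
    th lam = lam * (1 - lam) * a ^ 2 ∧ th a = al * a ∧ 2 * th f = al * f ∧
    4 * th al = 4 * al ^ 2 + lam * (1 - lam) * a ^ 4 := by
  obtain ⟨a, s, f, ha0, hs0, hf0, ha, hs, hf⟩ := exists_theta h hh
  have hC : (2 : R⟦X⟧) * C h = 1 := by
    rw [show (2 : R⟦X⟧) = C 2 from (map_ofNat C 2).symm, ← map_mul, hh, map_one]
  have ua : IsUnit a := isUnit_iff_constantCoeff.2 (by simp [ha0])
  have us : IsUnit s := isUnit_iff_constantCoeff.2 (by simp [hs0])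
  have uf : IsUnit f := isUnit_iff_constantCoeff.2 (by simp [hf0])
  have u2 : IsUnit (2 : R⟦X⟧) := IsUnit.of_mul_eq_one _ hC
  obtain ⟨ai, hai⟩ := ua.exists_right_inv
  obtain ⟨si, hsi⟩ := us.exists_right_inv
  obtain ⟨al, hal⟩ : ∃ al, al = th a * ai := ⟨_, rfl⟩
  obtain ⟨sg, hsg⟩ : ∃ sg, sg = th s * si := ⟨_, rfl⟩
  have ta : th a = al * a := by rw [hal]; linear_combination (-th a) * hai
  have ts : th s = sg * s := by rw [hsg]; linear_combination (-th s) * hsi
  have al0 : constantCoeff al = 0 := by rw [hal, map_mul, const_th, zero_mul]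
  have sg0 : constantCoeff sg = 0 := by rw [hsg, map_mul, const_th, zero_mul]
  have tA : th (ex a) = 2 * ex al * ex a := by rw [th_ex, ta, map_mul]; ring
  have tS : th (ex s) = 2 * ex sg * ex s := by rw [th_ex, ts, map_mul]; ring
  have t4 : th (4 : R⟦X⟧) = 0 := th_ofNat 4
  have t2 : th (2 : R⟦X⟧) = 0 := th_ofNat 2
  have t16 : th (16 : R⟦X⟧) = 0 := th_ofNat 16
  have hsg2 : sg = ex al + ex sg := by
    have h1 := congrArg th hs
    rw [sq, Derivation.leibniz, Derivation.leibniz, tA, tS, ts] at h1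
    simp only [smul_eq_mul] at h1
    apply (u2.mul (us.pow 2)).mul_left_cancel
    linear_combination h1 - 2 * (ex al + ex sg) * hs
  have tB : th (4 * X * ex s) = 4 * X * ex s * (1 + 2 * ex sg) := by
    simp only [Derivation.leibniz, smul_eq_mul, t4, th_X, tS]
    ring
  have hal2 : al * a = 2 * ex al * ex a + 4 * X * ex s * (1 + 2 * ex sg) := by
    have h1 := congrArg th ha
    rwa [map_add, tA, tB, ta] at h1
  obtain ⟨b, hb⟩ : ∃ b, b = ex a - 4 * X * ex s := ⟨_, rfl⟩
  have hb2 : b ^ 2 = a ^ 2 - 16 * X * s ^ 2 := by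
    rw [hb, hs]
    linear_combination (-(a + ex a + 4 * X * ex s)) * ha
  have heb : ex b ^ 2 = a * b := by
    have h1 := congrArg ex hb2
    simp only [map_pow, map_sub, map_mul, map_ofNat, ex_X] at h1
    rw [h1, hb]
    linear_combination (-(ex a - 4 * X * ex s)) * ha
  have b0 : constantCoeff b = 1 := by simp [hb, ha0]
  have E2 : 1 + 2 * sg - 2 * al - b ^ 2 = 0 := by
    refine eq_zero_of_ex (b := b) ua (by simp [al0, sg0, b0]) ?_
    simp only [map_pow, map_sub, map_mul, map_ofNat, map_add, map_one, heb]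
    linear_combination (2 * a) * hsg2 - 2 * hal2 + (1 + 2 * ex al + 2 * ex sg) * ha
      - (1 + 2 * ex sg - 2 * ex al) * hb
  have E3 : 1 + 2 * ex sg - 2 * ex al - a * b = 0 := by
    have h1 := congrArg ex E2
    simpa only [map_pow, map_sub, map_mul, map_ofNat, map_add, map_one, heb, map_zero] using h1
  obtain ⟨lam, hlam⟩ : ∃ lam, lam = X * (16 * s ^ 2 * ai ^ 2) := ⟨_, rfl⟩
  have hl : lam * a ^ 2 = 16 * X * s ^ 2 := by
    rw [hlam]; linear_combination 16 * X * s ^ 2 * (a * ai + 1) * hai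
  have tl : th lam = lam * (1 - lam) * a ^ 2 := by
    have h1 := congrArg th hl
    simp only [sq, Derivation.leibniz, smul_eq_mul, t16, th_X, ta, ts] at h1
    apply (ua.pow 2).mul_left_cancel
    linear_combination h1 + (-(1 + 2 * sg) + lam * a ^ 2) * hl + lam * a ^ 2 * E2 +
      lam * a ^ 2 * hb2
  have hal3 : al = 2 * ex al + b * (4 * X * ex s) := by
    apply u2.mul_left_cancel
    linear_combination -E2 + 2 * hsg2 + E3 + b * ha - b * hb
  have tb : th b = 2 * ex al * ex a - 4 * X * ex s * (1 + 2 * ex sg) := by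
    rw [hb, map_sub, tA, tB]
  have G0 : th al - al ^ 2 - 4 * X * s ^ 2 * b ^ 2 = 0 := by
    refine eq_zero_of_ex (a := 1) (b := 4) isUnit_one (by simp [al0, const_th]) ?_
    have h1 := congrArg th hal3
    rw [map_add, Derivation.leibniz, Derivation.leibniz, t2, tB, tb, th_ex] at h1
    simp only [smul_eq_mul] at h1
    simp only [map_pow, map_sub, map_mul, map_ofNat, heb, ex_X]
    have e1 : 1 + 2 * ex sg = 2 * ex al + a * b := by linear_combination E3
    rw [e1] at h1
    have e2 : ex a = b + 4 * X * ex s := by linear_combination -hb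
    have e3 : a = b + 8 * X * ex s := by linear_combination ha - hb
    generalize ex (th al) = q at h1 ⊢
    generalize ex al = p at h1 hal3 ⊢
    rw [h1, hs, hal3, e2]
    generalize ex s = S at e3 ⊢
    rw [e3]
    ring
  refine ⟨a, f, lam, al, ai, _, ha0, uf, hai, hlam, ?_, tl, ta, ?_, ?_⟩
  · refine IsUnit.mul (IsUnit.mul ?_ (us.pow 2)) ((IsUnit.of_mul_eq_one_right _ hai).pow 2)
    have := u2.pow 4
    norm_num at this
    exact this
  · have h1 := congrArg th hf
    rw [sq, Derivation.leibniz, ta] at h1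
    simp only [smul_eq_mul] at h1
    apply uf.mul_left_cancel
    linear_combination h1 - al * hf
  · linear_combination 4 * G0 + 16 * X * s ^ 2 * hb2 + (lam * a ^ 2 + 16 * X * s ^ 2 - a ^ 2) * hl

end Pool.Agent.Lib.MP_3ef01f_nt
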