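import Mathlib
import Pool.Agent.Lib.MP_3ef01f_nt.Def
import Pool.Agent.Lib.MP_3ef01f_nt.G
import Pool.Agent.Lib.MP_3ef01f_nt.Theta

set_option autoImplicit false

namespace Pool.Agent.Lib.MP_3ef01f_nt

open PowerSeries Nat

noncomputable def c0 : ℚ⟦X⟧ := PowerSeries.mk fun n => Pi3 n / ((2 * n)! : ℚ)
noncomputable def s0 : ℚ⟦X⟧ := PowerSeries.mk fun n => Pi1 n / ((2 * n + 1)! : ℚ)
noncomputable def U0 : ℚ⟦X⟧ := PowerSeries.mk fun n => u n / ((2 * n + 1)! : ℚ)
noncomputable def f0 : ℚ⟦X⟧ := PowerSeries.mk fun n => v n / (2 ^ n * ((2 * n)! : ℚ))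

lemma Pi1_zero : Pi1 0 = 1 := by simp [Pi1]
lemma Pi3_zero : Pi3 0 = 1 := by simp [Pi3]
lemma Pi1_succ (n : ℕ) : Pi1 (n + 1) = Pi1 n * (4 * n + 3) ^ 2 := by
  rw [Pi1, Finset.prod_Icc_succ_top (by omega), Pi1]; push_cast; ring
lemma Pi3_succ (n : ℕ) : Pi3 (n + 1) = Pi3 n * (4 * n + 1) ^ 2 := by
  rw [Pi3, Finset.prod_Icc_succ_top (by omega), Pi3]; push_cast; ring

lemma u_sum (n : ℕ) :
    ∑ m ∈ Finset.range (n + 1), ((2 * n + 1).choose (2 * m + 1) : ℚ) * Pi3 (n - m) * u m =
      Pi1 n := by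
  rw [Finset.sum_range_succ]
  cases n with
  | zero => simp [u, Pi1_zero, Pi3_zero]
  | succ n =>
    rw [u, Finset.sum_range]
    simp [Pi3_zero]

lemma v_zero : v 0 = 1 := by rw [v]

lemma v_sum (n : ℕ) :
    ∑ m ∈ Finset.range (n + 1), ((2 * n).choose (2 * m) : ℚ) * v m * v (n - m) =
      2 ^ n * Pi3 n := by
  cases n with
  | zero => simp [v_zero, Pi3_zero]
  | succ n =>
    rw [Finset.sum_range_succ, Finset.sum_range_succ']
    have h : v (n + 1) = 2 ^ n * Pi3 (n + 1) - 1 / 2 * ∑ i ∈ Finset.range n,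
        ((2 * (n + 1)).choose (2 * (i + 1)) : ℚ) * v (i + 1) * v (n + 1 - (i + 1)) := by
      rw [v, Finset.sum_range]
      simp
    simp only [mul_zero, choose_zero_right, cast_one, v_zero, mul_one, tsub_zero, one_mul,
      choose_self, tsub_self]
    linear_combination 2 * h

lemma U0_mul : U0 * c0 = s0 := by
  ext n
  rw [coeff_mul, Finset.Nat.sum_antidiagonal_eq_sum_range_succ_mk, s0, coeff_mk, ← u_sum,
    Finset.sum_div]
  refine Finset.sum_congr rfl fun m hm => ?_
  have hm' : m ≤ n := by simpa [Nat.lt_succ_iff] using hm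
  simp only [U0, c0, coeff_mk]
  rw [Nat.cast_choose ℚ (by omega), show 2 * n + 1 - (2 * m + 1) = 2 * (n - m) by omega]
  field_simp

lemma f0_sq : f0 ^ 2 = c0 := by
  ext n
  have h := v_sum n
  have h2 : Pi3 n = (2 ^ n * Pi3 n) / 2 ^ n := by field_simp
  rw [sq, coeff_mul, Finset.Nat.sum_antidiagonal_eq_sum_range_succ_mk, c0, coeff_mk, h2, ← h,
    Finset.sum_div, Finset.sum_div]
  refine Finset.sum_congr rfl fun m hm => ?_
  have hm' : m ≤ n := by simpa [Nat.lt_succ_iff] using hm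
  simp only [f0, coeff_mk]
  rw [Nat.cast_choose ℚ (by omega), show 2 * n - 2 * m = 2 * (n - m) by omega,
    show (2 : ℚ) ^ n = 2 ^ m * 2 ^ (n - m) by rw [← pow_add]; congr 1; omega]
  field_simp

lemma U_eq : U = X * ex U0 := by
  ext i
  rcases Nat.even_or_odd' i with ⟨m, rfl | rfl⟩
  · rw [U, coeff_mk, if_neg (by omega)]
    cases m with
    | zero => simp
    | succ m =>
      rw [show 2 * (m + 1) = (2 * m + 1) + 1 by ring, coeff_succ_X_mul,
        coeff_expand_of_not_dvd _ _ _ (by omega)]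
  · rw [U, coeff_mk, if_pos (by omega), coeff_succ_X_mul, coeff_expand_mul, U0, coeff_mk,
      show (2 * m + 1) / 2 = m by omega]

lemma ode (y : ℚ⟦X⟧)
    (h : ∀ n : ℕ, coeff (n + 2) y * ((n + 1) * (n + 2)) = (2 * n + 1) ^ 2 * coeff n y) :
    derivative ℚ ((1 - 4 * X ^ 2) * derivative ℚ y) = y := by
  ext n
  have h3 : coeff (n + 1) (X ^ 2 * derivative ℚ y) = n * coeff n y := by
    cases n with
    | zero => simp [coeff_X_pow_mul']
    | succ n =>
      rw [show n + 1 + 1 = n + 2 by ring, coeff_X_pow_mul, coeff_derivative]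
      push_cast
      ring
  rw [coeff_derivative, sub_mul, one_mul, map_sub, mul_assoc,
    show (4 : ℚ⟦X⟧) = C 4 from (map_ofNat C 4).symm, coeff_C_mul, h3, coeff_derivative]
  push_cast
  linear_combination h n

lemma ode_c : derivative ℚ ((1 - 4 * X ^ 2) * derivative ℚ (ex c0)) = ex c0 := by
  refine ode _ fun n => ?_
  rcases Nat.even_or_odd' n with ⟨m, rfl | rfl⟩
  · rw [show 2 * m + 2 = 2 * (m + 1) by ring, coeff_expand_mul, coeff_expand_mul, c0, coeff_mk,
      coeff_mk, Pi3_succ, show 2 * (m + 1) = 2 * m + 1 + 1 by ring, factorial_succ,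
      factorial_succ]
    push_cast
    field_simp
    ring
  · rw [coeff_expand_of_not_dvd _ _ _ (by omega), coeff_expand_of_not_dvd _ _ _ (by omega)]
    simp

lemma ode_s : derivative ℚ ((1 - 4 * X ^ 2) * derivative ℚ (X * ex s0)) = X * ex s0 := by
  refine ode _ fun n => ?_
  rcases Nat.even_or_odd' n with ⟨m, rfl | rfl⟩
  · rw [coeff_succ_X_mul, coeff_expand_of_not_dvd _ _ _ (by omega)]
    cases m with
    | zero => simp
    | succ m =>
      rw [show 2 * (m + 1) = (2 * m + 1) + 1 by ring, coeff_succ_X_mul,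
        coeff_expand_of_not_dvd _ _ _ (by omega)]
      simp
  · rw [coeff_succ_X_mul, coeff_succ_X_mul, show 2 * m + 1 + 1 = 2 * (m + 1) by ring,
      coeff_expand_mul, coeff_expand_mul, s0, coeff_mk,
      coeff_mk, Pi1_succ, show 2 * (m + 1) + 1 = 2 * m + 1 + 1 + 1 by ring,
      factorial_succ (2 * m + 1 + 1), factorial_succ (2 * m + 1)]
    push_cast
    field_simp
    ring

lemma c0_zero : constantCoeff c0 = 1 := by
  rw [← coeff_zero_eq_constantCoeff_apply, c0, coeff_mk]; simp [Pi3_zero]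

lemma s0_zero : constantCoeff s0 = 1 := by
  rw [← coeff_zero_eq_constantCoeff_apply, s0, coeff_mk]; simp [Pi1_zero]

lemma U0_zero : constantCoeff U0 = 1 := by
  rw [← coeff_zero_eq_constantCoeff_apply, U0, coeff_mk]; simp [u]

lemma f0_zero : constantCoeff f0 = 1 := by
  rw [← coeff_zero_eq_constantCoeff_apply, f0, coeff_mk]; simp [v_zero]

lemma wronskian : (1 - 4 * X ^ 2) * (derivative ℚ (X * ex s0) * ex c0 -
    X * ex s0 * derivative ℚ (ex c0)) = 1 := by
  apply derivative.ext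
  · have h1 := ode_c
    have h2 := ode_s
    generalize ex c0 = c at *
    generalize X * ex s0 = s at *
    have : (1 - 4 * X ^ 2) * (derivative ℚ s * c - s * derivative ℚ c) =
      ((1 - 4 * X ^ 2) * derivative ℚ s) * c - s * ((1 - 4 * X ^ 2) * derivative ℚ c) := by ring
    rw [this, map_sub, Derivation.leibniz _ _ c, Derivation.leibniz _ s, h1, h2]
    simp only [smul_eq_mul, Derivation.map_one_eq_zero]
    ring
  · simp [Derivation.leibniz, c0_zero, s0_zero]

lemma U_mul : U * ex c0 = X * ex s0 := by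
  rw [U_eq, mul_assoc, ← map_mul, U0_mul]

/-- Twice the derivative with respect to `U`. -/
noncomputable def E0 : Derivation ℚ ℚ⟦X⟧ ℚ⟦X⟧ :=
  (2 * (1 - 4 * X ^ 2) * ex c0 ^ 2 : ℚ⟦X⟧) • derivative ℚ

lemma E0_apply (f : ℚ⟦X⟧) : E0 f = 2 * (1 - 4 * X ^ 2) * ex c0 ^ 2 * derivative ℚ f := by
  simp [E0]

lemma E0_U : E0 U = 2 := by
  have h1 := congrArg (derivative ℚ) U_mul
  rw [Derivation.leibniz] at h1
  simp only [smul_eq_mul] at h1
  rw [E0_apply]
  linear_combination 2 * wronskian + 2 * (1 - 4 * X ^ 2) * ex c0 * h1 -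
    2 * (1 - 4 * X ^ 2) * derivative ℚ (ex c0) * U_mul

lemma E0_f (m : ℕ) : constantCoeff (E0^[m] (ex f0)) = G0 m := by
  have uc : IsUnit (ex c0) := isUnit_iff_constantCoeff.2 (by simp [c0_zero])
  have uf : IsUnit (ex f0) := isUnit_iff_constantCoeff.2 (by simp [f0_zero])
  obtain ⟨ci, hci⟩ := uc.exists_right_inv
  have hf : ex f0 ^ 2 = ex c0 := by rw [← map_pow, f0_sq]
  have hc' : constantCoeff (derivative ℚ (ex c0)) = 0 := by
    rw [← coeff_zero_eq_constantCoeff_apply, coeff_derivative,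
      coeff_expand_of_not_dvd _ _ _ (by omega), zero_mul]
  have u2 : IsUnit (2 : ℚ⟦X⟧) := isUnit_iff_constantCoeff.2 (by simp [map_ofNat])
  have hy0 : (1 - 4 * X ^ 2) * derivative ℚ (ex c0) =
      ((1 - 4 * X ^ 2) * derivative ℚ (ex c0) * ci) * ex c0 := by
    linear_combination (-(1 - 4 * X ^ 2) * derivative ℚ (ex c0)) * hci
  have y0 : constantCoeff ((1 - 4 * X ^ 2) * derivative ℚ (ex c0) * ci) = 0 := by simp [hc']
  generalize (1 - 4 * X ^ 2) * derivative ℚ (ex c0) * ci = y at hy0 y0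
  have key := iter E0 X y (ex c0) (ex f0) 1 (by simp) (by rw [E0_apply]; simp; ring) ?_ ?_ ?_ m
  · rw [key]
    simp only [map_mul, map_pow, map_one, constantCoeff_expand, f0_zero, c0_zero, one_pow,
      one_mul, map_aeval_g, constantCoeff_X, y0, aeval_zero_g]
  · have h1 := ode_c
    rw [hy0, Derivation.leibniz] at h1
    simp only [smul_eq_mul] at h1
    rw [E0_apply]
    linear_combination 2 * (1 - 4 * X ^ 2) * ex c0 * h1 - 2 * ex c0 * y * hy0
  · rw [E0_apply]
    linear_combination 2 * ex c0 ^ 2 * hy0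
  · have h1 := congrArg (derivative ℚ) hf
    rw [sq, Derivation.leibniz] at h1
    simp only [smul_eq_mul] at h1
    rw [E0_apply]
    apply uf.mul_left_cancel
    linear_combination (1 - 4 * X ^ 2) * ex c0 ^ 2 * h1 + ex c0 ^ 2 * hy0 - ex c0 ^ 2 * y * hf

lemma E0_U_pow (j m : ℕ) : E0^[m] (U ^ j) = (2 ^ m * j.descFactorial m : ℕ) * U ^ (j - m) := by
  induction m with
  | zero => simp
  | succ m ih =>
    rw [Function.iterate_succ_apply', ih, Derivation.leibniz, Derivation.leibniz_pow, E0_U,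
      Derivation.map_natCast, Nat.descFactorial_succ]
    simp only [smul_eq_mul, nsmul_eq_mul, Nat.sub_sub]
    push_cast
    ring

lemma E0_dvd (m N : ℕ) (h : ℚ⟦X⟧) (hh : X ^ (N + m) ∣ h) : X ^ N ∣ E0^[m] h := by
  induction m generalizing N with
  | zero => simpa using hh
  | succ m ih =>
    rw [Function.iterate_succ_apply', E0_apply]
    refine Dvd.dvd.mul_left ?_ _
    have := ih (N + 1) (by rwa [show N + 1 + m = N + (m + 1) by ring])
    rw [X_pow_dvd_iff] at this ⊢
    intro i hi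
    rw [coeff_derivative, this _ (by omega), zero_mul]

lemma U_pow (k : ℕ) : U ^ (2 * k) = ex (X ^ k * U0 ^ (2 * k)) := by
  rw [U_eq, map_mul, map_pow, map_pow, ex_X, mul_pow, ← pow_mul]

lemma r_self (n : ℕ) : r n n = 1 := by
  rw [r, U_pow, coeff_expand_mul]
  have : coeff n (X ^ n * U0 ^ (2 * n)) = 1 := by
    have := coeff_X_pow_mul (U0 ^ (2 * n)) n 0
    rw [zero_add] at this
    rw [this]
    simp [U0_zero]
  rw [this, sub_self, div_self (by positivity)]
  simp

lemma d_sum (n : ℕ) : ∑ k ∈ Finset.range (n + 1), r n k * d k = v n := by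
  rw [Finset.sum_range_succ, r_self]
  cases n with
  | zero => simp [d, v_zero]
  | succ n =>
    rw [d, Finset.sum_range]
    ring

lemma f_expand (n : ℕ) : X ^ (1 + 2 * n) ∣ ex f0 - ∑ k ∈ Finset.range (n + 1),
    (d k / (2 ^ k * ((2 * k)! : ℚ))) • U ^ (2 * k) := by
  rw [X_pow_dvd_iff]
  intro i hi
  rw [map_sub, map_sum]
  rcases Nat.even_or_odd' i with ⟨m, rfl | rfl⟩
  · have hm : m + 1 ≤ n + 1 := by omega
    rw [coeff_expand_mul, f0, coeff_mk, ← d_sum, Finset.sum_div, sub_eq_zero,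
      ← Finset.sum_range_add_sum_Ico _ hm, Finset.sum_eq_zero (s := Finset.Ico _ _), add_zero]
    · refine Finset.sum_congr rfl fun k _ => ?_
      rw [r, coeff_smul, zpow_sub₀ two_ne_zero, zpow_natCast, zpow_natCast, smul_eq_mul]
      field_simp
    · intro k hk
      rw [Finset.mem_Ico] at hk
      rw [coeff_smul, U_pow, coeff_expand_mul, coeff_X_pow_mul', if_neg (by omega), smul_zero]
  · rw [coeff_expand_of_not_dvd _ _ _ (by omega), Finset.sum_eq_zero, sub_zero]
    intro k _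
    rw [coeff_smul, U_pow, coeff_expand_of_not_dvd _ _ _ (by omega), smul_zero]

theorem d_eq (n : ℕ) : 2 ^ n * d n = G0 (2 * n) := by
  have h1 := X_dvd_iff.1 (by simpa only [pow_one] using E0_dvd (2 * n) 1 _ (f_expand n))
  have hlin : ∀ m : ℕ, E0^[m] = ⇑((E0 : ℚ⟦X⟧ →ₗ[ℚ] ℚ⟦X⟧) ^ m) := fun m => by
    ext1 x
    rw [Module.End.pow_apply]
    rfl
  rw [hlin, map_sub, map_sum, map_sub, map_sum] at h1
  simp only [map_smul] at h1
  simp only [← hlin, E0_f, E0_U_pow] at h1
  have U0c : constantCoeff U = 0 := by rw [U_eq]; simp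
  rw [Finset.sum_eq_single n] at h1
  · simp only [map_mul, map_natCast, Nat.sub_self, pow_zero, map_one, mul_one, smul_eq_mul,
      Nat.descFactorial_self, constantCoeff_smul] at h1
    rw [sub_eq_zero] at h1
    rw [h1]
    push_cast
    field_simp
    ring
  · intro k hk hne
    rw [Finset.mem_range] at hk
    rw [Nat.descFactorial_eq_zero_iff_lt.2 (by omega)]
    simp
  · intro h
    exact absurd (Finset.mem_range.2 (by omega)) h

end Pool.Agent.Lib.MP_3ef01f_nt
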