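import Mathlib

set_option autoImplicit false

namespace Pool.Agent.Lib.MP_3ef01f_nt

open Polynomial Nat

lemma leg_ode (M : ℕ) : derivative ((X - X ^ 2) * derivative (shiftedLegendre M)) =
    -((M : ℤ[X]) * ((M : ℤ[X]) + 1)) * shiftedLegendre M := by
  have hC : -((M : ℤ[X]) * ((M : ℤ[X]) + 1)) = C (-((M : ℤ) * (M + 1))) := by simp
  ext k
  rw [hC, coeff_C_mul, coeff_derivative, sub_mul, coeff_sub, coeff_X_mul, coeff_derivative]
  have h1 : ((M + k + 1).choose M : ℤ) * (k + 1) = (M + k).choose M * (M + k + 1) := by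
    have := Nat.choose_mul_succ_eq (M + k) M
    rw [show M + k + 1 - M = k + 1 by omega] at this
    exact_mod_cast this.symm
  have h2 : (M.choose (k + 1) : ℤ) * (k + 1) = M.choose k * (M - k) := by
    rcases le_or_gt k M with h | h
    · have := Nat.choose_succ_right_eq M k
      zify [h] at this
      exact this
    · simp [Nat.choose_eq_zero_of_lt h, Nat.choose_eq_zero_of_lt (Nat.lt_succ_of_lt h)]
  have h3 : (X ^ 2 * derivative (shiftedLegendre M)).coeff (k + 1) =
      k * (shiftedLegendre M).coeff k := by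
    cases k with
    | zero => simp [coeff_X_pow_mul']
    | succ k =>
      rw [show k + 1 + 1 = k + 2 by ring, coeff_X_pow_mul, coeff_derivative]
      push_cast
      ring
  rw [h3, coeff_shiftedLegendre, coeff_shiftedLegendre, ← add_assoc, pow_succ]
  linear_combination (-(-1) ^ k * M.choose (k + 1) * (k + 1)) * h1 +
    (-(-1) ^ k * (M + k).choose M * (M + k + 1)) * h2

lemma leg_deriv_half {S : Type*} [CommRing S] (h : S) (hh : 2 * h = 1) (M : ℕ) (hM : Even M) :
    aeval h (derivative (shiftedLegendre M)) = 0 := by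
  have h1 := congrArg (fun P => aeval h (derivative P))
    (neg_one_pow_mul_shiftedLegendre_comp_one_sub_X_eq M)
  simp only [hM.neg_one_pow, one_mul, derivative_comp, map_mul, aeval_comp, map_sub, map_one,
    aeval_X, derivative_one, derivative_X, map_zero] at h1
  rw [show 1 - h = h by linear_combination -hh] at h1
  linear_combination (-h) * h1 - aeval h (derivative (shiftedLegendre M)) * hh

lemma coeff_mul_expand {S : Type*} [CommRing S] {p : ℕ} (H Y : S[X]) (hH : H.natDegree < p)
    (k0 k1 : ℕ) (hk : k0 < p) :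
    (H * expand S p Y).coeff (k0 + p * k1) = H.coeff k0 * Y.coeff k1 := by
  have hp : 0 < p := by omega
  rw [coeff_mul, Finset.sum_eq_single (k0, p * k1)]
  · rw [coeff_expand_mul' hp]
  · rintro ⟨i, j⟩ hij hne
    rw [Finset.HasAntidiagonal.mem_antidiagonal] at hij
    simp only at hij ⊢
    rcases lt_or_ge i p with hi | hi
    · rw [coeff_expand hp, if_neg, mul_zero]
      rintro ⟨l, rfl⟩
      have e1 : (i + p * l) % p = (k0 + p * k1) % p := by rw [hij]
      rw [Nat.add_mul_mod_self_left, Nat.add_mul_mod_self_left, Nat.mod_eq_of_lt hi,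
        Nat.mod_eq_of_lt hk] at e1
      apply hne
      subst e1
      rw [Prod.mk.injEq]
      exact ⟨rfl, by omega⟩
    · rw [coeff_eq_zero_of_natDegree_lt (lt_of_lt_of_le hH hi), zero_mul]
  · intro h
    exact absurd (by simp) h

lemma lucas {p : ℕ} [Fact p.Prime] (a b c e : ℕ) (ha : a < p) (hc : c < p) :
    (((a + p * b).choose (c + p * e) : ℕ) : ZMod p) = (a.choose c : ℕ) * (b.choose e : ℕ) := by
  have hp : 0 < p := by omega
  have := Choose.choose_modEq_choose_mod_mul_choose_div_nat (n := a + p * b) (k := c + p * e)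
    (p := p)
  rw [Nat.add_mul_mod_self_left, Nat.add_mul_mod_self_left, Nat.mod_eq_of_lt ha,
    Nat.mod_eq_of_lt hc, Nat.add_mul_div_left _ _ hp, Nat.add_mul_div_left _ _ hp,
    Nat.div_eq_of_lt ha, Nat.div_eq_of_lt hc, zero_add, zero_add,
    ← ZMod.natCast_eq_natCast_iff] at this
  rw [this]
  push_cast
  rfl

lemma leg_lucas {p m : ℕ} [Fact p.Prime] (hp : p = 2 * m + 1) (M : ℕ) :
    (p : ℤ[X]) ∣ shiftedLegendre (m + p * M) - shiftedLegendre m * shiftedLegendre M ^ p := by
  have key : (shiftedLegendre (m + p * M)).map (Int.castRingHom (ZMod p)) =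
      (shiftedLegendre m).map (Int.castRingHom (ZMod p)) *
        expand (ZMod p) p ((shiftedLegendre M).map (Int.castRingHom (ZMod p))) := by
    ext k
    have hp0 : 0 < p := by omega
    obtain ⟨k0, k1, hk, rfl⟩ : ∃ k0 k1, k0 < p ∧ k = k0 + p * k1 :=
      ⟨k % p, k / p, Nat.mod_lt _ hp0, (Nat.mod_add_div k p).symm⟩
    rw [coeff_mul_expand _ _ (lt_of_le_of_lt natDegree_map_le (by simp; omega)) _ _ hk]
    simp only [coeff_map, coeff_shiftedLegendre, eq_intCast, Int.cast_mul, Int.cast_pow,
      Int.cast_neg, Int.cast_one, Int.cast_natCast]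
    rw [lucas m M k0 k1 (by omega) hk]
    rcases le_or_gt k0 m with h | h
    · rw [show m + p * M + (k0 + p * k1) = (m + k0) + p * (M + k1) by ring,
        lucas (m + k0) (M + k1) m M (by omega) (by omega), pow_add, pow_mul,
        Odd.neg_one_pow (n := p) ⟨m, hp⟩]
      ring
    · simp [Nat.choose_eq_zero_of_lt h]
  rw [ZMod.expand_card, ← Polynomial.map_pow, ← Polynomial.map_mul, ← sub_eq_zero,
    ← Polynomial.map_sub] at key
  rw [show (p : ℤ[X]) = C (p : ℤ) by simp, C_dvd_iff_dvd_coeff]
  intro i
  have := congrArg (fun P => P.coeff i) key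
  simp only [coeff_map, eq_intCast, coeff_zero] at this
  exact (ZMod.intCast_zmod_eq_zero_iff_dvd _ _).1 this

lemma leg_half {S : Type*} [CommRing S] (h : S) (hh : 2 * h = 1) (j : ℕ) :
    ((2 * j)! : S) * aeval h (shiftedLegendre (2 * j)) =
      ((2 * j)! : S) * ((-1) ^ j * (2 * j).choose j * h ^ (2 * j)) := by
  have h1 := congrArg (fun P => eval h (P.map (Int.castRingHom S)))
    (factorial_mul_shiftedLegendre_eq (2 * j))
  simp only [Polynomial.map_mul, Polynomial.map_natCast, eval_mul, eval_natCast,
    ← iterate_derivative_map, Polynomial.map_pow, map_X, Polynomial.map_sub,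
    Polynomial.map_one] at h1
  have h2 : eval h ((shiftedLegendre (2 * j)).map (Int.castRingHom S)) =
      aeval h (shiftedLegendre (2 * j)) := by
    rw [aeval_def, eval_map]
    rfl
  rw [h2] at h1
  have h3 : (X : S[X]) * (1 - X) = C (-1) * (X - C h) ^ 2 + C (h ^ 2) := by
    have : (2 : S[X]) * C h = 1 := by
      rw [show (2 : S[X]) = C 2 from (map_ofNat C 2).symm, ← map_mul, hh, map_one]
    simp only [map_neg, map_one, map_pow]
    linear_combination (-X) * this
  rw [h1, ← mul_pow, h3, add_pow, iterate_derivative_sum, eval_finsetSum,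
    Finset.sum_eq_single j]
  · rw [mul_pow, ← C_pow, ← C_pow, ← pow_mul, ← C_eq_natCast,
      show ∀ a b c : S, ∀ P : S[X], C a * P * C b * C c = C (a * b * c) * P from
        fun a b c P => by simp only [map_mul]; ring,
      iterate_derivative_C_mul, iterate_derivative_X_sub_pow_self, ← pow_mul,
      show 2 * j - j = j by omega]
    simp only [eval_mul, eval_C, eval_natCast]
    ring
  · intro k _ hk
    rw [mul_pow, ← C_pow, ← C_pow, ← pow_mul, ← C_eq_natCast,
      show ∀ a b c : S, ∀ P : S[X], C a * P * C b * C c = C (a * b * c) * P from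
        fun a b c P => by simp only [map_mul]; ring,
      iterate_derivative_C_mul, iterate_derivative_X_sub_pow]
    rcases lt_or_gt_of_ne hk with h' | h'
    · rw [Nat.descFactorial_eq_zero_iff_lt.2 (by omega)]
      simp
    · simp [show 2 * k - 2 * j ≠ 0 by omega]
  · intro h'
    exact absurd (Finset.mem_range.2 (by omega)) h'

end Pool.Agent.Lib.MP_3ef01f_nt
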