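import Mathlib

set_option autoImplicit false

namespace Pool.Agent.Lib.MP_3ef01f_nt

open PowerSeries

variable {R : Type*} [CommRing R]

lemma C_dvd_iff (q : R) (f : R⟦X⟧) : C q ∣ f ↔ ∀ n, q ∣ coeff n f := by
  constructor
  · rintro ⟨w, rfl⟩ n
    rw [coeff_C_mul]
    exact dvd_mul_right _ _
  · intro h
    choose w hw using h
    refine ⟨PowerSeries.mk w, ?_⟩
    ext n
    rw [coeff_C_mul, coeff_mk, hw]

lemma map_aeval_int {S T : Type*} [CommRing S] [CommRing T] [Algebra ℤ S] [Algebra ℤ T] (φ : S →+* T) (x : S)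
    (P : Polynomial ℤ) : φ (Polynomial.aeval x P) = Polynomial.aeval (φ x) P := by
  induction P using Polynomial.induction_on with
  | C a => simp
  | add p q hp hq => simp only [map_add, hp, hq]
  | monomial n a _ => simp

lemma der_aeval_int {S : Type*} [CommRing S] [Algebra R S] [Algebra ℤ S] (E : Derivation R S S) (x : S)
    (P : Polynomial ℤ) :
    E (Polynomial.aeval x P) = Polynomial.aeval x (Polynomial.derivative P) * E x := by
  induction P using Polynomial.induction_on with
  | C a => simp
  | add p q hp hq => simp only [map_add, hp, hq, add_mul]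
  | monomial n a _ =>
    simp [Derivation.leibniz, Derivation.leibniz_pow]
    ring

lemma inj_mod (q z : R) (lam w : R⟦X⟧) (hl : lam = X * w) (hw : IsUnit w) (P : Polynomial ℤ) :
    C q ∣ Polynomial.aeval lam P → q ∣ Polynomial.aeval z P := by
  induction P using Polynomial.recOnHorner with
  | M0 => simp
  | MC P a h0 _ ih =>
    intro h
    have h1 := map_dvd (constantCoeff (R := R)) h
    have l0 : constantCoeff lam = 0 := by simp [hl]
    rw [map_aeval_int, l0, constantCoeff_C, map_add, Polynomial.aeval_C,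
      ← Polynomial.coeff_zero_eq_aeval_zero', h0] at h1
    simp only [map_zero, zero_add, eq_intCast] at h1
    have h2 : C q ∣ (a : R⟦X⟧) := by simpa using map_dvd (C (R := R)) h1
    simp only [map_add, Polynomial.aeval_C, eq_intCast, map_intCast] at h ⊢
    exact dvd_add (ih ((dvd_add_left h2).1 h)) h1
  | MX P _ ih =>
    intro h
    rw [map_mul, Polynomial.aeval_X] at h ⊢
    refine (ih ?_).mul_right _
    nth_rewrite 2 [hl] at h
    rw [← mul_assoc, hw.dvd_mul_right, C_dvd_iff] at h
    rw [C_dvd_iff]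
    intro n
    simpa using h (n + 1)

/-- `x` is, modulo `q`, a rational function of `lam` whose value at `h` is `z`. -/
def Rel (q h : R) (lam : R⟦X⟧) (x : R⟦X⟧) (z : R) : Prop :=
  ∃ P Q : Polynomial ℤ, IsUnit (Polynomial.aeval h Q) ∧
    C q ∣ Polynomial.aeval lam Q * x - Polynomial.aeval lam P ∧
    q ∣ Polynomial.aeval h Q * z - Polynomial.aeval h P

variable {q h : R} {lam : R⟦X⟧}

lemma Rel.poly (P : Polynomial ℤ) : Rel q h lam (Polynomial.aeval lam P) (Polynomial.aeval h P) :=
  ⟨P, 1, by simp, by simp, by simp⟩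

lemma Rel.add {x x' : R⟦X⟧} {z z' : R} (a : Rel q h lam x z) (b : Rel q h lam x' z') :
    Rel q h lam (x + x') (z + z') := by
  obtain ⟨P, Q, u, h1, h2⟩ := a
  obtain ⟨P', Q', u', h1', h2'⟩ := b
  refine ⟨P * Q' + P' * Q, Q * Q', by simpa using ⟨u, u'⟩, ?_, ?_⟩
  · convert dvd_add (h1.mul_left (Polynomial.aeval lam Q'))
      (h1'.mul_left (Polynomial.aeval lam Q)) using 1
    simp only [map_add, map_mul]
    ring
  · convert dvd_add (h2.mul_left (Polynomial.aeval h Q'))
      (h2'.mul_left (Polynomial.aeval h Q)) using 1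
    simp only [map_add, map_mul]
    ring

lemma Rel.mul {x x' : R⟦X⟧} {z z' : R} (a : Rel q h lam x z) (b : Rel q h lam x' z') :
    Rel q h lam (x * x') (z * z') := by
  obtain ⟨P, Q, u, h1, h2⟩ := a
  obtain ⟨P', Q', u', h1', h2'⟩ := b
  refine ⟨P * P', Q * Q', by simpa using ⟨u, u'⟩, ?_, ?_⟩
  · convert dvd_add (h1.mul_left (Polynomial.aeval lam Q' * x'))
      (h1'.mul_left (Polynomial.aeval lam P)) using 1
    simp only [map_mul]
    ring
  · convert dvd_add (h2.mul_left (Polynomial.aeval h Q' * z'))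
      (h2'.mul_left (Polynomial.aeval h P)) using 1
    simp only [map_mul]
    ring

lemma Rel.mv {t y : R⟦X⟧} {t' y' : R} (a : Rel q h lam t t') (b : Rel q h lam y y')
    (G : MvPolynomial (Fin 2) ℤ) :
    Rel q h lam (MvPolynomial.aeval ![t, y] G) (MvPolynomial.aeval ![t', y'] G) := by
  induction G using MvPolynomial.induction_on with
  | C c => simpa using Rel.poly (q := q) (h := h) (lam := lam) (Polynomial.C c)
  | add p r hp hr => simpa only [map_add] using hp.add hr
  | mul_X p i hp =>
    simp only [map_mul, MvPolynomial.aeval_X]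
    refine hp.mul ?_
    fin_cases i
    · simpa using a
    · simpa using b

lemma Rel.unique {x x' w : R⟦X⟧} {z z' : R} (hl : lam = X * w) (hw : IsUnit w)
    (a : Rel q h lam x z) (b : Rel q h lam x' z') (hx : C q ∣ x - x') : q ∣ z - z' := by
  obtain ⟨P, Q, u, h1, h2⟩ := a
  obtain ⟨P', Q', u', h1', h2'⟩ := b
  have h3 : q ∣ Polynomial.aeval h (P * Q' - P' * Q) := by
    refine inj_mod q h lam w hl hw _ ?_
    convert dvd_add (dvd_sub (h1'.mul_left (Polynomial.aeval lam Q))
      (h1.mul_left (Polynomial.aeval lam Q')))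
      (hx.mul_left (Polynomial.aeval lam Q * Polynomial.aeval lam Q')) using 1
    simp only [map_sub, map_mul]
    ring
  rw [← (u.mul u').dvd_mul_left]
  convert dvd_add (dvd_sub (h2.mul_left (Polynomial.aeval h Q'))
      (h2'.mul_left (Polynomial.aeval h Q))) h3 using 1
  simp only [map_sub, map_mul]
  ring

end Pool.Agent.Lib.MP_3ef01f_nt
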