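import Mathlib
import Pool.Agent.Lib.MP_3ef01f_nt.G
import Pool.Agent.Lib.MP_3ef01f_nt.Theta
import Pool.Agent.Lib.MP_3ef01f_nt.Leg
import Pool.Agent.Lib.MP_3ef01f_nt.Rel

set_option autoImplicit false

namespace Pool.Agent.Lib.MP_3ef01f_nt

open PowerSeries Nat

variable {p : ℕ} [hp : Fact p.Prime]

lemma toZMod_eq_zero (x : ℤ_[p]) : PadicInt.toZMod x = 0 ↔ (p : ℤ_[p]) ∣ x := by
  rw [← RingHom.mem_ker, PadicInt.ker_toZMod, PadicInt.maximalIdeal_eq_span_p,
    Ideal.mem_span_singleton]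

lemma isUnit_of_not_dvd {x : ℤ_[p]} (h : ¬ (p : ℤ_[p]) ∣ x) : IsUnit x := by
  rw [← Ideal.mem_span_singleton, ← PadicInt.maximalIdeal_eq_span_p,
    IsLocalRing.mem_maximalIdeal, mem_nonunits_iff, not_not] at h
  exact h

lemma not_dvd_of_isUnit {x : ℤ_[p]} (h : IsUnit x) : ¬ (p : ℤ_[p]) ∣ x := fun h' =>
  PadicInt.prime_p.not_isUnit (isUnit_of_dvd_unit h' h)

lemma fermat {x : ℤ_[p]} (h : IsUnit x) (e k : ℕ) :
    (p : ℤ_[p]) ^ (e + 1) ∣ x ^ (p ^ e * ((p - 1) * k)) - 1 := by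
  have h1 : (p : ℤ_[p]) ∣ x ^ ((p - 1) * k) - 1 := by
    rw [← toZMod_eq_zero, map_sub, map_pow, map_one, pow_mul, ZMod.pow_card_sub_one_eq_one,
      one_pow, sub_self]
    rw [Ne, toZMod_eq_zero]
    exact not_dvd_of_isUnit h
  have := dvd_sub_pow_of_dvd_sub h1 e
  rwa [one_pow, ← pow_mul, mul_comm] at this

lemma pow_period (x : ℤ_[p]) (e k n : ℕ) (hn : e + 1 ≤ n) :
    (p : ℤ_[p]) ^ (e + 1) ∣ x ^ (n + p ^ e * ((p - 1) * k)) - x ^ n := by
  rw [pow_add x, ← _root_.mul_sub_one]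
  by_cases h : (p : ℤ_[p]) ∣ x
  · exact ((pow_dvd_pow _ hn).trans (pow_dvd_pow_of_dvd h n)).mul_right _
  · exact (fermat (isUnit_of_not_dvd h) e k).mul_left _

/-- Twice the Euler operator. -/
noncomputable def E1 {R : Type*} [CommRing R] : Derivation R R⟦X⟧ R⟦X⟧ := (2 : R⟦X⟧) • th

lemma E1_apply {R : Type*} [CommRing R] (f : R⟦X⟧) : E1 f = 2 * th f := by simp [E1]

lemma coeff_E1_iter {R : Type*} [CommRing R] (f : R⟦X⟧) (k n : ℕ) :
    coeff n (E1^[k] f) = (2 * n) ^ k * coeff n f := by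
  induction k with
  | zero => simp
  | succ k ih =>
    rw [Function.iterate_succ_apply', E1_apply,
      show (2 : R⟦X⟧) = C 2 from (map_ofNat C 2).symm, coeff_C_mul, coeff_th, ih]
    ring

lemma E1_period (f : ℤ_[p]⟦X⟧) (e k n : ℕ) (hn : e + 1 ≤ n) :
    C ((p : ℤ_[p]) ^ (e + 1)) ∣ E1^[n + p ^ e * ((p - 1) * k)] f - E1^[n] f := by
  rw [C_dvd_iff]
  intro i
  rw [map_sub, coeff_E1_iter, coeff_E1_iter, ← sub_mul]
  exact (pow_period _ e k n hn).mul_right _

/-- The data coming from the theta functions. -/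
structure Th (R : Type*) [CommRing R] where
  h : R
  a : R⟦X⟧
  f : R⟦X⟧
  lam : R⟦X⟧
  al : R⟦X⟧
  ai : R⟦X⟧
  w : R⟦X⟧
  hh : 2 * h = 1
  a0 : constantCoeff a = 1
  uf : IsUnit f
  hai : a * ai = 1
  hl : lam = X * w
  uw : IsUnit w
  tl : th lam = lam * (1 - lam) * a ^ 2
  ta : th a = al * a
  tf : 2 * th f = al * f
  tal : 4 * th al = 4 * al ^ 2 + lam * (1 - lam) * a ^ 4

namespace Th

section
variable {R : Type*} [CommRing R] (T : Th R)

lemma ua : IsUnit T.a := IsUnit.of_mul_eq_one _ T.hai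

lemma tai : th T.ai = -(T.al * T.ai) := by
  have h1 := congrArg th T.hai
  rw [Derivation.leibniz, T.ta, Derivation.map_one_eq_zero] at h1
  simp only [smul_eq_mul] at h1
  linear_combination T.ai * h1 - (th T.ai + T.ai * T.al) * T.hai

lemma hC : (2 : R⟦X⟧) * C T.h = 1 := by
  rw [show (2 : R⟦X⟧) = C 2 from (map_ofNat C 2).symm, ← map_mul, T.hh, map_one]

/-- The quotient of a Legendre polynomial in `lam` by `a`. -/
noncomputable def uu (M : ℕ) : R⟦X⟧ :=
  Polynomial.aeval T.lam (Polynomial.shiftedLegendre M) * T.ai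

lemma th_uu (M : ℕ) : th (T.uu M) = Polynomial.aeval T.lam ((Polynomial.X - Polynomial.X ^ 2) *
    Polynomial.derivative (Polynomial.shiftedLegendre M)) * T.a - T.uu M * T.al := by
  rw [uu, Derivation.leibniz, der_aeval_int, T.tai, T.tl]
  simp only [smul_eq_mul, map_mul, map_sub, map_pow, Polynomial.aeval_X]
  linear_combination (Polynomial.aeval T.lam (Polynomial.derivative
    (Polynomial.shiftedLegendre M)) * T.lam * (1 - T.lam) * T.a) * T.hai

lemma th_th_uu (M : ℕ) : 4 * th (th (T.uu M)) =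
    -((2 * M + 1) ^ 2 * (T.lam * (1 - T.lam) * T.a ^ 4 * T.uu M)) := by
  have h1 := T.th_uu M
  nth_rewrite 1 [h1]
  rw [map_sub, Derivation.leibniz, Derivation.leibniz, der_aeval_int, leg_ode, h1, T.ta, T.tl]
  simp only [smul_eq_mul, map_mul, map_neg, map_add, map_natCast, map_one]
  have h2 : Polynomial.aeval T.lam (Polynomial.shiftedLegendre M) = T.uu M * T.a := by
    rw [uu]
    linear_combination (-Polynomial.aeval T.lam (Polynomial.shiftedLegendre M)) * T.hai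
  rw [h2]
  linear_combination (-T.uu M) * T.tal

lemma uu_zero (M : ℕ) : constantCoeff (T.uu M) = 1 := by
  have l0 : constantCoeff T.lam = 0 := by rw [T.hl]; simp
  have h1 := congrArg (constantCoeff (R := R)) T.hai
  rw [map_mul, T.a0, one_mul, map_one] at h1
  rw [uu, map_mul, h1, map_aeval_int, l0, ← Polynomial.coeff_zero_eq_aeval_zero',
    Polynomial.coeff_shiftedLegendre]
  simp

end

variable (T : Th ℤ_[p])

lemma dvd_coeff_uu (M s : ℕ) (hM : 2 * M + 1 = p ^ s) (n : ℕ) :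
    (p : ℤ_[p]) ^ s ∣ n * coeff n (T.uu M) := by
  have h1 := congrArg (coeff n) (T.th_th_uu M)
  have h2 : ((2 * M + 1) ^ 2 : ℤ_[p]⟦X⟧) = C (((p : ℤ_[p]) ^ s) ^ 2) := by
    have : ((2 * M + 1 : ℕ) : ℤ_[p]⟦X⟧) = ((p ^ s : ℕ) : ℤ_[p]⟦X⟧) := by rw [hM]
    push_cast at this
    rw [this]
    simp
  rw [h2, show (4 : ℤ_[p]⟦X⟧) = C 4 from (map_ofNat C 4).symm, coeff_C_mul, coeff_th, coeff_th,
    map_neg, coeff_C_mul] at h1
  rw [← IsIntegrallyClosed.pow_dvd_pow_iff two_ne_zero]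
  refine ⟨-(T.h ^ 2 * coeff n (T.lam * (1 - T.lam) * T.a ^ 4 * T.uu M) * coeff n (T.uu M)), ?_⟩
  linear_combination T.h ^ 2 * coeff n (T.uu M) * h1 -
    (n * coeff n (T.uu M)) ^ 2 * (2 * T.h + 1) * T.hh

lemma dvd_th_uu (M s : ℕ) (hM : 2 * M + 1 = p ^ s) : C ((p : ℤ_[p]) ^ s) ∣ th (T.uu M) := by
  rw [C_dvd_iff]
  intro n
  rw [coeff_th]
  exact T.dvd_coeff_uu M s hM n

lemma uu_mod (M s : ℕ) (hM : 2 * M + 1 = p ^ s) :
    X ^ (p ^ s) ∣ PowerSeries.map PadicInt.toZMod (T.uu M) - 1 := by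
  rw [X_pow_dvd_iff]
  intro n hn
  rw [map_sub, coeff_map]
  cases n with
  | zero => simp [T.uu_zero]
  | succ n =>
    rw [coeff_one, if_neg (by omega), sub_zero, toZMod_eq_zero]
    by_contra h
    have h1 := T.dvd_coeff_uu M s hM (n + 1)
    rw [(isUnit_of_not_dvd h).dvd_mul_right] at h1
    have h2 := (PadicInt.pow_p_dvd_int_iff s ((n + 1 : ℕ) : ℤ)).1 (by exact_mod_cast h1)
    have h3 : p ^ s ∣ n + 1 := by exact_mod_cast h2
    exact absurd (Nat.le_of_dvd (by omega) h3) (by omega)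

end Th

/-- The numbers `(p ^ s - 1) / 2` for `p = 2 m + 1`. -/
def MM (p m : ℕ) : ℕ → ℕ
  | 0 => 0
  | (s + 1) => m + p * MM p m s

lemma MM_spec {p m : ℕ} (h : p = 2 * m + 1) (s : ℕ) : 2 * MM p m s + 1 = p ^ s := by
  induction s with
  | zero => simp [MM]
  | succ s ih => rw [MM, pow_succ, ← ih]; nth_rewrite 3 [h]; rw [h]; ring

lemma MM_even {p m : ℕ} (h : Even m) (s : ℕ) : Even (MM p m s) := by
  induction s with
  | zero => simp [MM]
  | succ s ih => exact h.add (ih.mul_left _)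

lemma leg_lucas' {m : ℕ} (hm : p = 2 * m + 1) (M : ℕ) {S : Type*} [CommRing S] [Algebra ℤ S]
    [CharP S p] (x : S) : Polynomial.aeval x (Polynomial.shiftedLegendre (m + p * M)) =
      Polynomial.aeval x (Polynomial.shiftedLegendre m) *
        Polynomial.aeval x (Polynomial.shiftedLegendre M) ^ p := by
  have := map_dvd (Polynomial.aeval x) (leg_lucas hm M)
  rwa [map_natCast, CharP.cast_eq_zero, zero_dvd_iff, map_sub, map_mul, map_pow,
    sub_eq_zero] at this

lemma Th.dwork (T : Th ℤ_[p]) {m : ℕ} (hm : p = 2 * m + 1) :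
    (p : ℤ_[p]⟦X⟧) ∣ Polynomial.aeval T.lam (Polynomial.shiftedLegendre m) * T.a ^ (p - 1) - 1 := by
  set π : ℤ_[p]⟦X⟧ →+* (ZMod p)⟦X⟧ := PowerSeries.map PadicInt.toZMod with hπ
  have : CharP (ZMod p)⟦X⟧ p := by
    refine charP_of_injective_ringHom (R := ZMod p) (f := C) ?_ p
    exact C_injective
  have h1 : ∀ s, X ^ (p ^ s) ∣
      Polynomial.aeval (π T.lam) (Polynomial.shiftedLegendre (MM p m s)) - π T.a := by
    intro s
    have h2 := (T.uu_mod _ s (MM_spec hm s)).mul_left (π T.a)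
    have h3 := congrArg π T.hai
    rw [map_mul, map_one] at h3
    rw [← hπ, Th.uu, map_mul, map_aeval_int] at h2
    convert h2 using 1
    linear_combination (-Polynomial.aeval (π T.lam) (Polynomial.shiftedLegendre (MM p m s))) * h3
  have h4 : π T.a = Polynomial.aeval (π T.lam) (Polynomial.shiftedLegendre m) * π T.a ^ p := by
    rw [← sub_eq_zero]
    ext n
    have h5 : X ^ (p ^ n) ∣ π T.a -
        Polynomial.aeval (π T.lam) (Polynomial.shiftedLegendre m) * π T.a ^ p := by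
      have h6 := (pow_dvd_pow X (Nat.pow_le_pow_right hp.1.pos (Nat.le_succ n))).trans (h1 (n + 1))
      have h7 := ((h1 n).trans (sub_dvd_pow_sub_pow _ _ p)).mul_left
        (Polynomial.aeval (π T.lam) (Polynomial.shiftedLegendre m))
      rw [MM, leg_lucas' hm] at h6
      convert dvd_sub h7 h6 using 1
      ring
    simpa using X_pow_dvd_iff.1 h5 n (Nat.lt_pow_self hp.1.one_lt)
  have h8 : π (Polynomial.aeval T.lam (Polynomial.shiftedLegendre m) * T.a ^ (p - 1) - 1) = 0 := by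
    rw [map_sub, map_mul, map_pow, map_one, map_aeval_int]
    apply (T.ua.map π).mul_left_cancel
    have : π T.a ^ p = π T.a * π T.a ^ (p - 1) := by
      rw [← _root_.pow_succ']
      congr 1
      omega
    rw [this] at h4
    linear_combination -h4
  rw [show (p : ℤ_[p]⟦X⟧) = C (p : ℤ_[p]) by simp, C_dvd_iff]
  intro n
  rw [← toZMod_eq_zero, ← coeff_map, ← hπ, h8, map_zero]

lemma fact_ne_zero {n : ℕ} (h : n < p) : (n ! : ZMod p) ≠ 0 := by
  rw [Ne, ZMod.natCast_eq_zero_iff, hp.1.dvd_factorial]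
  omega

lemma half_value {j : ℕ} (hj : p = 4 * j + 1) (h : ZMod p) (hh : 2 * h = 1) :
    Polynomial.aeval h (Polynomial.shiftedLegendre (2 * j)) ^ (2 * j) = 2 ^ (2 * j ^ 2) ∧
      Polynomial.aeval h (Polynomial.shiftedLegendre (2 * j)) ≠ 0 := by
  have f2 : ((2 * j)! : ZMod p) ≠ 0 := fact_ne_zero (by omega)
  have f1 : (j ! : ZMod p) ≠ 0 := fact_ne_zero (by omega)
  have h1 := mul_left_cancel₀ f2 (leg_half h hh j)
  have h0 : h ≠ 0 := by rintro rfl; simp at hh
  have h2 : (((2 * j).choose j : ℕ) : ZMod p) * j ! * j ! = (2 * j)! := by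
    have := Nat.choose_mul_factorial_mul_factorial (show j ≤ 2 * j by omega)
    rw [show 2 * j - j = j by omega] at this
    exact_mod_cast congrArg (Nat.cast : ℕ → ZMod p) this
  have h3 : ((2 * j)! : ZMod p) ^ 2 = -1 := by
    have e1 := ZMod.wilsons_lemma p
    have e2 := ZMod.cast_descFactorial (n := 2 * j) (p := p) (by omega)
    have e3 := Nat.factorial_mul_descFactorial (n := p - 1) (k := 2 * j) (by omega)
    rw [show p - 1 - 2 * j = 2 * j by omega] at e3
    rw [← e1, ← e3]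
    push_cast
    rw [e2, pow_mul]
    ring
  have fl : ∀ x : ZMod p, x ≠ 0 → x ^ (4 * j) = 1 := fun x hx => by
    rw [show 4 * j = p - 1 by omega]
    exact ZMod.pow_card_sub_one_eq_one hx
  generalize ((2 * j)! : ZMod p) = i at f2 h2 h3
  generalize (((2 * j).choose j : ℕ) : ZMod p) = c at h1 h2
  generalize (j ! : ZMod p) = k at f1 h2
  have c0 : c ≠ 0 := by rintro rfl; simp at h2; exact f2 h2.symm
  have i1 : 1 + i ≠ 0 := by
    intro h4
    have : i = -1 := by linear_combination h4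
    rw [this] at h3
    apply h0
    linear_combination h * h * h3 - h * hh
  have e1 : c ^ (2 * j) = (-1) ^ j := by
    rw [← h3, ← pow_mul, ← h2, mul_assoc, mul_pow, ← sq, ← pow_mul,
      show 2 * (2 * j) = 4 * j by ring, fl k f1, mul_one]
  have e2 : (2 : ZMod p) ^ (2 * j) = (-1) ^ j := by
    have e3 : (1 + i) ^ (4 * j) = 1 := fl _ i1
    have e4 : (1 + i) ^ 4 = 2 ^ 2 * (-1) := by linear_combination (i ^ 2 + 4 * i + 5) * h3
    rw [pow_mul, e4, mul_pow, ← pow_mul] at e3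
    have e5 : ((-1 : ZMod p) ^ j) * (-1) ^ j = 1 := by rw [← mul_pow]; simp
    linear_combination (-1) ^ j * e3 - 2 ^ (2 * j) * e5
  rw [h1]
  refine ⟨?_, by simp [c0, h0]⟩
  have e6 : ((-1 : ZMod p) ^ j) ^ (2 * j) = 1 := by
    rw [← pow_mul, mul_left_comm, pow_mul]; simp
  have e7 : ((-1 : ZMod p) ^ j) ^ j = (-1) ^ j := by
    rcases Nat.even_or_odd j with hj' | hj'
    · simp [hj'.neg_one_pow]
    · simp [hj'.neg_one_pow]
  rw [mul_pow, mul_pow, e1, e6, ← pow_mul, show 2 * j * (2 * j) = 4 * j * j by ring, pow_mul h,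
    fl h h0, show 2 * j ^ 2 = 2 * j * j by ring, pow_mul 2, e2, e7]
  simp

lemma Th.unit_half (T : Th ℤ_[p]) {j : ℕ} (hj : p = 4 * j + 1) (s : ℕ) :
    IsUnit (Polynomial.aeval T.h (Polynomial.shiftedLegendre (MM p (2 * j) s))) := by
  apply isUnit_of_not_dvd
  rw [← toZMod_eq_zero, map_aeval_int]
  have hh : 2 * PadicInt.toZMod T.h = 1 := by
    simpa [map_ofNat] using congrArg PadicInt.toZMod T.hh
  induction s with
  | zero => simp [MM, Polynomial.shiftedLegendre]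
  | succ s ih =>
    rw [MM, leg_lucas' (by omega)]
    exact mul_ne_zero (half_value hj _ hh).2 (pow_ne_zero _ ih)

lemma Th.half_pow (T : Th ℤ_[p]) {j : ℕ} (hj : p = 4 * j + 1) (e : ℕ) :
    (p : ℤ_[p]) ^ (e + 1) ∣
      Polynomial.aeval T.h (Polynomial.shiftedLegendre (2 * j)) ^ (2 * j * p ^ e) -
        2 ^ (p ^ e * (2 * j ^ 2)) := by
  have hh : 2 * PadicInt.toZMod T.h = 1 := by
    simpa [map_ofNat] using congrArg PadicInt.toZMod T.hh
  have h1 : (p : ℤ_[p]) ∣ Polynomial.aeval T.h (Polynomial.shiftedLegendre (2 * j)) ^ (2 * j) -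
      2 ^ (2 * j ^ 2) := by
    rw [← toZMod_eq_zero, map_sub, map_pow, map_aeval_int, map_pow, map_ofNat, sub_eq_zero]
    exact (half_value hj _ hh).1
  have := dvd_sub_pow_of_dvd_sub h1 e
  rwa [← pow_mul, ← pow_mul, mul_comm (2 * j ^ 2) (p ^ e)] at this

theorem Th.cong (T : Th ℤ_[p]) {j : ℕ} (hj : p = 4 * j + 1) (e n : ℕ) (hn : e + 1 ≤ n) :
    (p : ℤ_[p]) ^ (e + 1) ∣
      (G0 (n + p ^ e * ((p - 1) * j)) : ℤ_[p]) - 2 ^ (p ^ e * (2 * j ^ 2)) * G0 n := by
  have hC := T.hC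
  set q : ℤ_[p] := (p : ℤ_[p]) ^ (e + 1) with hq
  set L : ℕ := p ^ e * ((p - 1) * j) with hL
  set t : ℤ_[p]⟦X⟧ := C T.h - T.lam with ht
  set y : ℤ_[p]⟦X⟧ := -4 * T.al * T.ai ^ 2 with hy
  set k : ℤ_[p]⟦X⟧ := C (-T.h ^ 2) with hk
  have hk' : k = -C T.h ^ 2 := by simp [hk]
  have hk4 : 4 * k = -1 := by rw [hk']; linear_combination (-(2 * C T.h + 1)) * hC
  have hya : y * T.a ^ 2 = -4 * T.al := by
    rw [hy]; linear_combination (-4 * T.al * (T.a * T.ai + 1)) * T.hai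
  have ht2 : 1 - 4 * t ^ 2 = 4 * (T.lam * (1 - T.lam)) := by
    rw [ht]; linear_combination (4 * T.lam - (2 * C T.h + 1)) * hC
  have thC : ∀ c : ℤ_[p], th (C c) = 0 := fun c => by rw [th_apply, derivative_C, mul_zero]
  have key := iter E1 t y T.a T.f k (by rw [E1_apply, hk, thC, mul_zero]) ?_ ?_ ?_ ?_
  rotate_left
  · rw [E1_apply, ht2, ht, map_sub, thC, T.tl]
    linear_combination (-2 * T.a ^ 2 * (T.lam * (1 - T.lam))) * hk4
  · have h1 := congrArg th hya
    have t4 : th (-4 : ℤ_[p]⟦X⟧) = 0 := by rw [map_neg, th_ofNat 4, neg_zero]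
    rw [sq, Derivation.leibniz _ y, Derivation.leibniz _ T.a, Derivation.leibniz _ (-4), T.ta,
      t4] at h1
    simp only [smul_eq_mul] at h1
    rw [E1_apply, ht2]
    apply (T.ua.pow 2).mul_left_cancel
    linear_combination 2 * h1 - 2 * T.tal +
      (-2 * T.a ^ 4 * (T.lam * (1 - T.lam)) + 8 * T.al ^ 2) * hk4 +
      (-4 * T.al + 2 * k * (y * T.a ^ 2 - 4 * T.al)) * hya
  · rw [E1_apply, T.ta]
    linear_combination (-2 * k * T.a) * hya + 2 * T.al * T.a * hk4
  · rw [E1_apply, T.tf]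
    linear_combination (-k * T.f) * hya + T.al * T.f * hk4
  have uh : IsUnit T.h := IsUnit.of_mul_eq_one_right _ T.hh
  have uk : IsUnit k := ((uh.pow 2).neg).map C
  have h1 := E1_period T.f e j n hn
  rw [key, key, ← hL, ← hq] at h1
  set g1 := MvPolynomial.aeval ![t, y] (g (n + L)) with hg1
  set g0 := MvPolynomial.aeval ![t, y] (g n) with hg0
  have h2 : C q ∣ k ^ L * T.a ^ (2 * L) * g1 - g0 := by
    rw [← (((uk.pow n).mul T.uf).mul (T.ua.pow (2 * n))).dvd_mul_left]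
    convert h1 using 1
    ring
  have h3 : C q ∣ k ^ L - 1 := by
    have := map_dvd (C (R := ℤ_[p])) (fermat (uh.pow 2).neg e j)
    rwa [map_sub, map_pow C (-T.h ^ 2), map_one] at this
  set H := Polynomial.aeval T.lam (Polynomial.shiftedLegendre (2 * j)) with hH
  have h4 : C q ∣ H ^ (2 * j * p ^ e) * T.a ^ (2 * L) - 1 := by
    have h5 := dvd_sub_pow_of_dvd_sub (T.dwork (m := 2 * j) (by omega)) e
    have h6 := h5.trans (sub_dvd_pow_sub_pow _ _ (2 * j))
    rw [one_pow, one_pow, ← pow_mul, mul_pow, ← pow_mul, ← hH] at h6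
    convert h6 using 1
    · simp [hq]
    · rw [hL]
      congr 3 <;> ring
  have h5 : C q ∣ g1 - H ^ (2 * j * p ^ e) * g0 := by
    convert dvd_sub (dvd_sub (h2.mul_left (H ^ (2 * j * p ^ e))) (h4.mul_left (k ^ L * g1)))
      (h3.mul_left g1) using 1
    ring
  have rt : Rel q T.h T.lam t 0 := by
    refine ⟨1 - 2 * Polynomial.X, 2, ?_, ?_, ?_⟩
    · simpa [map_ofNat] using IsUnit.of_mul_eq_one _ T.hh
    · convert dvd_zero _
      simp only [map_ofNat, map_sub, map_one, map_mul, Polynomial.aeval_X, ht]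
      linear_combination hC
    · convert dvd_zero _
      simp only [map_ofNat, map_sub, map_one, map_mul, Polynomial.aeval_X]
      linear_combination T.hh
  have ry : Rel q T.h T.lam y 0 := by
    refine ⟨-4 * ((Polynomial.X - Polynomial.X ^ 2) *
      Polynomial.derivative (Polynomial.shiftedLegendre (MM p (2 * j) (e + 1)))),
      Polynomial.shiftedLegendre (MM p (2 * j) (e + 1)), T.unit_half hj _, ?_, ?_⟩
    · have h6 := (T.dvd_th_uu _ (e + 1) (MM_spec (m := 2 * j) (by omega) _)).mul_left (4 * T.ai)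
      rw [T.th_uu, Th.uu] at h6
      convert h6 using 1
      rw [map_mul _ (-4), map_neg, map_ofNat, hy]
      linear_combination (-4 * Polynomial.aeval T.lam ((Polynomial.X - Polynomial.X ^ 2) *
        Polynomial.derivative (Polynomial.shiftedLegendre (MM p (2 * j) (e + 1))))) * T.hai
    · have h6 := leg_deriv_half T.h T.hh _ (MM_even (p := p) (even_two_mul j) (e + 1))
      simp only [map_mul, h6, mul_zero, sub_zero, dvd_zero]
  have r1 := Rel.mv rt ry (g (n + L))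
  have r0 := (Rel.poly (q := q) (h := T.h) (lam := T.lam)
    (Polynomial.shiftedLegendre (2 * j) ^ (2 * j * p ^ e))).mul (Rel.mv rt ry (g n))
  rw [map_pow, map_pow] at r0
  have h6 := Rel.unique T.hl T.uw r1 r0 h5
  rw [aeval_zero_g, aeval_zero_g] at h6
  convert dvd_add h6 ((T.half_pow hj e).mul_right (G0 n)) using 1
  ring

theorem G0_cong {j : ℕ} (hj : p = 4 * j + 1) (e n : ℕ) (hn : e + 1 ≤ n) :
    (p : ℤ) ^ (e + 1) ∣ G0 (n + p ^ e * ((p - 1) * j)) - 2 ^ (p ^ e * (2 * j ^ 2)) * G0 n := by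
  have u2 : IsUnit (2 : ℤ_[p]) := by
    apply isUnit_of_not_dvd
    intro h
    have h1 : (p : ℤ) ^ 1 ∣ 2 := (PadicInt.pow_p_dvd_int_iff 1 2).1 (by simpa using h)
    have h2 : p ∣ 2 := by rw [pow_one] at h1; exact_mod_cast h1
    have := Nat.le_of_dvd two_pos h2
    have := hp.1.two_le
    omega
  obtain ⟨h, hh⟩ := u2.exists_right_inv
  obtain ⟨a, f, lam, al, ai, w, h1, h2, h3, h4, h5, h6, h7, h8, h9⟩ := theta h hh
  have := Th.cong ⟨h, a, f, lam, al, ai, w, hh, h1, h2, h3, h4, h5, h6, h7, h8, h9⟩ hj e n hn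
  rw [← PadicInt.pow_p_dvd_int_iff]
  exact_mod_cast this

end Pool.Agent.Lib.MP_3ef01f_nt
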