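import Mathlib
import Pool.Agent.Lib.MP_3ef01f_nt.G

set_option autoImplicit false

namespace Pool.Agent.Lib.MP_3ef01f_nt

open MvPolynomial

/-- A filtration of `ℤ[T, Y]` in which `2` has weight two and `Y` has weight one. -/
noncomputable def Fil (n : ℕ) : Ideal (MvPolynomial (Fin 2) ℤ) :=
  Ideal.span {x | ∃ a c : ℕ, n ≤ 2 * a + c ∧ x = 2 ^ a * X 1 ^ c}

lemma gen_mem (n a c : ℕ) (h : n ≤ 2 * a + c) : (2 ^ a * X 1 ^ c : MvPolynomial (Fin 2) ℤ) ∈ Fil n :=
  Ideal.subset_span ⟨a, c, h, rfl⟩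

lemma two_dvd_D0 (q : MvPolynomial (Fin 2) ℤ) : 2 ∣ D0 q := by
  induction q using MvPolynomial.induction_on with
  | C a => simp
  | add p q hp hq => rw [map_add]; exact dvd_add hp hq
  | mul_X p i hp =>
    rw [Derivation.leibniz, smul_eq_mul, smul_eq_mul]
    refine dvd_add (Dvd.dvd.mul_left ?_ _) (hp.mul_left _)
    fin_cases i <;> simp [D0]

lemma fil_step (n : ℕ) (q : MvPolynomial (Fin 2) ℤ) (hq : q ∈ Fil n) :
    X 1 * q ∈ Fil (n + 1) ∧ 2 * q ∈ Fil (n + 1) ∧ D0 q ∈ Fil (n + 1) := by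
  induction hq using Submodule.span_induction with
  | mem x hx =>
    obtain ⟨a, c, h, rfl⟩ := hx
    refine ⟨?_, ?_, ?_⟩
    · convert gen_mem (n + 1) a (c + 1) (by omega) using 1
      ring
    · convert gen_mem (n + 1) (a + 1) c (by omega) using 1
      ring
    · have h2 : D0 (2 ^ a) = 0 := by
        have : (2 ^ a : MvPolynomial (Fin 2) ℤ) = C (2 ^ a) := by simp
        rw [this]
        exact MvPolynomial.derivation_C _ _
      rw [Derivation.leibniz, h2, Derivation.leibniz_pow]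
      cases c with
      | zero => simp
      | succ c =>
        obtain ⟨w, hw⟩ := two_dvd_D0 (X 1)
        convert Ideal.mul_mem_left _ (((c + 1 : ℕ) : MvPolynomial (Fin 2) ℤ) * w)
          (gen_mem (n + 1) (a + 1) c (by omega)) using 1
        rw [hw]
        simp only [smul_eq_mul, nsmul_eq_mul, Nat.add_sub_cancel]
        ring
  | zero => simp
  | add x y _ _ hx hy =>
    rw [mul_add, mul_add, map_add]
    exact ⟨add_mem hx.1 hy.1, add_mem hx.2.1 hy.2.1, add_mem hx.2.2 hy.2.2⟩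
  | smul r x _ hx =>
    rw [smul_eq_mul, Derivation.leibniz, smul_eq_mul, smul_eq_mul]
    obtain ⟨w, hw⟩ := two_dvd_D0 r
    refine ⟨?_, ?_, add_mem (Ideal.mul_mem_left _ _ hx.2.2) ?_⟩
    · convert Ideal.mul_mem_left _ r hx.1 using 1
      ring
    · convert Ideal.mul_mem_left _ r hx.2.1 using 1
      ring
    · convert Ideal.mul_mem_left _ w hx.2.1 using 1
      rw [hw]
      ring

lemma g_mem (n : ℕ) : g n ∈ Fil n := by
  induction n with
  | zero => simpa [g] using gen_mem 0 0 0 le_rfl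
  | succ n ih =>
    obtain ⟨h1, -, h2⟩ := fil_step n _ ih
    rw [g, mul_assoc]
    exact add_mem (Ideal.mul_mem_left _ _ h1) h2

lemma two_pow_dvd_G0 (n : ℕ) : 2 ^ n ∣ G0 (2 * n) := by
  have key : ∀ q ∈ Fil (2 * n), 2 ^ n ∣ aeval ![(0 : ℤ), 0] q := by
    intro q hq
    induction hq using Submodule.span_induction with
    | mem x hx =>
      obtain ⟨a, c, h, rfl⟩ := hx
      cases c with
      | zero => simpa [map_ofNat] using pow_dvd_pow (2 : ℤ) (show n ≤ a by omega)
      | succ c => simp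
    | zero => simp
    | add x y _ _ hx hy => rw [map_add]; exact dvd_add hx hy
    | smul r x _ hx => rw [smul_eq_mul, map_mul]; exact hx.mul_left _
  exact key _ (g_mem _)

end Pool.Agent.Lib.MP_3ef01f_nt
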