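import Mathlib
import Pool.Agent.Lib.MP_3ef01f_nt.Char0
import Pool.Agent.Lib.MP_3ef01f_nt.Two
import Pool.Agent.Lib.MP_3ef01f_nt.Cong

set_option autoImplicit false

namespace Pool.Agent.Lib.MP_3ef01f_nt

lemma d_int (n : ℕ) : ∃ m : ℤ, d n = m ∧ G0 (2 * n) = 2 ^ n * m := by
  obtain ⟨m, hm⟩ := two_pow_dvd_G0 n
  refine ⟨m, ?_, hm⟩
  have h := d_eq n
  rw [hm] at h
  push_cast at h
  exact mul_left_cancel₀ (by positivity) h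

theorem main (p e : ℕ) (hp : p.Prime) (h4 : p % 4 = 1) (he : 1 ≤ e) (n : ℕ) (hn : e ≤ 2 * n) :
    ∃ a b : ℤ, d n = a ∧ d (n + p ^ (e - 1) * (p - 1) ^ 2 / 8) = b ∧
      b ≡ a [ZMOD (p : ℤ) ^ e] := by
  have : Fact p.Prime := ⟨hp⟩
  obtain ⟨e, rfl⟩ : ∃ e', e = e' + 1 := ⟨e - 1, by omega⟩
  obtain ⟨j, hj⟩ : ∃ j, p = 4 * j + 1 := ⟨p / 4, by omega⟩
  have hL : p ^ (e + 1 - 1) * (p - 1) ^ 2 / 8 = p ^ e * (2 * j ^ 2) := by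
    rw [Nat.add_sub_cancel, show p - 1 = 4 * j by omega,
      show p ^ e * (4 * j) ^ 2 = 8 * (p ^ e * (2 * j ^ 2)) by ring,
      Nat.mul_div_cancel_left _ (by norm_num)]
  rw [hL]
  obtain ⟨a, ha, ha'⟩ := d_int n
  obtain ⟨b, hb, hb'⟩ := d_int (n + p ^ e * (2 * j ^ 2))
  refine ⟨a, b, ha, hb, ?_⟩
  have h := G0_cong hj e (2 * n) hn
  rw [show 2 * n + p ^ e * ((p - 1) * j) = 2 * (n + p ^ e * (2 * j ^ 2)) by
    rw [show p - 1 = 4 * j by omega]; ring, ha', hb'] at h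
  have hc : IsCoprime ((p : ℤ) ^ (e + 1)) (2 ^ (n + p ^ e * (2 * j ^ 2))) := by
    apply IsCoprime.pow
    have : Nat.Coprime p 2 := (Nat.coprime_primes hp Nat.prime_two).2 (by omega)
    exact_mod_cast Nat.isCoprime_iff_coprime.2 this
  refine (Int.modEq_iff_dvd.2 (hc.dvd_of_dvd_mul_left ?_)).symm
  rw [show (2 : ℤ) ^ (n + p ^ e * (2 * j ^ 2)) * (b - a) = 2 ^ (n + p ^ e * (2 * j ^ 2)) * b -
    2 ^ (p ^ e * (2 * j ^ 2)) * (2 ^ n * a) by rw [pow_add]; ring]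
  exact h

end Pool.Agent.Lib.MP_3ef01f_nt
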