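import Mathlib
import Pool.Agent.Lib.MP_3ef01f_nt.Cong

set_option autoImplicit false

namespace Pool.Agent.Lib.MP_3ef01f_nt

open PowerSeries

variable {R : Type*} [CommRing R] {ι κ : Type*}

/-- A nonnegative exponent function with finite fibres. -/
structure Ad (e : ι → ℤ) : Prop where
  nn : ∀ i, 0 ≤ e i
  fin : ∀ n : ℕ, {i | e i = (n : ℤ)}.Finite

/-- The series `∑ w i * X ^ e i`. -/
noncomputable def Sm (e : ι → ℤ) (w : ι → R) : R⟦X⟧ :=
  PowerSeries.mk fun n => ∑ᶠ i ∈ {i | e i = (n : ℤ)}, w i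

variable {e : ι → ℤ}

lemma coeff_Sm (h : Ad e) (w : ι → R) (n : ℕ) :
    coeff n (Sm e w) = ∑ i ∈ (h.fin n).toFinset, w i := by
  rw [Sm, coeff_mk, finsum_mem_eq_finite_toFinset_sum _ (h.fin n)]

lemma Sm_add (h : Ad e) (w w' : ι → R) : Sm e (fun i => w i + w' i) = Sm e w + Sm e w' := by
  ext n
  simp only [map_add, coeff_Sm h, Finset.sum_add_distrib]

lemma Sm_C_mul (h : Ad e) (c : R) (w : ι → R) : Sm e (fun i => c * w i) = C c * Sm e w := by
  ext n
  simp only [coeff_C_mul, coeff_Sm h, Finset.mul_sum]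

lemma Sm_sum (h : Ad e) {α : Type*} (s : Finset α) (w : α → ι → R) :
    Sm e (fun i => ∑ a ∈ s, w a i) = ∑ a ∈ s, Sm e (w a) := by
  ext n
  simp only [map_sum, coeff_Sm h]
  exact Finset.sum_comm

lemma Sm_map {S : Type*} [CommRing S] (h : Ad e) (φ : R →+* S) (w : ι → R) :
    PowerSeries.map φ (Sm e w) = Sm e (fun i => φ (w i)) := by
  ext n
  simp only [coeff_map, coeff_Sm h, map_sum]

lemma Sm_E1 (h : Ad e) (w : ι → R) (m : ℕ) :
    E1^[m] (Sm e w) = Sm e (fun i => (2 * (e i : R)) ^ m * w i) := by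
  ext n
  rw [coeff_E1_iter, coeff_Sm h, coeff_Sm h, Finset.mul_sum]
  refine Finset.sum_congr rfl fun i hi => ?_
  have : e i = n := by simpa using hi
  rw [this]
  simp

lemma Sm_dvd (h : Ad e) (q : R) (w : ι → R) (hw : ∀ i, q ∣ w i) : C q ∣ Sm e w := by
  rw [C_dvd_iff]
  intro n
  rw [coeff_Sm h]
  exact Finset.dvd_sum fun i _ => hw i

lemma Ad.comp (h : Ad e) {σ : κ → ι} (hσ : Function.Injective σ) : Ad (fun k => e (σ k)) :=
  ⟨fun _ => h.nn _, fun n => (h.fin n).preimage hσ.injOn⟩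

lemma Sm_inj (h : Ad e) {σ : κ → ι} (hσ : Function.Injective σ) (w : ι → R)
    (hw : ∀ i, (∀ k, σ k ≠ i) → w i = 0) :
    Sm e w = Sm (fun k => e (σ k)) (fun k => w (σ k)) := by
  ext n
  rw [coeff_Sm h, coeff_Sm (h.comp hσ)]
  symm
  refine Finset.sum_bij_ne_zero (fun k _ _ => σ k) ?_ ?_ ?_ ?_
  · intro k hk _
    simpa using hk
  · intro a _ _ b _ _ hab
    exact hσ hab
  · intro i hi hne
    by_contra hcon
    apply hne
    apply hw
    intro k hk
    apply hcon
    subst hk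
    exact ⟨k, by simpa using hi, hne, rfl⟩
  · intro _ _ _
    rfl

lemma Ad.prod {e' : κ → ℤ} (h : Ad e) (h' : Ad e') : Ad (fun x : ι × κ => e x.1 + e' x.2) := by
  refine ⟨fun x => add_nonneg (h.nn _) (h'.nn _), fun n => ?_⟩
  refine ((Set.finite_le_nat n).biUnion fun a _ => (Set.finite_le_nat n).biUnion fun b _ =>
    (h.fin a).prod (h'.fin b)).subset ?_
  rintro ⟨i, k⟩ hx
  have h1 := h.nn i
  have h2 := h'.nn k
  simp only [Set.mem_ofPred_eq] at hx
  simp only [Set.mem_iUnion, Set.mem_prod, Set.mem_ofPred_eq]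
  exact ⟨(e i).toNat, by omega, (e' k).toNat, by omega, by omega, by omega⟩

lemma Sm_mul {e' : κ → ℤ} (h : Ad e) (h' : Ad e') (w : ι → R) (w' : κ → R) :
    Sm e w * Sm e' w' = Sm (fun x : ι × κ => e x.1 + e' x.2) (fun x => w x.1 * w' x.2) := by
  classical
  ext n
  rw [coeff_mul, coeff_Sm (h.prod h')]
  simp only [coeff_Sm h, coeff_Sm h', Finset.sum_mul_sum]
  rw [← Finset.sum_fiberwise_of_maps_to (s := ((h.prod h').fin n).toFinset)
    (t := Finset.HasAntidiagonal.antidiagonal n) (g := fun x => ((e x.1).toNat, (e' x.2).toNat))]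
  · refine Finset.sum_congr rfl fun ab hab => ?_
    rw [← Finset.sum_product']
    refine Finset.sum_congr ?_ fun _ _ => rfl
    ext ⟨i, k⟩
    have h1 := h.nn i
    have h2 := h'.nn k
    have h3 := Finset.HasAntidiagonal.mem_antidiagonal.1 hab
    simp only [Finset.mem_product, Set.Finite.mem_toFinset, Set.mem_ofPred_eq, Finset.mem_filter,
      Prod.ext_iff]
    omega
  · rintro ⟨i, k⟩ hx
    have h1 := h.nn i
    have h2 := h'.nn k
    simp only [Set.Finite.mem_toFinset, Set.mem_ofPred_eq] at hx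
    simp only [Finset.HasAntidiagonal.mem_antidiagonal]
    omega

lemma Sm_shift (h : Ad e) (w : ι → R) : Sm (fun i => e i + 1) w = X * Sm e w := by
  ext n
  cases n with
  | zero =>
    have : {i | e i + 1 = ((0 : ℕ) : ℤ)} = ∅ := by
      ext i
      have := h.nn i
      simp only [Set.mem_ofPred_eq, Set.mem_empty_iff_false, iff_false]
      omega
    rw [Sm, coeff_mk, this]
    simp
  | succ n =>
    have : {i | e i + 1 = ((n + 1 : ℕ) : ℤ)} = {i | e i = (n : ℤ)} := by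
      ext i
      simp only [Set.mem_ofPred_eq]
      omega
    rw [coeff_succ_X_mul, Sm, Sm, coeff_mk, coeff_mk, this]

lemma Sm_expand (m : ℕ) (hm : m ≠ 0) (w : ι → R) :
    Sm (fun i => m * e i) w = expand m hm (Sm e w) := by
  ext n
  rw [coeff_expand]
  split_ifs with hd
  · obtain ⟨k, rfl⟩ := hd
    have : {i | (m : ℤ) * e i = ((m * k : ℕ) : ℤ)} = {i | e i = (k : ℤ)} := by
      ext i
      simp [hm]
    rw [Nat.mul_div_cancel_left _ (Nat.pos_of_ne_zero hm), Sm, Sm, coeff_mk, coeff_mk, this]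
  · have : {i | (m : ℤ) * e i = (n : ℤ)} = ∅ := by
      ext i
      simp only [Set.mem_ofPred_eq, Set.mem_empty_iff_false, iff_false]
      intro hi
      exact hd (Int.natCast_dvd_natCast.1 ⟨_, hi.symm⟩)
    rw [Sm, coeff_mk, this]
    simp

lemma Ad.of_bound {e : ℤ → ℤ} (h0 : ∀ k, 0 ≤ e k) (h1 : ∀ k, k ≤ e k + 1 ∧ -k ≤ e k + 1) :
    Ad e := by
  refine ⟨h0, fun n => (Set.finite_Icc (-(n : ℤ) - 1) (n + 1)).subset fun k hk => ?_⟩
  have := h1 k
  simp only [Set.mem_ofPred_eq] at hk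
  constructor <;> omega

lemma ad3 : Ad (fun k : ℤ => k ^ 2) :=
  .of_bound (fun k => by positivity) fun k => ⟨by nlinarith [sq_nonneg (k - 1)],
    by nlinarith [sq_nonneg (k + 1)]⟩

lemma sq_add_self_nn (k : ℤ) : 0 ≤ k ^ 2 + k := by
  rcases le_or_gt 0 k with h | h
  · positivity
  · nlinarith

lemma ad2 : Ad (fun k : ℤ => k ^ 2 + k) :=
  .of_bound sq_add_self_nn fun k => ⟨by nlinarith [sq_nonneg k], by nlinarith [sq_nonneg (k + 1)]⟩

lemma Ad.two (h : Ad e) : Ad (fun i => ((2 : ℕ) : ℤ) * e i) := by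
  refine ⟨fun i => mul_nonneg (by norm_num) (h.nn i), fun n => (h.fin (n / 2)).subset ?_⟩
  intro i hi
  simp only [Set.mem_ofPred_eq] at hi ⊢
  omega

/-- Splitting a double series by the parity of the sum of the indices. -/
lemma Sm_split {e : ℤ × ℤ → ℤ} (h : Ad e) (u : ℤ × ℤ → R) :
    Sm e u = Sm (fun x : ℤ × ℤ => e (x.1 + x.2, x.1 - x.2)) (fun x => u (x.1 + x.2, x.1 - x.2)) +
      Sm (fun x : ℤ × ℤ => e (x.1 + x.2 + 1, x.1 - x.2))
        (fun x => u (x.1 + x.2 + 1, x.1 - x.2)) := by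
  have h0 : u = fun x => (if (x.1 + x.2) % 2 = 0 then u x else 0) +
      (if (x.1 + x.2) % 2 = 0 then 0 else u x) := by
    funext x
    split_ifs <;> simp
  nth_rewrite 1 [h0]
  rw [Sm_add h, Sm_inj h (σ := fun x : ℤ × ℤ => (x.1 + x.2, x.1 - x.2)),
    Sm_inj h (σ := fun x : ℤ × ℤ => (x.1 + x.2 + 1, x.1 - x.2))]
  · congr 2
    · funext x
      rw [if_pos (by omega)]
    · funext x
      rw [if_neg (by omega)]
  · intro x y hxy
    simp only [Prod.ext_iff] at hxy ⊢
    omega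
  · intro x hx
    rw [if_pos]
    by_contra hc
    exact hx ((x.1 + x.2) / 2, (x.1 - x.2) / 2) (by simp only [Prod.ext_iff]; omega)
  · intro x y hxy
    simp only [Prod.ext_iff] at hxy ⊢
    omega
  · intro x hx
    rw [if_neg]
    intro hc
    exact hx ((x.1 + x.2) / 2, (x.1 - x.2) / 2) (by simp only [Prod.ext_iff]; omega)

/-- Weighted theta series. -/
noncomputable def Tw (w : ℤ → R) : R⟦X⟧ := Sm (fun k : ℤ => k ^ 2) w

/-- Second order theta series, even part. -/
noncomputable def A0 (w : ℤ → R) : R⟦X⟧ :=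
  Sm (fun k : ℤ => ((2 : ℕ) : ℤ) * k ^ 2) (fun k => w (2 * k))

/-- Second order theta series, odd part. -/
noncomputable def A1 (w : ℤ → R) : R⟦X⟧ :=
  Sm (fun k : ℤ => ((2 : ℕ) : ℤ) * (k ^ 2 + k)) (fun k => w (2 * k + 1))

/-- Double theta series. -/
noncomputable def Tw2 (u : ℤ × ℤ → R) : R⟦X⟧ := Sm (fun x : ℤ × ℤ => x.1 ^ 2 + x.2 ^ 2) u

lemma Tw_mul (a b : ℤ → R) : Tw a * Tw b = Tw2 (fun x => a x.1 * b x.2) := Sm_mul ad3 ad3 a b

lemma Tw2_br (c d : ℤ → R) :
    Tw2 (fun x => c (x.1 + x.2) * d (x.1 - x.2)) = A0 c * A0 d + X * (A1 c * A1 d) := by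
  rw [Tw2, Sm_split (ad3.prod ad3), A0, A0, A1, A1, Sm_mul ad3.two ad3.two,
    Sm_mul ad2.two ad2.two, ← Sm_shift (ad2.two.prod ad2.two)]
  congr 2
  · funext x
    push_cast
    ring
  · funext x
    congr 2 <;> ring
  · funext x
    push_cast
    ring
  · funext x
    congr 2 <;> ring

/-- The series `∑ X ^ (k ^ 2 + k)` over all integers `k`. -/
noncomputable def psi : R⟦X⟧ := Sm (fun k : ℤ => k ^ 2 + k) (fun _ => 1)

lemma theta_sq : (Tw fun _ => (1 : R)) ^ 2 =
    ex ((Tw fun _ => (1 : R)) ^ 2) + X * ex (psi ^ 2) := by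
  have := Tw2_br (fun _ => (1 : R)) (fun _ => 1)
  rw [← Tw_mul (fun _ => (1 : R)) (fun _ => 1), A0, A1, Sm_expand 2 two_ne_zero,
    Sm_expand 2 two_ne_zero] at this
  rw [map_pow, map_pow, sq, this, sq, sq]
  rfl

lemma psi_sq : (psi : R⟦X⟧) ^ 2 = 2 * (ex (Tw fun _ => (1 : R)) * ex psi) := by
  rw [sq, psi, Sm_mul ad2 ad2, Sm_split (ad2.prod ad2), Tw, ← Sm_expand 2 two_ne_zero,
    ← Sm_expand 2 two_ne_zero, Sm_mul ad3.two ad2.two, two_mul]
  congr 1
  · rw [Sm_inj (ad3.two.prod ad2.two) (σ := Prod.swap) Prod.swap_injective _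
      (fun i hi => absurd rfl (hi i.swap))]
    congr 1
    funext x
    simp only [Prod.fst_swap, Prod.snd_swap]
    push_cast
    ring
  · rw [Sm_inj (ad3.two.prod ad2.two) (σ := fun x : ℤ × ℤ => (x.1 + 1, x.2))]
    · congr 1
      funext x
      push_cast
      ring
    · intro x y hxy
      simp only [Prod.ext_iff] at hxy ⊢
      omega
    · intro i hi
      exact absurd (by simp) (hi (i.1 - 1, i.2))

lemma theta_zero : constantCoeff (Tw fun _ => (1 : R)) = 1 := by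
  have : (ad3.fin 0).toFinset = {0} := by
    ext k
    simp
  rw [← coeff_zero_eq_constantCoeff_apply, Tw, coeff_Sm ad3, this, Finset.sum_singleton]

lemma psi_zero : constantCoeff (psi : R⟦X⟧) = 2 := by
  have : (ad2.fin 0).toFinset = {0, -1} := by
    ext k
    simp only [Set.Finite.mem_toFinset, Set.mem_ofPred_eq, Finset.mem_insert, Finset.mem_singleton,
      Nat.cast_zero]
    constructor
    · intro h
      have : k * (k + 1) = 0 := by linear_combination h
      rcases mul_eq_zero.1 this with h | h <;> omega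
    · rintro (rfl | rfl) <;> norm_num
  rw [← coeff_zero_eq_constantCoeff_apply, psi, coeff_Sm ad2, this, Finset.sum_pair (by norm_num)]
  norm_num

end Pool.Agent.Lib.MP_3ef01f_nt
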