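import Mathlib
import Pool.Agent.Lib.MP_3ef01f_nt.XSum

set_option autoImplicit false

namespace Pool.Agent.Lib.MP_3ef01f_nt

open PowerSeries

/-- The integer `(k ^ p - k) / p`. -/
def del (p : ℕ) (k : ℤ) : ℤ := (k ^ p - k) / p

/-- The polynomial `((x + y) ^ p - x ^ p - y ^ p) / p`. -/
def ss (p : ℕ) {A : Type*} [CommRing A] (x y : A) : A :=
  ∑ k ∈ Finset.Ioo 0 p, x ^ k * y ^ (p - k) * ((p.choose k / p : ℕ) : A)

/-- The polynomial `((x + y) ^ p + (x - y) ^ p - 2 * x ^ p) / p`. -/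
def Phi (p : ℕ) {A : Type*} [CommRing A] (x y : A) : A := ss p y x + ss p (-y) x

variable {p : ℕ} [hp : Fact p.Prime]

lemma del_spec (k : ℤ) : (p : ℤ) * del p k = k ^ p - k := by
  apply Int.mul_ediv_cancel'
  rw [← ZMod.intCast_zmod_eq_zero_iff_dvd]
  push_cast
  rw [ZMod.pow_card, sub_self]

lemma ss_spec {A : Type*} [CommRing A] (x y : A) : (x + y) ^ p = x ^ p + y ^ p + p * ss p x y :=
  add_pow_prime_eq' hp.1 x y

omit hp in
lemma ss_cast {A : Type*} [CommRing A] (x y : ℤ) : ((ss p x y : ℤ) : A) = ss p (x : A) y := by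
  simp only [ss, Int.cast_sum, Int.cast_mul, Int.cast_pow, Int.cast_natCast]

lemma p_ne : (p : ℤ) ≠ 0 := by exact_mod_cast hp.1.ne_zero

lemma del_add (k l : ℤ) : del p (k + l) = del p k + del p l + ss p k l := by
  apply mul_left_cancel₀ (p_ne (p := p))
  linear_combination del_spec (p := p) (k + l) - del_spec (p := p) k - del_spec (p := p) l +
    ss_spec (p := p) k l

lemma del_neg (h : Odd p) (k : ℤ) : del p (-k) = -del p k := by
  apply mul_left_cancel₀ (p_ne (p := p))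
  linear_combination del_spec (p := p) (-k) + del_spec (p := p) k + h.neg_pow k

lemma Phi_eq (h : Odd p) (x y : ZMod p) : ss p x x - ss p (x + y) (x - y) = Phi p x y := by
  obtain ⟨x, rfl⟩ := ZMod.intCast_surjective x
  obtain ⟨y, rfl⟩ := ZMod.intCast_surjective y
  have : ss p x x - ss p (x + y) (x - y) = Phi p x y := by
    apply mul_left_cancel₀ (p_ne (p := p))
    have h1 := ss_spec (p := p) (x + y) (x - y)
    have h2 := ss_spec (p := p) (-y) x
    rw [show x + y + (x - y) = x + x by ring] at h1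
    rw [show -y + x = x - y by ring, h.neg_pow] at h2
    have h3 := ss_spec (p := p) y x
    rw [add_comm y x] at h3
    rw [Phi]
    linear_combination h1 - ss_spec (p := p) x x + h2 + h3
  have h2 := congrArg (Int.cast : ℤ → ZMod p) this
  simpa only [Phi, Int.cast_sub, Int.cast_add, ss_cast, Int.cast_neg] using h2

/-- The indicator function of a residue class. -/
def ind (x : ZMod p) (k : ℤ) : ZMod p := if (k : ZMod p) = x then 1 else 0

/-- The indicator function weighted by Fermat quotients. -/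
def idel (x : ZMod p) (k : ℤ) : ZMod p := ind x k * del p k

/-- Partial theta series. -/
noncomputable def FF (x : ZMod p) : (ZMod p)⟦X⟧ := Tw (ind x)

/-- Partial theta series weighted by Fermat quotients. -/
noncomputable def DD (x : ZMod p) : (ZMod p)⟦X⟧ := Tw (idel x)

lemma Tw_decomp (φ : ZMod p → ZMod p) (w : ℤ → ZMod p) :
    Tw (fun k => φ k * w k) = ∑ x, C (φ x) * Tw fun k => ind x k * w k := by
  simp only [Tw, ← Sm_C_mul ad3, ← Sm_sum ad3]
  congr 1
  funext k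
  simp [ind]

lemma Tw_neg {R : Type*} [CommRing R] (w : ℤ → R) : Tw w = Tw fun k => w (-k) := by
  rw [Tw, Sm_inj ad3 (σ := fun k : ℤ => -k) neg_injective w
    (fun i hi => absurd (neg_neg i) (hi (-i))), Tw]
  simp only [even_two.neg_pow]

lemma ind_neg (x : ZMod p) (k : ℤ) : ind (-x) (-k) = ind x k := by simp [ind]

lemma FF_neg (x : ZMod p) : FF (-x) = FF x := by
  rw [FF, Tw_neg]
  simp only [ind_neg]
  rfl

lemma DD_neg (h : Odd p) (x : ZMod p) : DD (-x) = -DD x := by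
  rw [DD, Tw_neg, DD, show -Tw (idel x) = C (-1) * Tw (idel x) by simp, Tw, Tw, ← Sm_C_mul ad3]
  congr 1
  funext k
  rw [idel, idel, ind_neg, del_neg h]
  push_cast
  ring

lemma FF_zero : FF (0 : ZMod p) = (Tw fun _ => 1) ^ p ^ 2 := by
  have h1 := MvPowerSeries.map_iterateFrobenius_expand p hp.1.ne_zero
    (Tw fun _ => (1 : ZMod p)) 2
  have h2 : iterateFrobenius (ZMod p) p 2 = RingHom.id _ := RingHom.ext_zmod _ _
  rw [h2, MvPowerSeries.map_id] at h1
  rw [← h1, FF, Tw, Sm_inj ad3 (σ := fun k : ℤ => (p : ℤ) * k) (mul_right_injective₀ p_ne)]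
  · refine Eq.trans ?_ (Sm_expand (p ^ 2) (pow_ne_zero 2 hp.1.ne_zero) _)
    congr 1
    · funext k
      push_cast
      ring
    · funext k
      simp [ind]
  · intro i hi
    rw [ind, if_neg]
    rw [ZMod.intCast_zmod_eq_zero_iff_dvd]
    rintro ⟨k, rfl⟩
    exact hi k rfl

lemma ind_mul (h2 : (2 : ZMod p) ≠ 0) (x y : ZMod p) (k l : ℤ) :
    ind (x + y) k * ind (x - y) l = ind (2 * x) (k + l) * ind (2 * y) (k - l) := by
  simp only [ind, ite_zero_mul_ite_zero, Int.cast_add, Int.cast_sub]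
  refine if_congr ⟨?_, ?_⟩ rfl rfl
  · rintro ⟨h, h'⟩
    rw [h, h']
    constructor <;> ring
  · rintro ⟨h, h'⟩
    constructor <;> apply mul_left_cancel₀ h2
    · linear_combination h + h'
    · linear_combination h - h'

lemma FF_mul (h2 : (2 : ZMod p) ≠ 0) (x y : ZMod p) : FF (x + y) * FF (x - y) =
    A0 (ind (2 * x)) * A0 (ind (2 * y)) + X * (A1 (ind (2 * x)) * A1 (ind (2 * y))) := by
  rw [FF, FF, Tw_mul, ← Tw2_br]
  simp only [ind_mul h2]

lemma DD_mul (h2 : (2 : ZMod p) ≠ 0) (x y : ZMod p) :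
    DD (x + y) * FF (x - y) + FF (x + y) * DD (x - y) +
      C (ss p (x + y) (x - y)) * (FF (x + y) * FF (x - y)) =
    A0 (idel (2 * x)) * A0 (ind (2 * y)) +
      X * (A1 (idel (2 * x)) * A1 (ind (2 * y))) := by
  rw [FF, FF, DD, DD, Tw_mul, Tw_mul, Tw_mul, ← Tw2_br, Tw2, Tw2, Tw2,
    ← Sm_C_mul (ad3.prod ad3), ← Sm_add (ad3.prod ad3), ← Sm_add (ad3.prod ad3), Tw2]
  congr 1
  funext z
  rw [idel, idel, idel, mul_right_comm (ind (2 * x) _), ← ind_mul h2, del_add]
  push_cast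
  rw [ss_cast]
  simp only [ind]
  split_ifs with h h'
  · rw [h, h']
    ring
  all_goals ring

/-- The entries of the matrix of rank one. -/
noncomputable def RR (x y : ZMod p) : (ZMod p)⟦X⟧ :=
  ((DD (x + y) * FF (x - y) + FF (x + y) * DD (x - y)) * FF x -
    2 * DD x * (FF (x + y) * FF (x - y)) - C (Phi p x y) * (FF (x + y) * FF (x - y)) * FF x) * FF x

lemma RR_eq (h : Odd p) (h2 : (2 : ZMod p) ≠ 0) : ∃ u v : ZMod p → (ZMod p)⟦X⟧,
    ∀ x y, RR x y = u x * v y := by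
  refine ⟨fun x => X * (A0 (idel (2 * x)) * A1 (ind (2 * x)) -
    A1 (idel (2 * x)) * A0 (ind (2 * x))),
    fun y => A0 (ind (2 * y)) * A1 (ind (2 * 0)) - A1 (ind (2 * y)) * A0 (ind (2 * 0)),
    fun x y => ?_⟩
  have h1 := FF_mul h2 x y
  have h3 := DD_mul h2 x y
  have h4 := FF_mul h2 x 0
  have h5 := DD_mul h2 x 0
  rw [add_zero, sub_zero] at h4 h5
  rw [RR, ← Phi_eq h, map_sub]
  linear_combination FF x * FF x * h3 - FF (x + y) * FF (x - y) * h5 +
    (A0 (idel (2 * x)) * A0 (ind (2 * y)) +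
      X * (A1 (idel (2 * x)) * A1 (ind (2 * y)))) * h4 -
    (A0 (idel (2 * x)) * A0 (ind (2 * 0)) +
      X * (A1 (idel (2 * x)) * A1 (ind (2 * 0)))) * h1

lemma FF_det (h2 : (2 : ZMod p) ≠ 0) (w x y : ZMod p) :
    FF (0 : ZMod p) * FF 0 * (FF (w + w) * FF 0 * (FF (x + y) * FF (x - y)) -
      FF (w + y) * FF (w - y) * (FF (x + w) * FF (x - w))) -
    FF w * FF w * (FF w * FF w * (FF (x + y) * FF (x - y)) -
      FF (w + y) * FF (w - y) * (FF x * FF x)) +
    FF y * FF y * (FF w * FF w * (FF (x + w) * FF (x - w)) -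
      FF (w + w) * FF 0 * (FF x * FF x)) = 0 := by
  have h00 := FF_mul h2 0 0
  have hww := FF_mul h2 w w
  have hw0 := FF_mul h2 w 0
  have hx0 := FF_mul h2 x 0
  have hy0 := FF_mul h2 y 0
  rw [add_zero, sub_zero] at h00 hw0 hx0 hy0
  rw [sub_self] at hww
  rw [h00, hww, hw0, hx0, hy0, FF_mul h2 x y, FF_mul h2 w y, FF_mul h2 x w]
  ring

end Pool.Agent.Lib.MP_3ef01f_nt
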