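import Mathlib
import Pool.Agent.Lib.MP_3ef01f_nt.XPart

set_option autoImplicit false

namespace Pool.Agent.Lib.MP_3ef01f_nt

variable {p : ℕ} [hp : Fact p.Prime]

lemma forall_of_add {U : ZMod p → Prop} {v : ZMod p} (hv : v ≠ 0) (h0 : U 0)
    (h : ∀ x, U x → U (x + v)) (x : ZMod p) : U x := by
  have key : ∀ n : ℕ, U (n * v) := by
    intro n
    induction n with
    | zero => simpa using h0
    | succ n ih => simpa [add_mul] using h _ ih
  simpa [hv] using key (x / v).val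

/-- An even solution of the functional equation of theta functions on `ℤ / p` has no zero. -/
theorem no_zero {k : Type*} [Field k] (h2 : (2 : ZMod p) ≠ 0) (φ : ZMod p → k)
    (he : ∀ x, φ (-x) = φ x) (h0 : φ 0 ≠ 0) {x0 : ZMod p} (hx0 : x0 ≠ 0) (h1 : φ x0 ≠ 0)
    (hd : ∀ w x y, φ 0 * φ 0 * (φ (w + w) * φ 0 * (φ (x + y) * φ (x - y)) -
      φ (w + y) * φ (w - y) * (φ (x + w) * φ (x - w))) -
      φ w * φ w * (φ w * φ w * (φ (x + y) * φ (x - y)) - φ (w + y) * φ (w - y) * (φ x * φ x)) +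
      φ y * φ y * (φ w * φ w * (φ (x + w) * φ (x - w)) - φ (w + w) * φ 0 * (φ x * φ x)) = 0)
    (x : ZMod p) : φ x ≠ 0 := by
  have hA : ∀ w, φ w = 0 → φ (w + w) = 0 := by
    intro w hw
    by_contra h3
    have hw0 : w + w ≠ 0 := by
      rw [← two_mul]
      refine mul_ne_zero h2 ?_
      rintro rfl
      exact h0 hw
    refine forall_of_add (U := fun x => φ x ≠ 0) hw0 h0 (fun x hx h4 => ?_) w hw
    have h5 := hd w x (w + w)
    rw [show w - (w + w) = -w by ring, he, hw, h4] at h5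
    have : φ (w + w) ^ 3 * φ 0 * φ x ^ 2 = 0 := by linear_combination -h5
    simp [h3, h0, hx] at this
  have hB : ∀ w y, φ w = 0 → φ (w + y) * φ (w - y) = 0 := by
    intro w y hw
    have h5 := hd w y y
    rw [hA w hw, hw, add_comm y w, show y - w = -(w - y) by ring, he] at h5
    have : φ 0 ^ 2 * (φ (w + y) * φ (w - y)) ^ 2 = 0 := by linear_combination -h5
    exact pow_eq_zero_iff two_ne_zero |>.1 ((mul_eq_zero.1 this).resolve_left (pow_ne_zero 2 h0))
  have mid : ∀ u v, φ u ≠ 0 → φ v ≠ 0 → φ ((u + v) / 2) ≠ 0 := by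
    intro u v hu hv h3
    have := hB _ ((u - v) / 2) h3
    rw [show (u + v) / 2 + (u - v) / 2 = u by field_simp; ring,
      show (u + v) / 2 - (u - v) / 2 = v by field_simp; ring] at this
    exact mul_ne_zero hu hv this
  have half : ∀ (n : ℕ) u, φ u ≠ 0 → φ (u / 2 ^ n) ≠ 0 := by
    intro n u hu
    induction n with
    | zero => simpa using hu
    | succ n ih => simpa [pow_succ, div_div] using mid _ 0 ih h0
  refine forall_of_add (U := fun x => φ x ≠ 0) hx0 h0 (fun u hu => ?_) x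
  have h3 := half (p - 2) _ (mid u x0 hu h1)
  have := hp.1.two_le
  rwa [div_div, ← pow_succ', show p - 2 + 1 = p - 1 by omega, ZMod.pow_card_sub_one_eq_one h2,
    div_one] at h3

/-- The coefficients of `Phi p 1 t`. -/
def ee (p i : ℕ) : ZMod p := (1 + (-1) ^ i) * ((p.choose i / p : ℕ) : ZMod p)

lemma choose_pred (i : ℕ) (hi : i < p) : (((p - 1).choose i : ℕ) : ZMod p) = (-1) ^ i := by
  induction i with
  | zero => simp
  | succ i ih =>
    have h1 := Nat.choose_succ_succ' (p - 1) i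
    rw [show p - 1 + 1 = p by omega] at h1
    have h2 : ((p.choose (i + 1) : ℕ) : ZMod p) = 0 :=
      (ZMod.natCast_eq_zero_iff _ _).2 (hp.1.dvd_choose_self (by omega) hi)
    rw [h1, Nat.cast_add, ih (by omega)] at h2
    linear_combination h2

lemma mul_ee (i : ℕ) (h0 : 0 < i) (hi : i < p) : (i : ZMod p) * ee p i = -(1 + (-1) ^ i) := by
  obtain ⟨i, rfl⟩ : ∃ j, i = j + 1 := ⟨i - 1, by omega⟩
  have h1 := Nat.add_one_mul_choose_eq (p - 1) i
  rw [show p - 1 + 1 = p by omega] at h1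
  obtain ⟨c, hc⟩ := hp.1.dvd_choose_self (show i + 1 ≠ 0 by omega) hi
  rw [hc, mul_assoc] at h1
  have h2 := congrArg (Nat.cast : ℕ → ZMod p) (mul_left_cancel₀ hp.1.ne_zero h1)
  rw [choose_pred i (by omega), Nat.cast_mul] at h2
  rw [ee, hc, Nat.mul_div_cancel_left _ hp.1.pos, pow_succ]
  have h3 : ((-1 : ZMod p) ^ i) * (-1) ^ i = 1 := by rw [← mul_pow]; simp
  linear_combination (-(1 - (-1) ^ i)) * h2 - h3

lemma Phi_one (t : ZMod p) : Phi p 1 t = ∑ i ∈ Finset.Ioo 0 p, ee p i * t ^ i := by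
  rw [Phi, ss, ss, ← Finset.sum_add_distrib]
  refine Finset.sum_congr rfl fun i _ => ?_
  rw [ee, neg_pow]
  ring

lemma ss_hom (x t : ZMod p) : ss p (x * t) x = x * ss p t 1 := by
  rw [ss, ss, Finset.mul_sum]
  refine Finset.sum_congr rfl fun i hi => ?_
  have h1 : x ^ i * x ^ (p - i) = x := by
    rw [← pow_add, Nat.add_sub_cancel' (Finset.mem_Ioo.1 hi).2.le, ZMod.pow_card]
  rw [mul_pow]
  linear_combination t ^ i * ((p.choose i / p : ℕ) : ZMod p) * h1

lemma Phi_hom (x t : ZMod p) : Phi p x (x * t) = x * Phi p 1 t := by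
  rw [Phi, Phi, ← mul_neg, ss_hom, ss_hom, mul_add]

lemma fourier (i n : ℕ) (h0 : 0 < i) (hi : i < p) (h : p - 1 ∣ i + n) :
    ∑ t : (ZMod p)ˣ, Phi p 1 (t : ZMod p) * (t : ZMod p) ^ n = -ee p i := by
  simp only [Phi_one, Finset.sum_mul, mul_assoc, ← pow_add]
  rw [Finset.sum_comm]
  simp only [← Finset.mul_sum, FiniteField.sum_pow_units, ZMod.card]
  rw [Finset.sum_eq_single i, if_pos h, mul_neg_one]
  · intro l hl hne
    rw [if_neg, mul_zero]
    intro h'
    have hl' := Finset.mem_Ioo.1 hl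
    have h1 : (l : ℤ) - i = 0 := by
      refine Int.eq_zero_of_dvd_of_natAbs_lt_natAbs (d := ((p - 1 : ℕ) : ℤ)) ?_ (by omega)
      have := dvd_sub (Int.natCast_dvd_natCast.2 h') (Int.natCast_dvd_natCast.2 h)
      simpa using this
    omega
  · intro h'
    exact absurd (Finset.mem_Ioo.2 ⟨h0, hi⟩) h'

/-- The matrix `Phi p x y` is not of rank one up to a symmetric factor. -/
theorem not_rank_one (h5 : 5 < p) (hZ : ∀ x y x' y' : ZMod p, Phi p x y = 0 →
      Phi p x y' * Phi p x' y = 0)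
    (hC : ∀ x y z : ZMod p, Phi p x y * Phi p y z * Phi p z x =
      Phi p y x * Phi p z y * Phi p x z) : False := by
  have h2 : (2 : ZMod p) ≠ 0 := by
    intro h
    have := Nat.le_of_dvd two_pos ((ZMod.natCast_eq_zero_iff 2 p).1 (by exact_mod_cast h))
    omega
  have even : ∀ i, 0 < i → i < p → Even i → (i : ZMod p) * ee p i = -2 := by
    intro i h0 hi he
    rw [mul_ee i h0 hi, he.neg_one_pow]
    norm_num
  have inj : ∀ i l, 0 < i → i < p → Even i → 0 < l → l < p → ee p l = ee p i → l = i := by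
    intro i l h0 hi he h0' hl h
    have e1 := even i h0 hi he
    have e2 : ee p i ≠ 0 := by
      intro h'
      rw [h', mul_zero] at e1
      exact h2 (by linear_combination e1)
    have l0 : (l : ZMod p) ≠ 0 := by
      rw [Ne, ZMod.natCast_eq_zero_iff]
      exact fun h' => absurd (Nat.le_of_dvd h0' h') (by omega)
    rcases Nat.even_or_odd l with h' | h'
    · have e3 := even l h0' hl h'
      rw [h, ← e1] at e3
      have := (ZMod.natCast_eq_natCast_iff' _ _ _).1 (mul_right_cancel₀ e2 e3)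
      rwa [Nat.mod_eq_of_lt hl, Nat.mod_eq_of_lt hi] at this
    · have e3 := mul_ee l h0' hl
      rw [h'.neg_one_pow, h] at e3
      exact absurd (by linear_combination e3) (mul_ne_zero l0 e2)
  have nz : ∀ t : (ZMod p)ˣ, Phi p 1 (t : ZMod p) ≠ 0 := by
    intro t ht
    have h1 : ∀ u : (ZMod p)ˣ, Phi p 1 (u : ZMod p) = 0 := by
      intro u
      have h3 := hZ 1 t (t * u⁻¹ : (ZMod p)ˣ) u ht
      have h4 := Phi_hom ((t * u⁻¹ : (ZMod p)ˣ) : ZMod p) u
      rw [← Units.val_mul, inv_mul_cancel_right] at h4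
      rw [h4] at h3
      rcases mul_eq_zero.1 h3 with h | h
      · exact h
      · exact (mul_eq_zero.1 h).resolve_left (Units.ne_zero _)
    have h3 := fourier (p := p) 2 (p - 3) two_pos (by omega) ⟨1, by omega⟩
    have h4 := even 2 two_pos (by omega) even_two
    simp only [h1, zero_mul, Finset.sum_const_zero] at h3
    exact h2 (by linear_combination h4 - (2 : ℕ) * h3)
  let χ : (ZMod p)ˣ →* (ZMod p)ˣ := MonoidHom.mk'
    (fun t => Units.mk0 _ (nz t) * (Units.mk0 _ (nz t⁻¹))⁻¹) (by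
      intro a b
      have h1 := hC 1 a (a * b : (ZMod p)ˣ)
      have e1 := Phi_hom (a : ZMod p) b
      have e2 := Phi_hom ((a * b : (ZMod p)ˣ) : ZMod p) ((a * b)⁻¹ : (ZMod p)ˣ)
      have e3 := Phi_hom (a : ZMod p) (a⁻¹ : (ZMod p)ˣ)
      have e4 := Phi_hom ((a * b : (ZMod p)ˣ) : ZMod p) (b⁻¹ : (ZMod p)ˣ)
      rw [← Units.val_mul] at e1 e2 e3 e4
      rw [mul_inv_cancel, Units.val_one] at e2 e3
      rw [mul_inv_cancel_right] at e4
      rw [e1, e2, e3, e4] at h1
      rw [mul_mul_mul_comm, ← mul_inv, mul_inv_eq_iff_eq_mul, mul_right_comm,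
        eq_mul_inv_iff_mul_eq]
      ext
      change Phi p 1 ((a * b : (ZMod p)ˣ) : ZMod p) * (Phi p 1 ((a⁻¹ : (ZMod p)ˣ) : ZMod p) *
        Phi p 1 ((b⁻¹ : (ZMod p)ˣ) : ZMod p)) = Phi p 1 (a : ZMod p) * Phi p 1 (b : ZMod p) *
        Phi p 1 (((a * b)⁻¹ : (ZMod p)ˣ) : ZMod p)
      apply mul_left_cancel₀ (mul_ne_zero a.ne_zero (a * b).ne_zero)
      linear_combination -h1)
  obtain ⟨g, hg⟩ := IsCyclic.exists_monoid_generator (α := (ZMod p)ˣ)
  obtain ⟨r, hr⟩ := hg (χ g)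
  have hχ : ∀ t : (ZMod p)ˣ, Phi p 1 (t : ZMod p) =
      (t : ZMod p) ^ r * Phi p 1 ((t⁻¹ : (ZMod p)ˣ) : ZMod p) := by
    intro t
    obtain ⟨n, rfl⟩ := hg t
    have h1 : χ (g ^ n) = (g ^ n) ^ r := by
      rw [map_pow, ← hr, ← pow_mul, ← pow_mul, mul_comm]
    have h3 := congrArg Units.val (mul_inv_eq_iff_eq_mul.1 h1)
    simpa only [Units.val_mul, Units.val_mk0, Units.val_pow_eq_pow_val] using h3
  have key : ∀ i, 0 < i → i < p → Even i → p - 1 ∣ i + (p - 2) * (r + (p - 1 - i)) := by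
    intro i h0 hi he
    set n := (p - 2) * (r + (p - 1 - i)) with hn
    have hm := Nat.mod_lt n (show 0 < p - 1 by omega)
    have hd : p - 1 ∣ (p - 1 - n % (p - 1)) + n := by
      have := Nat.mod_add_div n (p - 1)
      exact ⟨1 + n / (p - 1), by rw [mul_add]; omega⟩
    have h1 := fourier (p := p) _ n (by omega) (by omega) hd
    have h3 := fourier (p := p) i (p - 1 - i) h0 hi ⟨1, by omega⟩
    rw [← Equiv.sum_comp (Equiv.inv (ZMod p)ˣ)] at h1
    rw [← inj i _ h0 hi he (by omega) (by omega) (neg_injective (h1.symm.trans (Eq.trans ?_ h3)))]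
    · exact hd
    refine Finset.sum_congr rfl fun t _ => ?_
    have h4 : ((t⁻¹ : (ZMod p)ˣ) : ZMod p) ^ (p - 2) = t := by
      apply mul_left_cancel₀ (t⁻¹).ne_zero
      rw [← pow_succ', show p - 2 + 1 = p - 1 by omega, ZMod.pow_card_sub_one_eq_one (t⁻¹).ne_zero,
        Units.inv_mul]
    rw [hχ t, Equiv.inv_apply, hn, pow_mul, h4]
    ring
  have k2 := key 2 two_pos (by omega) even_two
  have k4 := key 4 (by norm_num) (by omega) ⟨2, rfl⟩
  obtain ⟨q, rfl⟩ : ∃ q, p = q + 6 := ⟨p - 6, by omega⟩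
  rw [show q + 6 - 1 = q + 5 by omega, show q + 6 - 2 = q + 4 by omega] at k2 k4
  rw [show q + 5 - 2 = q + 3 by omega] at k2
  rw [show q + 5 - 4 = q + 1 by omega] at k4
  have h6 : q + 5 ∣ 4 := by
    have h7 := dvd_add k4 (dvd_mul_right (q + 5) 2)
    rw [show 4 + (q + 4) * (r + (q + 1)) + (q + 5) * 2 = 2 + (q + 4) * (r + (q + 3)) + 4 by ring]
      at h7
    exact (Nat.dvd_add_right k2).1 h7
  exact absurd (Nat.le_of_dvd (by norm_num) h6) (by omega)

end Pool.Agent.Lib.MP_3ef01f_nt
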