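import Mathlib

set_option autoImplicit false

namespace Pool.Agent.Lib.MP_3ef01f_nt

open Polynomial

variable {A : Type*} [CommRing A]

/-- The polynomial `P` in the shift by `L`, applied to the sequence `s` and evaluated at `n`. -/
noncomputable def sh (s : ℕ → A) (L n : ℕ) : A[X] →ₗ[A] A :=
  Polynomial.lsum fun i => LinearMap.toSpanSingleton A A (s (n + L * i))

variable (s : ℕ → A) (L n : ℕ)

lemma sh_monomial (i : ℕ) (a : A) : sh s L n (monomial i a) = a * s (n + L * i) := by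
  rw [sh, lsum_apply, sum_monomial_index] <;> simp

lemma sh_X_pow (i : ℕ) : sh s L n (X ^ i) = s (n + L * i) := by
  rw [← monomial_one_right_eq_X_pow, sh_monomial, one_mul]

lemma sh_one : sh s L n 1 = s n := by simpa using sh_X_pow s L n 0

lemma sh_C_mul (a : A) (P : A[X]) : sh s L n (C a * P) = a * sh s L n P := by
  rw [← smul_eq_C_mul, map_smul, smul_eq_mul]

lemma sh_X_mul (P : A[X]) : sh s L n (X * P) = sh s L (n + L) P := by
  induction P using Polynomial.induction_on' with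
  | add p q hp hq => rw [mul_add, map_add, map_add, hp, hq]
  | monomial i a =>
    rw [X_mul_monomial, sh_monomial, sh_monomial, show n + L * (i + 1) = n + L + L * i by ring]

lemma sh_succ (w : A) (i : ℕ) : sh s L n ((X - C w) ^ (i + 1)) =
    sh s L (n + L) ((X - C w) ^ i) + (-w) * sh s L n ((X - C w) ^ i) := by
  rw [pow_succ', sub_mul, map_sub, sh_X_mul, sh_C_mul]
  ring

/-- The polynomials which send `s` to a sequence divisible by `q` from `n0` on. -/
def JJ (n0 : ℕ) (q : A) : Ideal A[X] where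
  carrier := {P | ∀ n, n0 ≤ n → q ∣ sh s L n P}
  zero_mem' := fun n _ => by simp
  add_mem' := fun {P Q} hP hQ n hn => by
    rw [map_add]
    exact dvd_add (hP n hn) (hQ n hn)
  smul_mem' := fun Q P hP => by
    induction Q using Polynomial.induction_on with
    | C a =>
      intro n hn
      rw [smul_eq_mul, sh_C_mul]
      exact (hP n hn).mul_left _
    | add p q hp hq =>
      intro n hn
      rw [add_smul, map_add]
      exact dvd_add (hp n hn) (hq n hn)
    | monomial i a ih =>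
      intro n hn
      rw [smul_eq_mul, show C a * X ^ (i + 1) * P = X * (C a * X ^ i * P) by ring, sh_X_mul]
      exact ih (n + L) (by omega)

/-- The ideal generated by `q` and `X - w`. -/
noncomputable def II (q w : A) : Ideal A[X] := Ideal.span {C q} + Ideal.span {X - C w}

lemma II_C (q w : A) : C q ∈ II q w := Ideal.mem_sup_left (Ideal.mem_span_singleton_self _)

lemma II_X (q w : A) : X - C w ∈ II q w := Ideal.mem_sup_right (Ideal.mem_span_singleton_self _)

lemma II_of_dvd {q w a : A} (h : q ∣ a) : C a ∈ II q w := by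
  obtain ⟨b, rfl⟩ := h
  rw [map_mul]
  exact Ideal.mul_mem_right _ _ (II_C q w)

lemma II_pow_le {s : ℕ → A} {L n0 r : ℕ} {q w : A}
    (h : ∀ i ≤ r, ∀ n, n0 ≤ n → q ^ i ∣ sh s L n ((X - C w) ^ i)) :
    II q w ^ r ≤ JJ s L n0 (q ^ r) := by
  rw [II, add_comm, add_pow]
  refine Finset.sum_induction _ (fun K => K ≤ JJ s L n0 (q ^ r)) (fun a b ha hb => sup_le ha hb)
    bot_le fun i hi => ?_
  have hi' : i ≤ r := Nat.lt_succ_iff.1 (Finset.mem_range.1 hi)
  refine Ideal.mul_le_left.trans ?_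
  rw [Ideal.span_singleton_pow, Ideal.span_singleton_pow, Ideal.span_singleton_mul_span_singleton,
    Ideal.span_singleton_le_iff_mem]
  intro n hn
  rw [mul_comm, ← C_pow, sh_C_mul]
  nth_rewrite 1 [show r = (r - i) + i by omega]
  rw [pow_add]
  exact mul_dvd_mul_left _ (h i hi' n hn)

lemma sh_change {s : ℕ → A} {L n0 r : ℕ} {q w w' : A} (hw : q ∣ w - w')
    (h : ∀ i ≤ r, ∀ n, n0 ≤ n → q ^ i ∣ sh s L n ((X - C w) ^ i)) (n : ℕ) (hn : n0 ≤ n) :
    q ^ r ∣ sh s L n ((X - C w') ^ r) := by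
  refine II_pow_le h (Ideal.pow_mem_pow ?_ r) n hn
  rw [show X - C w' = (X - C w) + C (w - w') by rw [map_sub]; ring]
  exact add_mem (II_X q w) (II_of_dvd hw)

lemma sh_twist {u g : ℕ → A} {z b zi : A} (w : A) (hu : ∀ m, u m = z ^ m * b * g m)
    (hz : z ^ L * zi = 1) (i : ℕ) : ∀ n, sh u L n ((X - C w) ^ i) =
      z ^ n * b * (z ^ L) ^ i * sh g L n ((X - C (w * zi)) ^ i) := by
  induction i with
  | zero => intro n; simp [sh_one, hu]
  | succ i ih =>
    intro n
    rw [sh_succ, sh_succ, ih, ih]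
    linear_combination (w * z ^ n * b * (z ^ L) ^ i * sh g L n ((X - C (w * zi)) ^ i)) * hz

section ideal
variable {B : Type*} [CommRing B] {I : Ideal B} {p : ℕ}

lemma pow_sub_pow_mem (hp : (p : B) ∈ I) {u v : B} {k : ℕ} (h : u - v ∈ I ^ (k + 1)) :
    u ^ p - v ^ p ∈ I ^ (k + 2) := by
  obtain ⟨c, hc⟩ := sq_dvd_add_pow_sub_sub (u - v) v p
  have h1 : (u - v) ^ 2 ∈ I ^ (k + 2) :=
    Ideal.pow_le_pow_right (show k + 2 ≤ (k + 1) * 2 by omega)
      (by simpa only [← pow_mul] using Ideal.pow_mem_pow h 2)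
  have h2 : (u - v) * p ∈ I ^ (k + 2) := by
    rw [pow_succ I (k + 1)]
    exact Ideal.mul_mem_mul h hp
  rw [show u ^ p - v ^ p = (u - v) ^ 2 * c + v ^ (p - 1) * ((u - v) * p) by
    rw [← hc, add_sub_cancel]; ring]
  exact add_mem (Ideal.mul_mem_right _ _ h1) (Ideal.mul_mem_left _ _ h2)

lemma pow_pow_sub_mem (hp : (p : B) ∈ I) {u v : B} (h : u - v ∈ I) (k : ℕ) :
    u ^ p ^ k - v ^ p ^ k ∈ I ^ (k + 1) := by
  induction k with
  | zero => simpa using h
  | succ k ih =>
    rw [pow_succ p k, pow_mul, pow_mul]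
    exact pow_sub_pow_mem hp ih

lemma one_add_pow_prime (hpp : p.Prime) (h3 : 3 ≤ p) (t : B) :
    ∃ a b : B, (1 + t) ^ p = 1 + p * t + p * t ^ 2 * a + t ^ 3 * b := by
  obtain ⟨m, rfl⟩ : ∃ m, p = 2 * m + 1 := (hpp.odd_of_ne_two (by omega))
  have key : ∀ n : ℕ, ∃ b : B, (1 + t) ^ n = 1 + n * t + (n.choose 2 : ℕ) * t ^ 2 + t ^ 3 * b := by
    intro n
    induction n with
    | zero => exact ⟨0, by simp⟩
    | succ n ih =>
      obtain ⟨b, hb⟩ := ih
      refine ⟨b + (n.choose 2 : ℕ) + t * b, ?_⟩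
      rw [pow_succ, hb, Nat.choose_succ_succ' n 1, Nat.choose_one_right]
      push_cast
      ring
  obtain ⟨b, hb⟩ := key (2 * m + 1)
  refine ⟨m, b, ?_⟩
  rw [hb, Nat.choose_two_right, Nat.add_sub_cancel,
    show (2 * m + 1) * (2 * m) = 2 * ((2 * m + 1) * m) by ring,
    Nat.mul_div_cancel_left _ two_pos]
  push_cast
  ring

lemma second_order (hpp : p.Prime) (h3 : 3 ≤ p) (hp : (p : B) ∈ I) {z : B} (hz : z ∈ I) (k : ℕ) :
    (1 + z) ^ p ^ k - (1 + p ^ k * z) ∈ I ^ (k + 2) := by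
  induction k with
  | zero => simp
  | succ k ih =>
    have h1 := pow_sub_pow_mem hp ih
    obtain ⟨a, b, hab⟩ := one_add_pow_prime hpp h3 ((p : B) ^ k * z)
    have ht : (p : B) ^ k * z ∈ I ^ (k + 1) := by
      rw [pow_succ I k]
      exact Ideal.mul_mem_mul (Ideal.pow_mem_pow hp k) hz
    have h2 : (p : B) * (p ^ k * z) ^ 2 ∈ I ^ (k + 1 + 2) := by
      refine Ideal.pow_le_pow_right (show k + 1 + 2 ≤ (k + 1) * 2 + 1 by omega) ?_
      rw [pow_succ' I, pow_mul]
      exact Ideal.mul_mem_mul hp (Ideal.pow_mem_pow ht 2)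
    have h4 : ((p : B) ^ k * z) ^ 3 ∈ I ^ (k + 1 + 2) := by
      refine Ideal.pow_le_pow_right (show k + 1 + 2 ≤ (k + 1) * 3 by omega) ?_
      rw [pow_mul]
      exact Ideal.pow_mem_pow ht 3
    rw [← pow_mul, ← pow_succ, hab] at h1
    have h5 := add_mem (add_mem h1 (Ideal.mul_mem_right a _ h2)) (Ideal.mul_mem_right b _ h4)
    rwa [show ∀ x : B, x - (1 + p * (p ^ k * z) + p * (p ^ k * z) ^ 2 * a + (p ^ k * z) ^ 3 * b) +
      p * (p ^ k * z) ^ 2 * a + (p ^ k * z) ^ 3 * b = x - (1 + p ^ (k + 1) * z) from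
      fun x => by ring] at h5

end ideal

end Pool.Agent.Lib.MP_3ef01f_nt
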