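import Mathlib
import Pool.Agent.Lib.MP_3ef01f_nt.XSum

set_option autoImplicit false

namespace Pool.Agent.Lib.MP_3ef01f_nt

open PowerSeries

variable {R : Type*} [CommRing R]

/-- The differential system follows from the duplication formulas. -/
theorem Th_of_dup (h : R) (hh : 2 * h = 1) (a s f : R⟦X⟧) (ha0 : constantCoeff a = 1)
    (hs0 : constantCoeff s = 1) (hf0 : constantCoeff f = 1) (ha : a = ex a + 4 * X * ex s)
    (hs : s ^ 2 = ex a * ex s) (hf : f ^ 2 = a) : ∃ T : Th R, T.h = h ∧ T.f = f ∧ T.a = a := by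
  have hC : (2 : R⟦X⟧) * C h = 1 := by
    rw [show (2 : R⟦X⟧) = C 2 from (map_ofNat C 2).symm, ← map_mul, hh, map_one]
  have ua : IsUnit a := isUnit_iff_constantCoeff.2 (by simp [ha0])
  have us : IsUnit s := isUnit_iff_constantCoeff.2 (by simp [hs0])
  have uf : IsUnit f := isUnit_iff_constantCoeff.2 (by simp [hf0])
  have u2 : IsUnit (2 : R⟦X⟧) := IsUnit.of_mul_eq_one _ hC
  obtain ⟨ai, hai⟩ := ua.exists_right_inv
  obtain ⟨si, hsi⟩ := us.exists_right_inv
  obtain ⟨al, hal⟩ : ∃ al, al = th a * ai := ⟨_, rfl⟩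
  obtain ⟨sg, hsg⟩ : ∃ sg, sg = th s * si := ⟨_, rfl⟩
  have ta : th a = al * a := by rw [hal]; linear_combination (-th a) * hai
  have ts : th s = sg * s := by rw [hsg]; linear_combination (-th s) * hsi
  have al0 : constantCoeff al = 0 := by rw [hal, map_mul, const_th, zero_mul]
  have sg0 : constantCoeff sg = 0 := by rw [hsg, map_mul, const_th, zero_mul]
  have tA : th (ex a) = 2 * ex al * ex a := by rw [th_ex, ta, map_mul]; ring
  have tS : th (ex s) = 2 * ex sg * ex s := by rw [th_ex, ts, map_mul]; ring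
  have t4 : th (4 : R⟦X⟧) = 0 := th_ofNat 4
  have t2 : th (2 : R⟦X⟧) = 0 := th_ofNat 2
  have t16 : th (16 : R⟦X⟧) = 0 := th_ofNat 16
  have hsg2 : sg = ex al + ex sg := by
    have h1 := congrArg th hs
    rw [sq, Derivation.leibniz, Derivation.leibniz, tA, tS, ts] at h1
    simp only [smul_eq_mul] at h1
    apply (u2.mul (us.pow 2)).mul_left_cancel
    linear_combination h1 - 2 * (ex al + ex sg) * hs
  have tB : th (4 * X * ex s) = 4 * X * ex s * (1 + 2 * ex sg) := by
    simp only [Derivation.leibniz, smul_eq_mul, t4, th_X, tS]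
    ring
  have hal2 : al * a = 2 * ex al * ex a + 4 * X * ex s * (1 + 2 * ex sg) := by
    have h1 := congrArg th ha
    rwa [map_add, tA, tB, ta] at h1
  obtain ⟨b, hb⟩ : ∃ b, b = ex a - 4 * X * ex s := ⟨_, rfl⟩
  have hb2 : b ^ 2 = a ^ 2 - 16 * X * s ^ 2 := by
    rw [hb, hs]
    linear_combination (-(a + ex a + 4 * X * ex s)) * ha
  have heb : ex b ^ 2 = a * b := by
    have h1 := congrArg ex hb2
    simp only [map_pow, map_sub, map_mul, map_ofNat, ex_X] at h1
    rw [h1, hb]
    linear_combination (-(ex a - 4 * X * ex s)) * ha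
  have b0 : constantCoeff b = 1 := by simp [hb, ha0]
  have E2 : 1 + 2 * sg - 2 * al - b ^ 2 = 0 := by
    refine eq_zero_of_ex (b := b) ua (by simp [al0, sg0, b0]) ?_
    simp only [map_pow, map_sub, map_mul, map_ofNat, map_add, map_one, heb]
    linear_combination (2 * a) * hsg2 - 2 * hal2 + (1 + 2 * ex al + 2 * ex sg) * ha
      - (1 + 2 * ex sg - 2 * ex al) * hb
  have E3 : 1 + 2 * ex sg - 2 * ex al - a * b = 0 := by
    have h1 := congrArg ex E2
    simpa only [map_pow, map_sub, map_mul, map_ofNat, map_add, map_one, heb, map_zero] using h1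
  obtain ⟨lam, hlam⟩ : ∃ lam, lam = X * (16 * s ^ 2 * ai ^ 2) := ⟨_, rfl⟩
  have hl : lam * a ^ 2 = 16 * X * s ^ 2 := by
    rw [hlam]; linear_combination 16 * X * s ^ 2 * (a * ai + 1) * hai
  have tl : th lam = lam * (1 - lam) * a ^ 2 := by
    have h1 := congrArg th hl
    simp only [sq, Derivation.leibniz, smul_eq_mul, t16, th_X, ta, ts] at h1
    apply (ua.pow 2).mul_left_cancel
    linear_combination h1 + (-(1 + 2 * sg) + lam * a ^ 2) * hl + lam * a ^ 2 * E2 +
      lam * a ^ 2 * hb2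
  have hal3 : al = 2 * ex al + b * (4 * X * ex s) := by
    apply u2.mul_left_cancel
    linear_combination -E2 + 2 * hsg2 + E3 + b * ha - b * hb
  have tb : th b = 2 * ex al * ex a - 4 * X * ex s * (1 + 2 * ex sg) := by
    rw [hb, map_sub, tA, tB]
  have G0 : th al - al ^ 2 - 4 * X * s ^ 2 * b ^ 2 = 0 := by
    refine eq_zero_of_ex (a := 1) (b := 4) isUnit_one (by simp [al0, const_th]) ?_
    have h1 := congrArg th hal3
    rw [map_add, Derivation.leibniz, Derivation.leibniz, t2, tB, tb, th_ex] at h1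
    simp only [smul_eq_mul] at h1
    simp only [map_pow, map_sub, map_mul, map_ofNat, heb, ex_X]
    have e1 : 1 + 2 * ex sg = 2 * ex al + a * b := by linear_combination E3
    rw [e1] at h1
    have e2 : ex a = b + 4 * X * ex s := by linear_combination -hb
    have e3 : a = b + 8 * X * ex s := by linear_combination ha - hb
    generalize ex (th al) = q at h1 ⊢
    generalize ex al = p at h1 hal3 ⊢
    rw [h1, hs, hal3, e2]
    generalize ex s = S at e3 ⊢
    rw [e3]
    ring
  refine ⟨⟨h, a, f, lam, al, ai, _, hh, ha0, uf, hai, hlam, ?_, tl, ta, ?_, ?_⟩, rfl, rfl, rfl⟩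
  · refine IsUnit.mul (IsUnit.mul ?_ (us.pow 2)) ((IsUnit.of_mul_eq_one_right _ hai).pow 2)
    have := u2.pow 4
    norm_num at this
    exact this
  · have h1 := congrArg th hf
    rw [sq, Derivation.leibniz, ta] at h1
    simp only [smul_eq_mul] at h1
    apply uf.mul_left_cancel
    linear_combination h1 - al * hf
  · linear_combination 4 * G0 + 16 * X * s ^ 2 * hb2 + (lam * a ^ 2 + 16 * X * s ^ 2 - a ^ 2) * hl

/-- The lacunary theta series satisfies the differential system. -/
theorem exists_Th (h : R) (hh : 2 * h = 1) :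
    ∃ T : Th R, T.h = h ∧ T.f = Tw (fun _ => 1) ∧ T.a = T.f ^ 2 := by
  have hC : (2 : R⟦X⟧) * C h = 1 := by
    rw [show (2 : R⟦X⟧) = C 2 from (map_ofNat C 2).symm, ← map_mul, hh, map_one]
  have hx : ex (C h) = C h := expand_C _ _ _
  obtain ⟨T, h1, h2, h3⟩ := Th_of_dup h hh ((Tw fun _ => (1 : R)) ^ 2) (C h ^ 2 * psi ^ 2)
    (Tw fun _ => 1) (by rw [map_pow, theta_zero, one_pow])
    (by
      rw [map_mul, map_pow, map_pow, psi_zero, constantCoeff_C]
      linear_combination (2 * h + 1) * hh) theta_zero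
    (by
      rw [map_mul, map_pow ex (C h), hx]
      linear_combination theta_sq (R := R) - X * ex (psi ^ 2) * (2 * C h + 1) * hC)
    (by
      rw [map_mul, map_pow ex (C h), hx, map_pow, map_pow, psi_sq]
      linear_combination C h ^ 2 * ex (Tw fun _ => (1 : R)) ^ 2 * ex psi ^ 2 * (2 * C h + 1) * hC)
    rfl
  exact ⟨T, h1, h2, by rw [h3, h2]⟩

end Pool.Agent.Lib.MP_3ef01f_nt
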