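import Mathlib
import Pool.Agent.Lib.MP_3ef01f_nt.XTheta
import Pool.Agent.Lib.MP_3ef01f_nt.XShift

set_option autoImplicit false

namespace Pool.Agent.Lib.MP_3ef01f_nt

open PowerSeries

namespace Th

section
variable {R : Type*} [CommRing R] (T : Th R)

/-- The universal polynomials evaluated at the theta data. -/
noncomputable def gs (m : ℕ) : R⟦X⟧ :=
  MvPolynomial.aeval ![C T.h - T.lam, -4 * T.al * T.ai ^ 2] (g m)

/-- The Legendre polynomial in `lam`. -/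
noncomputable def HH (M : ℕ) : R⟦X⟧ := Polynomial.aeval T.lam (Polynomial.shiftedLegendre M)

/-- The Legendre polynomial at one half. -/
noncomputable def H0 (M : ℕ) : R := Polynomial.aeval T.h (Polynomial.shiftedLegendre M)

lemma E1_iter (n : ℕ) : E1^[n] T.f = (C (-T.h ^ 2) * T.a ^ 2) ^ n * T.f * T.gs n := by
  have hC := T.hC
  set t : R⟦X⟧ := C T.h - T.lam with ht
  set y : R⟦X⟧ := -4 * T.al * T.ai ^ 2 with hy
  set k : R⟦X⟧ := C (-T.h ^ 2) with hk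
  have hk' : k = -C T.h ^ 2 := by simp [hk]
  have hk4 : 4 * k = -1 := by rw [hk']; linear_combination (-(2 * C T.h + 1)) * hC
  have hya : y * T.a ^ 2 = -4 * T.al := by
    rw [hy]; linear_combination (-4 * T.al * (T.a * T.ai + 1)) * T.hai
  have ht2 : 1 - 4 * t ^ 2 = 4 * (T.lam * (1 - T.lam)) := by
    rw [ht]; linear_combination (4 * T.lam - (2 * C T.h + 1)) * hC
  have thC : ∀ c : R, th (C c) = 0 := fun c => by rw [th_apply, derivative_C, mul_zero]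
  have key := iter E1 t y T.a T.f k (by rw [E1_apply, hk, thC, mul_zero]) ?_ ?_ ?_ ?_ n
  · rw [key, gs, mul_pow, ← pow_mul]
    ring
  · rw [E1_apply, ht2, ht, map_sub, thC, T.tl]
    linear_combination (-2 * T.a ^ 2 * (T.lam * (1 - T.lam))) * hk4
  · have h1 := congrArg th hya
    have t4 : th (-4 : R⟦X⟧) = 0 := by rw [map_neg, th_ofNat 4, neg_zero]
    rw [sq, Derivation.leibniz _ y, Derivation.leibniz _ T.a, Derivation.leibniz _ (-4), T.ta,
      t4] at h1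
    simp only [smul_eq_mul] at h1
    rw [E1_apply, ht2]
    apply (T.ua.pow 2).mul_left_cancel
    linear_combination 2 * h1 - 2 * T.tal +
      (-2 * T.a ^ 4 * (T.lam * (1 - T.lam)) + 8 * T.al ^ 2) * hk4 +
      (-4 * T.al + 2 * k * (y * T.a ^ 2 - 4 * T.al)) * hya
  · rw [E1_apply, T.ta]
    linear_combination (-2 * k * T.a) * hya + 2 * T.al * T.a * hk4
  · rw [E1_apply, T.tf]
    linear_combination (-k * T.f) * hya + T.al * T.f * hk4

lemma z_inv : C (-T.h ^ 2) * T.a ^ 2 * (-4 * T.ai ^ 2) = 1 := by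
  have hC := T.hC
  rw [map_neg, map_pow]
  linear_combination (2 * C T.h + 1) * (T.a * T.ai) ^ 2 * hC + (T.a * T.ai + 1) * T.hai

end

variable {p : ℕ} [hp : Fact p.Prime] (T : Th ℤ_[p])

lemma rel_gs {j : ℕ} (hj : p = 4 * j + 1) (s m : ℕ) :
    Rel ((p : ℤ_[p]) ^ s) T.h T.lam (T.gs m) (G0 m) := by
  have hC := T.hC
  have rt : Rel ((p : ℤ_[p]) ^ s) T.h T.lam (C T.h - T.lam) 0 := by
    refine ⟨1 - 2 * Polynomial.X, 2, ?_, ⟨0, ?_⟩, ⟨0, ?_⟩⟩
    · simpa [map_ofNat] using IsUnit.of_mul_eq_one _ T.hh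
    · simp only [map_ofNat, map_sub, map_one, map_mul, Polynomial.aeval_X]
      linear_combination hC
    · simp only [map_ofNat, map_sub, map_one, map_mul, Polynomial.aeval_X]
      linear_combination T.hh
  have ry : Rel ((p : ℤ_[p]) ^ s) T.h T.lam (-4 * T.al * T.ai ^ 2) 0 := by
    refine ⟨-4 * ((Polynomial.X - Polynomial.X ^ 2) *
      Polynomial.derivative (Polynomial.shiftedLegendre (MM p (2 * j) s))),
      Polynomial.shiftedLegendre (MM p (2 * j) s), T.unit_half hj _, ?_, ?_⟩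
    · obtain ⟨c, hc⟩ := (T.dvd_th_uu _ s (MM_spec (m := 2 * j) (by omega) _)).mul_left (4 * T.ai)
      rw [T.th_uu, Th.uu] at hc
      refine ⟨c, ?_⟩
      rw [← hc, map_mul _ (-4), map_neg, map_ofNat]
      linear_combination (-4 * Polynomial.aeval T.lam ((Polynomial.X - Polynomial.X ^ 2) *
        Polynomial.derivative (Polynomial.shiftedLegendre (MM p (2 * j) s)))) * T.hai
    · have h6 := leg_deriv_half T.h T.hh _ (MM_even (p := p) (even_two_mul j) s)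
      simp only [map_mul, h6, mul_zero, sub_zero, dvd_zero]
  have := Rel.mv rt ry (g m)
  rwa [aeval_zero_g] at this

lemma dwork' {j : ℕ} (hj : p = 4 * j + 1) :
    ∃ b, T.HH (2 * j) * T.a ^ (4 * j) = 1 + C (p : ℤ_[p]) * b := by
  obtain ⟨b, hb⟩ := T.dwork (m := 2 * j) (by omega)
  refine ⟨b, ?_⟩
  rw [show p - 1 = 4 * j by omega] at hb
  rw [map_natCast, ← hb, HH]
  ring

end Th

variable {p : ℕ} [hp : Fact p.Prime]

lemma sh_theta {R : Type*} [CommRing R] (L : ℕ) (w : R) (i : ℕ) : ∀ n,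
    sh (fun m => E1^[m] (Tw fun _ => (1 : R))) L n ((Polynomial.X - Polynomial.C (C w)) ^ i) =
      Tw fun k => (2 * (k : R) ^ 2) ^ n * ((2 * (k : R) ^ 2) ^ L - w) ^ i := by
  induction i with
  | zero =>
    intro n
    rw [pow_zero, sh_one, Tw, Sm_E1 ad3, Tw]
    simp
  | succ i ih =>
    intro n
    rw [sh_succ, ih, ih, ← map_neg, Tw, Tw, ← Sm_C_mul ad3, ← Sm_add ad3, Tw]
    congr 1
    funext k
    ring

lemma theta_coeff_dvd {j : ℕ} (hj : p = 4 * j + 1) (k : ℤ_[p]) (i n : ℕ) (hn : i ≤ 2 * n) :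
    (p : ℤ_[p]) ^ i ∣ (2 * k ^ 2) ^ n * ((2 * k ^ 2) ^ (2 * j) - 4 ^ j) ^ i := by
  by_cases h : (p : ℤ_[p]) ∣ k
  · refine Dvd.dvd.mul_right ?_ _
    rw [mul_pow, ← pow_mul]
    exact ((pow_dvd_pow _ hn).trans (pow_dvd_pow_of_dvd h _)).mul_left _
  · refine (pow_dvd_pow_of_dvd ?_ i).mul_left _
    have := fermat (isUnit_of_not_dvd h) 0 1
    rw [show p - 1 = 4 * j by omega] at this
    simp only [zero_add, pow_one, pow_zero, mul_one, one_mul] at this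
    rw [show (2 * k ^ 2) ^ (2 * j) - 4 ^ j = 4 ^ j * (k ^ (4 * j) - 1) by
      rw [mul_pow, pow_mul, ← pow_mul k, show 2 * (2 * j) = 4 * j by ring]; norm_num; ring]
    exact this.mul_left _

lemma Rel.sh {R : Type*} [CommRing R] {q h : R} {lam : R⟦X⟧} {s : ℕ → R⟦X⟧} {s' : ℕ → R}
    (hs : ∀ m, Rel q h lam (s m) (s' m)) {w : R⟦X⟧} {w' : R} (hw : Rel q h lam (-w) (-w'))
    (L i : ℕ) : ∀ n, Rel q h lam (sh s L n ((Polynomial.X - Polynomial.C w) ^ i))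
      (sh s' L n ((Polynomial.X - Polynomial.C w') ^ i)) := by
  induction i with
  | zero => intro n; simpa only [pow_zero, sh_one] using hs n
  | succ i ih =>
    intro n
    rw [sh_succ, sh_succ]
    exact (ih _).add (hw.mul (ih _))

/-- Kummer congruences for the series `gs`. -/
lemma Th.kummer_gs (T : Th ℤ_[p]) (hf : T.f = Tw fun _ => 1) {j : ℕ} (hj : p = 4 * j + 1)
    (r n : ℕ) (hn : r ≤ 2 * n) : C (p : ℤ_[p]) ^ r ∣
      sh T.gs (2 * j) n ((Polynomial.X - Polynomial.C (64 ^ j * T.HH (2 * j))) ^ r) := by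
  have hz : (C (-T.h ^ 2) * T.a ^ 2) ^ (2 * j) * (-4 * T.ai ^ 2) ^ (2 * j) = 1 := by
    rw [← mul_pow, T.z_inv, one_pow]
  have uz : IsUnit (C (-T.h ^ 2) * T.a ^ 2) := IsUnit.of_mul_eq_one _ T.z_inv
  refine sh_change (w := C (4 ^ j) * (-4 * T.ai ^ 2) ^ (2 * j)) (n0 := n) ?_ ?_ n le_rfl
  · obtain ⟨b, hb⟩ := T.dwork' hj
    refine ⟨-(64 ^ j * T.ai ^ (4 * j) * b), ?_⟩
    have h1 : T.a ^ (4 * j) * T.ai ^ (4 * j) = 1 := by rw [← mul_pow, T.hai, one_pow]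
    have h2 : C ((4 : ℤ_[p]) ^ j) * (-4 * T.ai ^ 2) ^ (2 * j) = 64 ^ j * T.ai ^ (4 * j) := by
      rw [map_pow, map_ofNat, mul_pow, pow_mul (-4), ← pow_mul T.ai, ← mul_assoc, ← mul_pow,
        show 2 * (2 * j) = 4 * j by ring]
      norm_num
    rw [h2]
    linear_combination (-(64 ^ j * T.ai ^ (4 * j))) * hb + 64 ^ j * T.HH (2 * j) * h1
  · intro i hi m hm
    have h1 := sh_twist (2 * j) (C ((4 : ℤ_[p]) ^ j)) T.E1_iter hz i m
    rw [← (((uz.pow m).mul T.uf).mul ((uz.pow (2 * j)).pow i)).dvd_mul_left, ← h1, hf, sh_theta,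
      ← map_pow]
    exact Sm_dvd ad3 _ _ fun k => theta_coeff_dvd hj _ i m (by omega)

lemma Th.rel_W (T : Th ℤ_[p]) (q : ℤ_[p]) (j : ℕ) :
    Rel q T.h T.lam (-(64 ^ j * T.HH (2 * j))) (-(64 ^ j * T.H0 (2 * j))) := by
  have := Rel.poly (q := q) (h := T.h) (lam := T.lam)
    (-(64 ^ j * Polynomial.shiftedLegendre (2 * j)))
  simpa only [map_neg, map_mul, map_pow, map_ofNat, Th.HH, Th.H0] using this

lemma Th.rel_zero (T : Th ℤ_[p]) {q : ℤ_[p]} {x : ℤ_[p]⟦X⟧} {z : ℤ_[p]}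
    (h : Rel q T.h T.lam x z) (hx : C q ∣ x) : q ∣ z := by
  have h0 : Rel q T.h T.lam 0 0 := by simpa using Rel.poly (q := q) (h := T.h) (lam := T.lam) 0
  simpa using Rel.unique T.hl T.uw h h0 (by simpa using hx)

/-- Kummer congruences for the numbers `G0`. -/
lemma Th.kummer_G0 (T : Th ℤ_[p]) (hf : T.f = Tw fun _ => 1) {j : ℕ} (hj : p = 4 * j + 1)
    (r n : ℕ) (hn : r ≤ 2 * n) : (p : ℤ_[p]) ^ r ∣ sh (fun m => (G0 m : ℤ_[p])) (2 * j) n
      ((Polynomial.X - Polynomial.C (64 ^ j * T.H0 (2 * j))) ^ r) :=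
  T.rel_zero (Rel.sh (T.rel_gs hj r) (T.rel_W _ j) (2 * j) r n)
    (by rw [map_pow]; exact T.kummer_gs hf hj r n hn)

/-- Kummer congruences for a sequence `D` with `G0 (2 n) = 2 ^ n * D n`. -/
lemma Th.kummer (T : Th ℤ_[p]) (hf : T.f = Tw fun _ => 1) {j : ℕ} (hj : p = 4 * j + 1)
    {D : ℕ → ℤ_[p]} (hD : ∀ n, (G0 (2 * n) : ℤ_[p]) = 2 ^ n * D n) (r n : ℕ) (hn : r ≤ 4 * n) :
    (p : ℤ_[p]) ^ r ∣ sh D j n ((Polynomial.X - Polynomial.C (32 ^ j * T.H0 (2 * j))) ^ r) := by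
  have h1 := T.kummer_G0 hf hj r (2 * n) (by omega)
  have h2 : sh (fun m => (G0 m : ℤ_[p])) (2 * j) (2 * n) =
      sh (fun m => (G0 (2 * m) : ℤ_[p])) j n := by
    simp only [sh, mul_add, mul_assoc]
  have h3 : (2 : ℤ_[p]) ^ j * T.h ^ j = 1 := by rw [← mul_pow, T.hh, one_pow]
  have u2 : IsUnit (2 : ℤ_[p]) := IsUnit.of_mul_eq_one _ T.hh
  rw [h2, sh_twist j (u := fun m => (G0 (2 * m) : ℤ_[p])) (g := D) (z := 2) (b := 1) _
    (fun m => by rw [hD, mul_one]) h3,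
    (((u2.pow n).mul isUnit_one).mul ((u2.pow j).pow r)).dvd_mul_left] at h1
  have h4 : (64 : ℤ_[p]) ^ j * T.H0 (2 * j) * T.h ^ j = 32 ^ j * T.H0 (2 * j) := by
    rw [show (64 : ℤ_[p]) = 32 * 2 by norm_num, mul_pow]
    linear_combination 32 ^ j * T.H0 (2 * j) * h3
  rwa [h4] at h1

end Pool.Agent.Lib.MP_3ef01f_nt
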