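import Mathlib
import Pool.Agent.Lib.MP_3ef01f_nt.Rel

set_option autoImplicit false

namespace Pool.Agent.Lib.MP_3ef01f_nt

/-- A place of a ring `S` with values in a field `k`, given by its graph. -/
structure Place (S k : Type) [CommRing S] [Field k] where
  Ev : S → k → Prop
  one : Ev 1 1
  add : ∀ {x y : S} {a b : k}, Ev x a → Ev y b → Ev (x + y) (a + b)
  mul : ∀ {x y : S} {a b : k}, Ev x a → Ev y b → Ev (x * y) (a * b)
  neg : ∀ {x : S} {a : k}, Ev x a → Ev (-x) (-a)
  unique : ∀ {x : S} {a b : k}, Ev x a → Ev x b → a = b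
  root : ∀ {x : S} {a : k} {n : ℕ}, n ≠ 0 → Ev (x ^ n) a → ∃ b, Ev x b
  div : ∀ {x y : S} {a b : k}, a ≠ 0 → Ev x a → Ev (x * y) b → ∃ c, Ev y c

theorem exists_place (S : Type) [CommRing S] [IsDomain S] [Algebra ℤ S] (lam : S) (h : ℤ)
    (H : ∀ P : Polynomial ℤ, Polynomial.aeval lam P * (lam - h) ≠ 1) :
    ∃ (k : Type) (_ : Field k) (P : Place S k), P.Ev lam h := by
  let K := FractionRing S
  let ι := algebraMap S K
  let A : Subring K := (Polynomial.aeval (R := ℤ) (ι lam)).toRingHom.range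
  have hA : ι lam - h ∈ A := ⟨Polynomial.X - Polynomial.C h, by simp⟩
  obtain ⟨V, -, hV⟩ := Ideal.image_subset_nonunits_valuationSubring
    (Ideal.span {(⟨_, hA⟩ : A)}) (by
      rw [Ne, Ideal.span_singleton_eq_top, isUnit_iff_exists_inv']
      rintro ⟨⟨_, P, rfl⟩, hP⟩
      apply H P
      apply IsFractionRing.injective S K
      have h1 := congrArg Subtype.val hP
      rw [map_mul, map_one, map_sub, map_intCast, map_aeval_int]
      exact h1)
  have hm : ι lam - h ∈ V.nonunits := hV ⟨_, Ideal.mem_span_singleton_self _, rfl⟩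
  refine ⟨IsLocalRing.ResidueField V, inferInstance,
    ⟨fun x z => ∃ v : V, (v : K) = ι x ∧ IsLocalRing.residue V v = z, ⟨1, by simp, by simp⟩,
      ?_, ?_, ?_, ?_, ?_, ?_⟩, ?_⟩
  · rintro x y a b ⟨v, hv, rfl⟩ ⟨w, hw, rfl⟩
    exact ⟨v + w, by simp [hv, hw], by simp⟩
  · rintro x y a b ⟨v, hv, rfl⟩ ⟨w, hw, rfl⟩
    exact ⟨v * w, by simp [hv, hw], by simp⟩
  · rintro x a ⟨v, hv, rfl⟩
    exact ⟨-v, by simp [hv], by simp⟩
  · rintro x a b ⟨v, hv, rfl⟩ ⟨w, hw, rfl⟩
    rw [Subtype.ext (hv.trans hw.symm)]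
  · rintro x a n hn ⟨v, hv, -⟩
    have h1 : V.valuation (ι x) ^ n ≤ 1 := by
      rw [← map_pow, ← map_pow, ← hv]
      exact V.valuation_le_one v
    exact ⟨_, ⟨ι x, V.mem_of_valuation_le_one _ ((pow_le_one_iff hn).1 h1)⟩, rfl, rfl⟩
  · rintro x y a b ha ⟨v, hv, rfl⟩ ⟨w, hw, -⟩
    have h1 : V.valuation (v : K) = 1 := by
      rw [← V.valuation_eq_one_iff]
      exact (IsLocalRing.residue_ne_zero_iff_isUnit v).1 ha
    have h2 := V.valuation_le_one w
    rw [hw, map_mul, map_mul, ← hv, h1, one_mul] at h2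
    exact ⟨_, ⟨ι y, V.mem_of_valuation_le_one _ h2⟩, rfl, rfl⟩
  · obtain ⟨hv, hm'⟩ := V.mem_nonunits_iff_exists_mem_maximalIdeal.1 hm
    refine ⟨⟨_, hv⟩ + h, by simp, ?_⟩
    rw [map_add, (IsLocalRing.residue_eq_zero_iff _).2 hm', zero_add, map_intCast]

namespace Place

variable {S k : Type} [CommRing S] [Field k] {P : Place S k}

lemma sub {x y : S} {a b : k} (h : P.Ev x a) (h' : P.Ev y b) : P.Ev (x - y) (a - b) := by
  simpa only [sub_eq_add_neg] using P.add h (P.neg h')

lemma zero : P.Ev 0 0 := by simpa using sub P.one P.one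

lemma pow {x : S} {a : k} (h : P.Ev x a) (n : ℕ) : P.Ev (x ^ n) (a ^ n) := by
  induction n with
  | zero => simpa using P.one
  | succ n ih => simpa only [pow_succ] using P.mul ih h

lemma nat (n : ℕ) : P.Ev n n := by
  induction n with
  | zero => simpa using zero
  | succ n ih => simpa using P.add ih P.one

lemma int (n : ℤ) : P.Ev n n := by
  obtain ⟨m, rfl | rfl⟩ := n.eq_nat_or_neg
  · simpa using nat m
  · simpa using P.neg (nat m)

lemma sum {α : Type*} (s : Finset α) {x : α → S} {a : α → k} (h : ∀ i ∈ s, P.Ev (x i) (a i)) :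
    P.Ev (∑ i ∈ s, x i) (∑ i ∈ s, a i) := by
  classical
  induction s using Finset.induction_on with
  | empty => simpa using zero
  | insert i s hi ih =>
    rw [Finset.sum_insert hi, Finset.sum_insert hi]
    exact P.add (h i (by simp)) (ih fun j hj => h j (by simp [hj]))

lemma poly [Algebra ℤ S] [Algebra ℤ k] {x : S} {a : k} (h : P.Ev x a) (Q : Polynomial ℤ) :
    P.Ev (Polynomial.aeval x Q) (Polynomial.aeval a Q) := by
  induction Q using Polynomial.induction_on with
  | C c => simpa using int c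
  | add p q hp hq => simpa only [map_add] using P.add hp hq
  | monomial n c _ => simpa using P.mul (int c) (pow h (n + 1))

lemma div' {x y : S} {a b c : k} (ha : a ≠ 0) (h : P.Ev x a) (h' : P.Ev (x * y) b)
    (hc : a * c = b) : P.Ev y c := by
  obtain ⟨c', h1⟩ := P.div ha h h'
  rwa [mul_left_cancel₀ ha (hc.trans (P.unique h' (P.mul h h1)))]

lemma congr {x y : S} {a b : k} (h : P.Ev x a) (hx : x = y) (ha : a = b) : P.Ev y b :=
  hx ▸ ha ▸ h

end Place

end Pool.Agent.Lib.MP_3ef01f_nt
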