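import Mathlib
import Pool.Agent.Lib.MP_3ef01f_nt.G

set_option autoImplicit false

namespace Pool.Agent.Lib.MP_3ef01f_nt

open MvPolynomial

lemma D0_T : D0 (X 0) = 2 * (1 - 4 * X 0 ^ 2) := by simp [D0]

lemma D0_Y : D0 (X 1) = 2 * (1 - 4 * X 0 ^ 2 - X 1 ^ 2) := by simp [D0]

lemma g_neg (n : ℕ) :
    aeval ![(-X 0 : MvPolynomial (Fin 2) ℤ), -X 1] (g n) = (-1) ^ n * g n := by
  have hid : ∀ q : MvPolynomial (Fin 2) ℤ,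
      D0 (aeval ![(-X 0 : MvPolynomial (Fin 2) ℤ), -X 1] q) =
        -1 * aeval ![(-X 0 : MvPolynomial (Fin 2) ℤ), -X 1] (D0 q) :=
    chain D0 _ _ _ (by rw [map_neg, D0_T]; ring) (by rw [map_neg, D0_Y]; ring)
  induction n with
  | zero => simp [g]
  | succ n ih =>
    have h1 := hid (g n)
    have h2 : D0 ((-1) ^ n * g n) = (-1) ^ n * D0 (g n) := by
      rcases neg_one_pow_eq_or (MvPolynomial (Fin 2) ℤ) n with h | h <;> simp [h]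
    rw [ih, h2] at h1
    rw [g]
    simp only [map_add, map_mul, aeval_X, map_natCast, map_ofNat, map_one, ih,
      Matrix.cons_val_one, Matrix.cons_val_zero]
    linear_combination h1

lemma G0_odd (n : ℕ) (h : Odd n) : G0 n = 0 := by
  have h1 := congrArg (aeval ![(0 : ℤ), 0] : MvPolynomial (Fin 2) ℤ →ₐ[ℤ] ℤ) (g_neg n)
  have h2 := map_aeval_g (aeval ![(0 : ℤ), 0] : MvPolynomial (Fin 2) ℤ →ₐ[ℤ] ℤ).toRingHom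
    (-X 0) (-X 1) (g n)
  simp only [AlgHom.toRingHom_eq_coe, RingHom.coe_coe, map_neg, aeval_X, Matrix.cons_val_zero,
    Matrix.cons_val_one, neg_zero] at h2
  rw [h2, h.neg_one_pow, neg_one_mul, map_neg] at h1
  rw [G0]
  omega

lemma D0_mon (c : ℤ) (a b : ℕ) : D0 (C c * X 0 ^ a * X 1 ^ b) =
    C c * ((a : MvPolynomial (Fin 2) ℤ) * X 0 ^ (a - 1) * (2 * (1 - 4 * X 0 ^ 2)) * X 1 ^ b +
      X 0 ^ a * ((b : MvPolynomial (Fin 2) ℤ) * X 1 ^ (b - 1) *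
        (2 * (1 - 4 * X 0 ^ 2 - X 1 ^ 2)))) := by
  have h0 : D0 (C c) = 0 := derivation_C _ _
  simp only [Derivation.leibniz, Derivation.leibniz_pow, D0_T, D0_Y, h0, smul_eq_mul, nsmul_eq_mul]
  ring

lemma g1 : g 1 = C 1 * X 0 ^ 0 * X 1 ^ 1 := by simp [g]

lemma g2 : g 2 = C 2 * X 0 ^ 0 * X 1 ^ 0 + C 3 * X 0 ^ 0 * X 1 ^ 2 +
    C (-8) * X 0 ^ 2 * X 1 ^ 0 := by
  rw [g, g1, D0_mon]
  simp only [map_neg, map_ofNat, map_one]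
  push_cast
  ring

lemma g3 : g 3 = C 30 * X 0 ^ 0 * X 1 ^ 1 + C 15 * X 0 ^ 0 * X 1 ^ 3 +
    C (-32) * X 0 ^ 1 * X 1 ^ 0 + C (-120) * X 0 ^ 2 * X 1 ^ 1 + C 128 * X 0 ^ 3 * X 1 ^ 0 := by
  rw [g, g2]
  simp only [map_add, D0_mon]
  simp only [map_neg, map_ofNat]
  push_cast
  ring

lemma g4 : g 4 = C (-4) * X 0 ^ 0 * X 1 ^ 0 + C 420 * X 0 ^ 0 * X 1 ^ 2 +
    C 105 * X 0 ^ 0 * X 1 ^ 4 + C (-896) * X 0 ^ 1 * X 1 ^ 1 + C 544 * X 0 ^ 2 * X 1 ^ 0 +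
    C (-1680) * X 0 ^ 2 * X 1 ^ 2 + C 3584 * X 0 ^ 3 * X 1 ^ 1 +
    C (-2112) * X 0 ^ 4 * X 1 ^ 0 := by
  rw [g, g3]
  simp only [map_add, D0_mon]
  simp only [map_neg, map_ofNat]
  push_cast
  ring

lemma g5 : g 5 = C (-180) * X 0 ^ 0 * X 1 ^ 1 + C 6300 * X 0 ^ 0 * X 1 ^ 3 +
    C 945 * X 0 ^ 0 * X 1 ^ 5 + C 384 * X 0 ^ 1 * X 1 ^ 0 + C (-20160) * X 0 ^ 1 * X 1 ^ 2 +
    C 24480 * X 0 ^ 2 * X 1 ^ 1 + C (-25200) * X 0 ^ 2 * X 1 ^ 3 +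
    C (-11264) * X 0 ^ 3 * X 1 ^ 0 + C 80640 * X 0 ^ 3 * X 1 ^ 2 +
    C (-95040) * X 0 ^ 4 * X 1 ^ 1 + C 38912 * X 0 ^ 5 * X 1 ^ 0 := by
  rw [g, g4]
  simp only [map_add, D0_mon]
  simp only [map_neg, map_ofNat]
  push_cast
  ring

lemma G0_two : G0 2 = 2 := by simp [G0, g2]

lemma G0_four : G0 4 = -4 := by simp [G0, g4]

lemma G0_six : G0 6 = 408 := by
  rw [G0, g, g5]
  simp only [map_add, D0_mon]
  simp

end Pool.Agent.Lib.MP_3ef01f_nt
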