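import Mathlib
import Pool.Agent.Lib.MP_3ef01f_nt.XKum
import Pool.Agent.Lib.MP_3ef01f_nt.XPlace
import Pool.Agent.Lib.MP_3ef01f_nt.XFin
import Pool.Agent.Lib.MP_3ef01f_nt.XVal

set_option autoImplicit false

namespace Pool.Agent.Lib.MP_3ef01f_nt

open PowerSeries PadicInt

lemma inj_coeff {R : Type*} [CommRing R] (q : R) (lam w : R⟦X⟧) (hl : lam = X * w)
    (hw : IsUnit w) (P : Polynomial ℤ) :
    C q ∣ Polynomial.aeval lam P → ∀ i, q ∣ (P.coeff i : R) := by
  induction P using Polynomial.recOnHorner with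
  | M0 => simp
  | MC P a h0 _ ih =>
    intro h i
    have h1 := map_dvd (constantCoeff (R := R)) h
    have l0 : constantCoeff lam = 0 := by simp [hl]
    rw [map_aeval_int, l0, constantCoeff_C, map_add, Polynomial.aeval_C,
      ← Polynomial.coeff_zero_eq_aeval_zero', h0] at h1
    simp only [map_zero, zero_add, eq_intCast] at h1
    have h2 : C q ∣ (a : R⟦X⟧) := by simpa using map_dvd (C (R := R)) h1
    simp only [map_add, eq_intCast, map_intCast] at h
    rw [Polynomial.coeff_add, Int.cast_add, Polynomial.coeff_C]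
    refine dvd_add (ih ((dvd_add_left h2).1 h) i) ?_
    split_ifs
    · exact h1
    · simp
  | MX P _ ih =>
    intro h i
    rw [map_mul, Polynomial.aeval_X] at h
    cases i with
    | zero => simp
    | succ i =>
      rw [Polynomial.coeff_mul_X]
      refine ih ?_ i
      nth_rewrite 2 [hl] at h
      rw [← mul_assoc, hw.dvd_mul_right, C_dvd_iff] at h
      rw [C_dvd_iff]
      intro n
      simpa using h (n + 1)

variable {p : ℕ} [hp : Fact p.Prime]

lemma pp_ne : (p : ℤ_[p]) ≠ 0 := by exact_mod_cast hp.1.ne_zero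

lemma Cp_ne : (C (p : ℤ_[p]) : ℤ_[p]⟦X⟧) ≠ 0 :=
  fun h => pp_ne (C_injective (h.trans (map_zero C).symm))

lemma Th.rel_div (T : Th ℤ_[p]) {w : ℤ_[p]⟦X⟧} {z : ℤ_[p]}
    (h : Rel ((p : ℤ_[p]) ^ 2) T.h T.lam (C (p : ℤ_[p]) * w) z) :
    ∃ y, z = p * y ∧ Rel (p : ℤ_[p]) T.h T.lam w y := by
  obtain ⟨P, Q, u, ⟨c, h1⟩, ⟨e, h2⟩⟩ := h
  rw [map_pow] at h1
  have h3 : Polynomial.C (p : ℤ) ∣ P := by
    rw [Polynomial.C_dvd_iff_dvd_coeff]
    intro i
    have := inj_coeff (p : ℤ_[p]) T.lam T.w T.hl T.uw P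
      ⟨Polynomial.aeval T.lam Q * w - C (p : ℤ_[p]) * c, by linear_combination -h1⟩ i
    simpa using (PadicInt.pow_p_dvd_int_iff 1 _).1 (by simpa using this)
  obtain ⟨P', rfl⟩ := h3
  simp only [map_mul, map_natCast] at h1 h2
  obtain ⟨y, rfl⟩ : (p : ℤ_[p]) ∣ z :=
    u.dvd_mul_left.1 ⟨Polynomial.aeval T.h P' + p * e, by linear_combination h2⟩
  refine ⟨y, rfl, P', Q, u, ⟨c, mul_left_cancel₀ Cp_ne ?_⟩, ⟨e, mul_left_cancel₀ pp_ne ?_⟩⟩
  · rw [map_natCast]
    linear_combination h1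
  · linear_combination h2

/-- Reduction modulo `p`. -/
noncomputable abbrev red : ℤ_[p]⟦X⟧ →+* (ZMod p)⟦X⟧ := PowerSeries.map toZMod

lemma red_Cp : red (C (p : ℤ_[p])) = 0 := by
  rw [map_C, map_natCast, ZMod.natCast_self, map_zero]

/-- A place of the ring of power series modulo `p` above the point `lam = 1 / 2`. -/
structure Pl (T : Th ℤ_[p]) (k : Type) [Field k] extends Place (ZMod p)⟦X⟧ k where
  i : ZMod p →+* k
  evC : ∀ c, Ev (C c) (i c)
  evl : Ev (red T.lam) (i (toZMod T.h))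

lemma exists_Pl (T : Th ℤ_[p]) : ∃ (k : Type) (_ : Field k), Nonempty (Pl T k) := by
  obtain ⟨h0, hh⟩ := ZMod.intCast_surjective (toZMod T.h)
  obtain ⟨k, _, P, hP⟩ := exists_place (ZMod p)⟦X⟧ (red T.lam) h0 (by
    intro Q hQ
    have := inj_mod (0 : ZMod p) h0 (red T.lam) (red T.w) (by rw [T.hl]; simp) (T.uw.map _)
      (Q * (Polynomial.X - Polynomial.C h0) - 1) (by
        rw [map_zero, map_sub, map_mul, map_sub, Polynomial.aeval_X, eq_intCast, map_intCast, hQ,
          map_one, sub_self])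
    simp at this)
  have h1 : (p : k) = 0 := by
    have := Place.nat (P := P) p
    rw [← map_natCast (C (R := ZMod p)), ZMod.natCast_self, map_zero] at this
    exact P.unique this Place.zero
  have : CharP k p := (CharP.charP_iff_prime_eq_zero hp.1).2 h1
  refine ⟨k, inferInstance, ⟨⟨P, ZMod.castHom dvd_rfl k, fun c => ?_, ?_⟩⟩⟩
  · obtain ⟨c, rfl⟩ := ZMod.intCast_surjective c
    simpa only [map_intCast] using Place.int (P := P) c
  · rwa [← hh, map_intCast]

lemma inversion {S : Type*} [CommRing S] (c : ZMod p →+* S) {j : ℕ} (hj : p = 4 * j + 1)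
    (Y : ZMod p → S) (hY : ∀ x, Y (-x) = Y x) {x : ZMod p} (hx : x ≠ 0) {m : ℕ} (hm : m ≠ 0) :
    ∑ i ∈ Finset.range (2 * j), c ((2 * x ^ 2)⁻¹ ^ (m + i)) *
      ∑ z, c ((2 * z ^ 2) ^ (m + i)) * Y z = -Y x := by
  have h4 : (4 * j : ZMod p) = -1 := by
    have : ((4 * j + 1 : ℕ) : ZMod p) = 0 := by rw [← hj, ZMod.natCast_self]
    push_cast at this
    linear_combination this
  have h2 : (2 : ZMod p) ≠ 0 := by
    intro h
    have : (1 : ZMod p) = 0 := by linear_combination h4 - (2 * j) * h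
    exact one_ne_zero this
  have key : ∀ z : ZMod p, ∑ i ∈ Finset.range (2 * j), (2 * x ^ 2)⁻¹ ^ (m + i) *
      (2 * z ^ 2) ^ (m + i) = 
        (if z = x then (2 * j : ZMod p) else 0) + (if z = -x then (2 * j : ZMod p) else 0) := by
    intro z
    have h3 : ∀ i, (2 * x ^ 2)⁻¹ ^ i * (2 * z ^ 2) ^ i = ((z / x) ^ 2) ^ i := by
      intro i
      rw [← mul_pow]
      congr 1
      field_simp
    have hne : x ≠ -x := fun h => mul_ne_zero h2 hx (by linear_combination h)
    simp only [h3]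
    by_cases h5 : z = x
    · simp [h5, hx, hne]
    by_cases h6 : z = -x
    · simp [h6, hx, hne.symm]
    rw [if_neg h5, if_neg h6, add_zero]
    by_cases h7 : z = 0
    · simp [h7, hm]
    have h8 : (z / x) ^ 2 - 1 ≠ 0 := by
      intro h
      have h9 : (z - x) * (z + x) = 0 := by
        field_simp at h
        linear_combination h
      rcases mul_eq_zero.1 h9 with h | h
      · exact h5 (by linear_combination h)
      · exact h6 (by linear_combination h)
    simp only [pow_add, ← Finset.mul_sum]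
    apply mul_right_cancel₀ h8
    rw [mul_assoc, geom_sum_mul, ← pow_mul _ 2 (2 * j), show 2 * (2 * j) = p - 1 by omega,
      ZMod.pow_card_sub_one_eq_one (div_ne_zero h7 hx)]
    simp
  simp only [Finset.mul_sum, ← mul_assoc, ← map_mul]
  rw [Finset.sum_comm]
  simp only [← Finset.sum_mul, ← map_sum, key, map_add, add_mul, Finset.sum_add_distrib,
    apply_ite c, map_zero, ite_mul, zero_mul, Finset.sum_ite_eq', Finset.mem_univ, if_true, hY]
  rw [← add_mul, ← map_add, show (2 * j + 2 * j : ZMod p) = -1 by linear_combination h4]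
  simp

namespace Pl

variable {T : Th ℤ_[p]} {k : Type} [Field k] (P : Pl T k)

/-- The map from the `p`-adic integers to the residue field. -/
noncomputable def t : ℤ_[p] →+* k := P.i.comp toZMod

lemma t_ne {u : ℤ_[p]} (h : IsUnit u) : P.t u ≠ 0 := (h.map P.t).ne_zero

lemma t_p : P.t p = 0 := by
  rw [t, RingHom.comp_apply, map_natCast toZMod, ZMod.natCast_self, map_zero]

lemma ev_C (c : ℤ_[p]) : P.Ev (red (C c)) (P.t c) := by
  rw [map_C]
  exact P.evC _

lemma ev_poly (Q : Polynomial ℤ) :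
    P.Ev (red (Polynomial.aeval T.lam Q)) (P.t (Polynomial.aeval T.h Q)) := by
  rw [map_aeval_int, map_aeval_int]
  exact Place.poly P.evl Q

lemma ev_rel {x : ℤ_[p]⟦X⟧} {z : ℤ_[p]} (h : Rel (p : ℤ_[p]) T.h T.lam x z) :
    P.Ev (red x) (P.t z) := by
  obtain ⟨Q1, Q, u, ⟨c, h1⟩, ⟨e, h2⟩⟩ := h
  refine Place.div' (P.t_ne u) (P.ev_poly Q) (Place.congr (P.ev_poly Q1) ?_ rfl) ?_
  · have := congrArg red h1
    rw [map_sub, map_mul, map_mul, red_Cp, zero_mul] at this
    linear_combination -this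
  · have := congrArg P.t h2
    rw [map_sub, map_mul, map_mul, t_p, zero_mul] at this
    linear_combination this

lemma ev_inv {j : ℕ} (hj : p = 4 * j + 1) (Y : ZMod p → (ZMod p)⟦X⟧) (hY : ∀ x, Y (-x) = Y x)
    {x : ZMod p} (hx : x ≠ 0) {m : ℕ} (hm : m ≠ 0) {μ : ℕ → k}
    (h : ∀ n, m ≤ n → P.Ev (∑ z, C ((2 * z ^ 2) ^ n) * Y z) (μ n)) :
    P.Ev (Y x) (-∑ i ∈ Finset.range (2 * j), P.i ((2 * x ^ 2)⁻¹ ^ (m + i)) * μ (m + i)) := by
  refine Place.congr (P.neg (Place.sum _ fun i _ => P.mul (P.evC _) (h (m + i) (by omega)))) ?_ rfl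
  rw [inversion C hj Y hY hx hm, neg_neg]

end Pl

end Pool.Agent.Lib.MP_3ef01f_nt
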