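import Mathlib
import Pool.Agent.Lib.MP_3ef01f_nt.XEv

set_option autoImplicit false

namespace Pool.Agent.Lib.MP_3ef01f_nt

open PowerSeries PadicInt

variable {p : ℕ} [hp : Fact p.Prime]

lemma two_ne {j : ℕ} (hj : p = 4 * j + 1) : (2 : ZMod p) ≠ 0 := by
  intro h
  have h1 := Nat.le_of_dvd two_pos ((ZMod.natCast_eq_zero_iff 2 p).1 (by exact_mod_cast h))
  have := hp.1.two_le
  omega

lemma Th.H0_unit (T : Th ℤ_[p]) {j : ℕ} (hj : p = 4 * j + 1) : IsUnit (T.H0 (2 * j)) := by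
  simpa [MM, Th.H0] using T.unit_half hj 1

lemma red_Tw (w : ℤ → ℤ_[p]) : red (Tw w) = Tw fun k => toZMod (w k) := Sm_map ad3 _ w

lemma red_E1 (m : ℕ) : red (E1^[m] (Tw fun _ => (1 : ℤ_[p]))) =
    ∑ z : ZMod p, C ((2 * z ^ 2) ^ m) * FF z := by
  have h := Tw_decomp (fun z : ZMod p => (2 * z ^ 2) ^ m) (fun _ => 1)
  simp only [mul_one] at h
  rw [Tw, Sm_E1 ad3, Sm_map ad3]
  refine Eq.trans ?_ h
  simp [Tw, map_ofNat]

lemma G0_step {D : ℕ → ℤ_[p]} (hD : ∀ n, (G0 (2 * n) : ℤ_[p]) = 2 ^ n * D n) {q c : ℤ_[p]}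
    {L N : ℕ} (h : ∀ n, N ≤ n → q ∣ D (n + L) - c * D n) (m : ℕ) (hm : 2 * N ≤ m) :
    q ∣ (G0 (m + 2 * L) : ℤ_[p]) - 2 ^ L * c * G0 m := by
  rcases Nat.even_or_odd' m with ⟨n, rfl | rfl⟩
  · rw [← mul_add, hD, hD, show (2 : ℤ_[p]) ^ (n + L) * D (n + L) - 2 ^ L * c * (2 ^ n * D n) =
      2 ^ (n + L) * (D (n + L) - c * D n) by ring]
    exact (h n (by omega)).mul_left _
  · rw [G0_odd _ ⟨n, rfl⟩, G0_odd _ ⟨n + L, by ring⟩]
    simp

namespace Pl

variable {T : Th ℤ_[p]} {k : Type} [Field k] (P : Pl T k)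

lemma t_eq {a b : ℤ_[p]} (h : (p : ℤ_[p]) ∣ a - b) : P.t a = P.t b := by
  obtain ⟨c, hc⟩ := h
  rw [← sub_eq_zero, ← map_sub, hc, map_mul, t_p, zero_mul]

/-- The partial theta series are units at the place. -/
theorem exists_phi (hf : T.f = Tw fun _ => 1) (ha : T.a = T.f ^ 2) {j : ℕ} (hj : p = 4 * j + 1) :
    ∃ (u v : k) (φ : ZMod p → k), P.Ev (red T.f) u ∧ P.Ev (red (C (-T.h ^ 2) * T.a ^ 2)) v ∧
      P.t (16 ^ j * T.H0 (2 * j)) * v ^ (2 * j) = 1 ∧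
      (∀ m, P.Ev (∑ z : ZMod p, C ((2 * z ^ 2) ^ m) * FF z) (v ^ m * u * P.t (G0 m))) ∧
      (∀ x, P.Ev (FF x) (φ x)) ∧ ∀ x, φ x ≠ 0 := by
  have h2 := two_ne hj
  have hj0 : j ≠ 0 := by
    have := hp.1.two_le
    omega
  obtain ⟨b, hb⟩ := T.dwork' hj
  have h1 : red (T.HH (2 * j)) * red T.a ^ (4 * j) = 1 := by
    have := congrArg red hb
    rwa [map_add, map_one, map_mul, map_mul, red_Cp, zero_mul, add_zero, map_pow] at this
  have evH : P.Ev (red (T.HH (2 * j))) (P.t (T.H0 (2 * j))) := P.ev_poly _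
  obtain ⟨c, hc⟩ := P.div (P.t_ne (T.H0_unit hj)) evH (Place.congr P.one h1.symm rfl)
  obtain ⟨α, hα⟩ := P.root (by omega) hc
  have h3 : P.t (T.H0 (2 * j)) * α ^ (4 * j) = 1 :=
    P.unique (P.mul evH (Place.pow hα _)) (Place.congr P.one h1.symm rfl)
  obtain ⟨u, hu⟩ := P.root two_ne_zero (Place.congr hα (by rw [ha, map_pow]) rfl)
  have h4 : u ^ 2 = α := P.unique (Place.pow hu 2) (Place.congr hα (by rw [ha, map_pow]) rfl)
  have α0 : α ≠ 0 := by
    rintro rfl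
    rw [zero_pow (by omega), mul_zero] at h3
    exact zero_ne_one h3
  have u0 : u ≠ 0 := by
    rintro rfl
    exact α0 (by rw [← h4]; simp)
  have hv : P.Ev (red (C (-T.h ^ 2) * T.a ^ 2)) (P.t (-T.h ^ 2) * α ^ 2) := by
    rw [map_mul, map_pow]
    exact P.mul (P.ev_C _) (Place.pow hα 2)
  have uh : IsUnit T.h := IsUnit.of_mul_eq_one_right _ T.hh
  have v0 : P.t (-T.h ^ 2) * α ^ 2 ≠ 0 := mul_ne_zero (P.t_ne (uh.pow 2).neg) (pow_ne_zero 2 α0)
  have hμ : ∀ m, P.Ev (∑ z : ZMod p, C ((2 * z ^ 2) ^ m) * FF z)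
      ((P.t (-T.h ^ 2) * α ^ 2) ^ m * u * P.t (G0 m)) := by
    intro m
    rw [← red_E1, ← hf, T.E1_iter, map_mul, map_mul, map_pow]
    exact P.mul (P.mul (Place.pow hv m) hu) (P.ev_rel (by simpa using T.rel_gs hj 1 m))
  have hF0 : P.Ev (FF 0) (u ^ p ^ 2) := by
    refine Place.congr (Place.pow hu _) ?_ rfl
    rw [FF_zero, hf, red_Tw]
    simp only [map_one]
  have hex : ∀ x, ∃ a, P.Ev (FF x) a := by
    intro x
    by_cases hx : x = 0
    · exact ⟨_, hx ▸ hF0⟩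
    · exact ⟨_, P.ev_inv hj FF FF_neg hx one_ne_zero fun n _ => hμ n⟩
  choose φ hφ using hex
  refine ⟨u, _, φ, hu, hv, ?_, hμ, hφ, ?_⟩
  · have h5 : (16 : ℤ_[p]) ^ j * (-T.h ^ 2) ^ (2 * j) = 1 := by
      rw [pow_mul, ← mul_pow, show (16 : ℤ_[p]) * (-T.h ^ 2) ^ 2 = (2 * T.h) ^ 4 by ring, T.hh]
      simp
    have h6 := congrArg P.t h5
    rw [map_mul, map_one, map_pow P.t (-T.h ^ 2)] at h6
    rw [map_mul, mul_pow, ← pow_mul, show 2 * (2 * j) = 4 * j by ring]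
    linear_combination P.t (T.H0 (2 * j)) * α ^ (4 * j) * h6 + h3
  · have hx0 : ∃ x, x ≠ 0 ∧ φ x ≠ 0 := by
      by_contra hcon
      have h5 := P.unique (hμ 2) (Place.sum _ fun z _ => P.mul (P.evC _) (hφ z))
      rw [Finset.sum_eq_zero, G0_two] at h5
      · refine mul_ne_zero (mul_ne_zero (pow_ne_zero 2 v0) u0) (P.t_ne ?_) h5
        simpa using IsUnit.of_mul_eq_one _ T.hh
      · intro z _
        by_cases hz : z = 0
        · simp [hz]
        · by_contra h6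
          exact hcon ⟨z, hz, right_ne_zero_of_mul h6⟩
    obtain ⟨x0, hx0, hx1⟩ := hx0
    refine no_zero h2 φ (fun x => P.unique (hφ (-x)) (by rw [FF_neg]; exact hφ x))
      (by rw [P.unique (hφ 0) hF0]; exact pow_ne_zero _ u0) hx0 hx1 fun w x y => ?_
    have m2 : ∀ a b, P.Ev (FF a * FF b) (φ a * φ b) := fun a b => P.mul (hφ a) (hφ b)
    exact P.unique (P.add (Place.sub
      (P.mul (m2 _ _) (Place.sub (P.mul (m2 _ _) (m2 _ _)) (P.mul (m2 _ _) (m2 _ _))))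
      (P.mul (m2 _ _) (Place.sub (P.mul (m2 _ _) (m2 _ _)) (P.mul (m2 _ _) (m2 _ _)))))
      (P.mul (m2 _ _) (Place.sub (P.mul (m2 _ _) (m2 _ _)) (P.mul (m2 _ _) (m2 _ _)))))
      (Place.congr Place.zero (FF_det h2 w x y).symm rfl)

end Pl

/-- Lower bound for the period modulo `p`. -/
theorem Th.low_one (T : Th ℤ_[p]) (hf : T.f = Tw fun _ => 1) (ha : T.a = T.f ^ 2) {j : ℕ}
    (hj : p = 4 * j + 1) {D : ℕ → ℤ_[p]} (hD : ∀ n, (G0 (2 * n) : ℤ_[p]) = 2 ^ n * D n)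
    {L N : ℕ} (h : ∀ n, N ≤ n → (p : ℤ_[p]) ∣ D (n + L) - D n) :
    ∃ t, L = j * t ∧ toZMod (32 ^ j * T.H0 (2 * j)) ^ t = 1 := by
  obtain ⟨k, _, ⟨P⟩⟩ := exists_Pl T
  obtain ⟨u, v, φ, -, -, hv, hμ, hφ, h0⟩ := P.exists_phi hf ha hj
  have h2 := two_ne hj
  have key : ∀ x : ZMod p, x ≠ 0 → P.i ((2 * x ^ 2) ^ (2 * L)) = v ^ (2 * L) * 2 ^ L := by
    intro x hx
    have e1 := P.unique (hφ x) (P.ev_inv hj FF FF_neg hx (m := 2 * N + 1) (by omega)
      fun n _ => hμ n)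
    have e2 := P.unique (hφ x) (P.ev_inv hj FF FF_neg hx (m := 2 * N + 1 + 2 * L) (by omega)
      fun n _ => hμ n)
    apply mul_right_cancel₀ (h0 x)
    nth_rewrite 1 [e2]
    rw [e1, mul_neg, mul_neg, Finset.mul_sum, Finset.mul_sum]
    refine congrArg Neg.neg (Finset.sum_congr rfl fun i _ => ?_)
    have e3 := P.t_eq (G0_step hD (c := 1) (by simpa using h) (2 * N + 1 + i) (by omega))
    have e4 : P.i ((2 * x ^ 2) ^ (2 * L)) * P.i ((2 * x ^ 2)⁻¹ ^ (2 * L)) = 1 := by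
      rw [← map_mul, ← mul_pow, mul_inv_cancel₀ (mul_ne_zero h2 (pow_ne_zero 2 hx)), one_pow,
        map_one]
    rw [show 2 * N + 1 + 2 * L + i = 2 * N + 1 + i + 2 * L by ring, e3, pow_add _ _ (2 * L),
      pow_add _ _ (2 * L), map_mul, map_mul, mul_one, map_pow P.t, map_ofNat]
    linear_combination P.i ((2 * x ^ 2)⁻¹ ^ (2 * N + 1 + i)) * v ^ (2 * N + 1 + i) * v ^ (2 * L) *
      u * 2 ^ L * P.t (G0 (2 * N + 1 + i)) * e4
  have k1 := key 1 one_ne_zero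
  have h3 : p - 1 ∣ 4 * L := by
    have := (FiniteField.forall_pow_eq_one_iff (ZMod p) (4 * L)).1 fun x => by
      ext
      have e1 := P.i.injective ((key x x.ne_zero).trans k1.symm)
      rw [mul_pow, mul_pow, one_pow, one_pow, ← pow_mul] at e1
      rw [Units.val_pow_eq_pow_val, show 4 * L = 2 * (2 * L) by ring]
      exact mul_left_cancel₀ (pow_ne_zero _ h2) e1
    rwa [ZMod.card] at this
  rw [show p - 1 = 4 * j by omega] at h3
  obtain ⟨t, rfl⟩ := Nat.dvd_of_mul_dvd_mul_left (by norm_num) h3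
  refine ⟨t, rfl, P.i.injective ?_⟩
  have i2 : (2 : k) ≠ 0 := by
    rw [← map_ofNat P.i 2]
    exact (map_ne_zero P.i).2 h2
  have e1 := congrArg (· ^ t) hv
  simp only [mul_pow, one_pow, mul_one, map_pow, map_mul, map_ofNat, ← pow_mul] at e1 k1 ⊢
  rw [map_one]
  apply mul_left_cancel₀ (pow_ne_zero (j * t) i2)
  change _ * (_ * P.t (T.H0 (2 * j)) ^ t) = _
  rw [show (32 : k) = 16 * 2 by norm_num, mul_pow, show 2 * j * t = 2 * (j * t) by ring] at *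
  rw [two_mul, pow_add] at k1
  linear_combination 16 ^ (j * t) * P.t (T.H0 (2 * j)) ^ t * k1 + 2 ^ (j * t) * e1

lemma E1_step {j : ℕ} (hj : p = 4 * j + 1) (m : ℕ) :
    E1^[m + 1 + 2 * j] (Tw fun _ => (1 : ℤ_[p])) =
      C (4 ^ j) * (E1^[m + 1] (Tw fun _ => (1 : ℤ_[p])) + C (p : ℤ_[p]) *
        Tw fun k => 2 ^ (m + 1) * (k : ℤ_[p]) ^ (2 * m + 1) * del p k) := by
  rw [Tw, Sm_E1 ad3, Sm_E1 ad3, Tw, ← Sm_C_mul ad3, ← Sm_add ad3, ← Sm_C_mul ad3]
  congr 1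
  funext k
  have h1 := congrArg (Int.cast : ℤ → ℤ_[p]) (del_spec (p := p) k)
  push_cast at h1 ⊢
  have h2 : (k : ℤ_[p]) ^ p = k ^ (4 * j + 1) := by rw [← hj]
  rw [h2] at h1
  rw [show (4 : ℤ_[p]) = 2 ^ 2 by norm_num, ← pow_mul]
  linear_combination (-(2 ^ (2 * j) * 2 ^ (m + 1) * (k : ℤ_[p]) ^ (2 * m + 1))) * h1

lemma red_Theta (m : ℕ) :
    red (Tw fun k => 2 ^ (m + 1) * (k : ℤ_[p]) ^ (2 * m + 1) * (del p k : ℤ_[p])) =
      ∑ z : ZMod p, C ((2 * z ^ 2) ^ (m + 1)) * (C z⁻¹ * DD z) := by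
  have h := Tw_decomp (fun z : ZMod p => 2 ^ (m + 1) * z ^ (2 * m + 1)) (fun k => del p k)
  rw [red_Tw]
  simp only [map_mul, map_pow toZMod, map_ofNat, map_intCast]
  rw [h]
  refine Finset.sum_congr rfl fun z _ => ?_
  rw [← mul_assoc, ← map_mul]
  congr 2
  by_cases hz : z = 0
  · simp [hz]
  · field_simp
    ring

/-- No twisted periodicity modulo `p ^ 2` with the shortest step. -/
theorem Th.low_two (T : Th ℤ_[p]) (hf : T.f = Tw fun _ => 1) (ha : T.a = T.f ^ 2) {j : ℕ}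
    (hj : p = 4 * j + 1) (h5 : 5 < p) {D : ℕ → ℤ_[p]}
    (hD : ∀ n, (G0 (2 * n) : ℤ_[p]) = 2 ^ n * D n) {c : ℤ_[p]} {N : ℕ}
    (h : ∀ n, N ≤ n → (p : ℤ_[p]) ^ 2 ∣ D (n + j) - c * D n) : False := by
  obtain ⟨k, _, ⟨P⟩⟩ := exists_Pl T
  obtain ⟨u, v, φ, hu, hz, -, hμ, hφ, h0⟩ := P.exists_phi hf ha hj
  have h2 := two_ne hj
  have hodd : Odd p := ⟨2 * j, by omega⟩
  have hG := G0_step hD h
  obtain ⟨b, hb⟩ := T.dwork' hj
  set z := C (-T.h ^ 2) * T.a ^ 2 with hzdef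
  set W := 64 ^ j * T.HH (2 * j) with hW
  set W0 := 64 ^ j * T.H0 (2 * j) with hW0
  have u2 : IsUnit (2 : ℤ_[p]) := IsUnit.of_mul_eq_one _ T.hh
  have uW : IsUnit W0 := by
    refine IsUnit.mul (IsUnit.pow j ?_) (T.H0_unit hj)
    have := u2.pow 6
    norm_num at this
    exact this
  have evW : P.Ev (red W) (P.t W0) := by
    simpa only [map_neg, neg_neg] using P.neg (P.ev_rel (T.rel_W _ j))
  have hzb : z ^ (2 * j) * (16 ^ j * T.HH (2 * j)) = 1 + C (p : ℤ_[p]) * b := by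
    have h1 : (C (-T.h ^ 2) : ℤ_[p]⟦X⟧) ^ (2 * j) * 16 ^ j = 1 := by
      rw [pow_mul, ← mul_pow, map_neg, map_pow,
        show (-C T.h ^ 2) ^ 2 * (16 : ℤ_[p]⟦X⟧) = (2 * C T.h) ^ 4 by ring, T.hC]
      simp
    rw [hzdef, mul_pow, ← pow_mul, show 2 * (2 * j) = 4 * j by ring]
    linear_combination hb + T.HH (2 * j) * T.a ^ (4 * j) * h1
  have step : ∀ m, ∃ w y, (G0 (m + 1 + 2 * j) : ℤ_[p]) - W0 * G0 (m + 1) = p * y ∧
      P.Ev (red w) (P.t y) ∧ red z ^ (m + 1) * red T.f * red w = red W *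
        ∑ x : ZMod p, C ((2 * x ^ 2) ^ (m + 1)) * (C x⁻¹ * DD x - red b * FF x) := by
    intro m
    obtain ⟨w, hw⟩ := T.kummer_gs hf hj 1 (m + 1) (by omega)
    rw [sh_succ, pow_zero, sh_one, sh_one, pow_one] at hw
    have r1 := (T.rel_gs hj 2 (m + 1 + 2 * j)).add ((T.rel_W _ j).mul (T.rel_gs hj 2 (m + 1)))
    rw [hw] at r1
    obtain ⟨y, hy, r2⟩ := T.rel_div r1
    refine ⟨w, y, by linear_combination hy, P.ev_rel r2, ?_⟩
    have e1 := E1_step hj m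
    have e2 := T.E1_iter (m + 1 + 2 * j)
    have e3 := T.E1_iter (m + 1)
    rw [hf] at e2 e3
    simp only [mul_sub, Finset.sum_sub_distrib, mul_left_comm _ (red b), ← Finset.mul_sum]
    rw [← red_Theta, ← red_E1]
    generalize (Tw fun k => 2 ^ (m + 1) * (k : ℤ_[p]) ^ (2 * m + 1) * (del p k : ℤ_[p])) = Θ
      at e1 ⊢
    rw [← hf] at e1 e2 e3 ⊢
    have e4 : z ^ (m + 1) * T.f * w = W * Θ - b * (W * E1^[m + 1] T.f) -
        C (p : ℤ_[p]) * (b * z ^ (m + 1) * T.f * w) := by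
      apply mul_left_cancel₀ Cp_ne
      have e5 : W = C (4 ^ j) * (16 ^ j * T.HH (2 * j)) := by
        rw [hW, map_pow, map_ofNat, ← mul_assoc, ← mul_pow]
        norm_num
      rw [e2, e3, ← hzdef, pow_add z _ (2 * j)] at e1
      rw [e3, ← hzdef]
      linear_combination (16 ^ j * T.HH (2 * j)) * e1 -
        (z ^ (m + 1) * T.f * T.gs (m + 1 + 2 * j)) * hzb -
        (z ^ (m + 1) * T.f * (1 + C (p : ℤ_[p]) * b)) * hw -
        (z ^ (m + 1) * T.f * T.gs (m + 1) + C (p : ℤ_[p]) * Θ) * e5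
    have e6 := congrArg red e4
    simp only [map_sub, map_mul, red_Cp, zero_mul, sub_zero, map_pow] at e6
    exact e6
  obtain ⟨γ, hγ⟩ : (p : ℤ_[p]) ∣ 2 ^ j * c - W0 := by
    by_contra hcon
    apply h0 1
    rw [P.unique (hφ 1) (P.ev_inv hj FF FF_neg one_ne_zero (m := 2 * N + 1) (by omega)
      fun n _ => hμ n), neg_eq_zero]
    refine Finset.sum_eq_zero fun i _ => ?_
    obtain ⟨w, y, hy, -⟩ := step (2 * N + i)
    obtain ⟨e, he⟩ := hG (2 * N + i + 1) (by omega)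
    have e1 : (p : ℤ_[p]) ∣ G0 (2 * N + i + 1) - 0 :=
      (isUnit_of_not_dvd hcon).dvd_mul_left.1 ⟨y - p * e, by linear_combination hy - he⟩
    rw [show 2 * N + 1 + i = 2 * N + i + 1 by ring, P.t_eq e1]
    simp
  have hM : ∀ x, P.Ev (DD x - C x * red b * FF x) (P.t γ / P.t W0 * P.i x * φ x) := by
    intro x
    by_cases hx : x = 0
    · have e1 := DD_neg hodd (0 : ZMod p)
      rw [neg_zero] at e1
      have e2 : DD (0 : ZMod p) = 0 := by
        apply mul_left_cancel₀ (a := C (2 : ZMod p))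
          (fun h' => h2 (C_injective (h'.trans (map_zero C).symm)))
        rw [map_ofNat]
        linear_combination e1
      simpa [hx, e2] using Place.zero
    have e1 := P.ev_inv hj (fun x => C x⁻¹ * DD x - red b * FF x)
      (fun x => by rw [DD_neg hodd, FF_neg, inv_neg, map_neg, neg_mul_neg]) hx (m := 2 * N + 1)
      (by omega) (μ := fun n => P.t γ / P.t W0 * (v ^ n * u * P.t (G0 n))) (by
        intro n hn
        obtain ⟨m, rfl⟩ : ∃ m, n = m + 1 := ⟨n - 1, by omega⟩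
        obtain ⟨w, y, hy, hw, e⟩ := step m
        obtain ⟨e', he⟩ := hG (m + 1) (by omega)
        have e1 : (p : ℤ_[p]) ∣ y - γ * G0 (m + 1) :=
          ⟨e', mul_left_cancel₀ pp_ne (by linear_combination he - hy + G0 (m + 1) * hγ)⟩
        refine Place.div' (P.t_ne uW) evW
          (Place.congr (P.mul (P.mul (Place.pow hz (m + 1)) hu) hw) e rfl) ?_
        have := P.t_ne uW
        rw [P.t_eq e1, map_mul P.t γ]
        field_simp)
    refine Place.congr (P.mul (P.evC x) e1) ?_ ?_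
    · rw [mul_sub, ← mul_assoc, ← map_mul, mul_inv_cancel₀ hx, map_one, one_mul, mul_assoc]
    · rw [P.unique (hφ x) (P.ev_inv hj FF FF_neg hx (m := 2 * N + 1) (by omega) fun n _ => hμ n)]
      simp only [mul_neg, Finset.mul_sum]
      exact congrArg Neg.neg (Finset.sum_congr rfl fun i _ => by ring)
  have hR : ∀ x y, P.Ev (RR x y) (-(P.i (Phi p x y) * (φ (x + y) * φ (x - y)) * φ x ^ 2)) := by
    intro x y
    refine Place.congr (P.mul (Place.sub (Place.sub (P.mul (P.add (P.mul (hM (x + y)) (hφ (x - y)))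
      (P.mul (hφ (x + y)) (hM (x - y)))) (hφ x)) (P.mul (P.add (hM x) (hM x))
      (P.mul (hφ (x + y)) (hφ (x - y))))) (P.mul (P.mul (P.evC (Phi p x y))
      (P.mul (hφ (x + y)) (hφ (x - y)))) (hφ x))) (hφ x)) ?_ ?_
    · rw [RR, map_add, map_sub]
      ring
    · rw [map_add, map_sub]
      ring
  obtain ⟨U, V, hUV⟩ := RR_eq hodd h2
  have he : ∀ x y, φ (y - x) = φ (x - y) := fun x y =>
    P.unique (hφ _) (by rw [← FF_neg, neg_sub]; exact hφ _)
  refine not_rank_one h5 (fun x y x' y' hxy => ?_) (fun x y w => ?_)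
  · have e1 := P.unique (P.mul (hR x y') (hR x' y))
      (Place.congr (P.mul (hR x y) (hR x' y')) (by simp only [hUV]; ring) rfl)
    rw [hxy, map_zero] at e1
    apply P.i.injective
    apply mul_right_cancel₀ (mul_ne_zero (mul_ne_zero (mul_ne_zero (h0 (x + y')) (h0 (x - y')))
      (mul_ne_zero (h0 (x' + y)) (h0 (x' - y)))) (pow_ne_zero 2 (mul_ne_zero (h0 x) (h0 x'))))
    rw [map_mul, map_zero]
    linear_combination e1
  · have e1 := P.unique (P.mul (P.mul (hR x y) (hR y w)) (hR w x))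
      (Place.congr (P.mul (P.mul (hR y x) (hR w y)) (hR x w)) (by simp only [hUV]; ring) rfl)
    rw [he x y, he y w, he w x, add_comm y x, add_comm w y, add_comm x w] at e1
    apply P.i.injective
    apply mul_right_cancel₀ (mul_ne_zero (mul_ne_zero (mul_ne_zero
      (mul_ne_zero (h0 (x + y)) (h0 (x - y))) (mul_ne_zero (h0 (y + w)) (h0 (y - w))))
      (mul_ne_zero (h0 (w + x)) (h0 (w - x))))
      (pow_ne_zero 2 (mul_ne_zero (mul_ne_zero (h0 x) (h0 y)) (h0 w))))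
    simp only [map_mul]
    linear_combination -e1

end Pool.Agent.Lib.MP_3ef01f_nt
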