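import Mathlib
import Pool.Agent.Lib.MP_3ef01f_nt.XLow

set_option autoImplicit false

namespace Pool.Agent.Lib.MP_3ef01f_nt

open Polynomial PadicInt

variable {p : ℕ} [hp : Fact p.Prime] {D : ℕ → ℤ_[p]} {j : ℕ} {c : ℤ_[p]}

lemma kum_ideal (K : ∀ r n, r ≤ 4 * n → (p : ℤ_[p]) ^ r ∣ sh D j n ((X - C c) ^ r))
    {r n : ℕ} (hn : r ≤ 4 * n) {P : ℤ_[p][X]} (hP : P ∈ II (p : ℤ_[p]) c ^ r) :
    (p : ℤ_[p]) ^ r ∣ sh D j n P :=
  II_pow_le (n0 := n) (fun i _ m _ => K i m (by omega)) hP n le_rfl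

lemma p_mem_II : ((p : ℕ) : ℤ_[p][X]) ∈ II (p : ℤ_[p]) c := by
  simpa using II_C (p : ℤ_[p]) c

lemma pow_sub_one_mem {t : ℕ} (h : toZMod c ^ t = 1) : X ^ t - 1 ∈ II (p : ℤ_[p]) c := by
  have h1 : (p : ℤ_[p]) ∣ c ^ t - 1 := by
    rw [← toZMod_eq_zero, map_sub, map_pow, h, map_one, sub_self]
  rw [show (X : ℤ_[p][X]) ^ t - 1 = (X ^ t - C c ^ t) + C (c ^ t - 1) by simp]
  obtain ⟨Q, hQ⟩ := sub_dvd_pow_sub_pow (X : ℤ_[p][X]) (C c) t
  exact add_mem (hQ ▸ Ideal.mul_mem_right _ _ (II_X _ _)) (II_of_dvd h1)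

lemma sh_per (n t : ℕ) : sh D j n (X ^ t - 1) = D (n + j * t) - D n := by
  rw [map_sub, sh_X_pow, sh_one]

lemma upper (K : ∀ r n, r ≤ 4 * n → (p : ℤ_[p]) ^ r ∣ sh D j n ((X - C c) ^ r))
    {t : ℕ} (h : toZMod c ^ t = 1) (s n : ℕ) (hn : s + 1 ≤ 4 * n) :
    (p : ℤ_[p]) ^ (s + 1) ∣ D (n + j * (t * p ^ s)) - D n := by
  have := pow_pow_sub_mem p_mem_II (pow_sub_one_mem h) s
  rw [one_pow, ← pow_mul] at this
  rw [← sh_per]
  exact kum_ideal K hn this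

lemma second (h3 : 3 ≤ p) {t : ℕ} (h : toZMod c ^ t = 1) (s : ℕ) :
    X ^ (t * p ^ s) - 1 - C ((p : ℤ_[p]) ^ s) * (X ^ t - 1) ∈ II (p : ℤ_[p]) c ^ (s + 2) := by
  have := second_order hp.1 h3 p_mem_II (pow_sub_one_mem h) s
  rwa [add_sub_cancel, ← pow_mul, ← sub_sub, ← map_natCast C, ← map_pow] at this

lemma taylor_one (t : ℕ) : ∃ Q : ℤ_[p][X], X ^ t - 1 =
    C (c ^ t - 1) + C (t * c ^ (t - 1)) * (X - C c) + (X - C c) ^ 2 * Q := by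
  obtain ⟨Q, hQ⟩ := sq_dvd_add_pow_sub_sub (X - C c : ℤ_[p][X]) (C c) t
  refine ⟨Q, ?_⟩
  rw [add_sub_cancel] at hQ
  simp only [map_sub, map_mul, map_pow, map_one, map_natCast]
  linear_combination hQ

lemma lower (h3 : 3 ≤ p) (K : ∀ r n, r ≤ 4 * n → (p : ℤ_[p]) ^ r ∣ sh D j n ((X - C c) ^ r))
    {t : ℕ} (h : toZMod c ^ t = 1) (ht : ¬ p ∣ t) {s N : ℕ}
    (hN : ∀ n, N ≤ n → (p : ℤ_[p]) ^ (s + 2) ∣ D (n + j * (t * p ^ s)) - D n) :
    ∃ c' N', ∀ n, N' ≤ n → (p : ℤ_[p]) ^ 2 ∣ D (n + j) - c' * D n := by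
  have t0 : t ≠ 0 := by
    rintro rfl
    exact ht (dvd_zero _)
  have u : IsUnit ((t : ℤ_[p]) * c ^ (t - 1)) := by
    refine IsUnit.mul (isUnit_of_not_dvd fun h' => ht ?_) (IsUnit.pow _ (isUnit_of_not_dvd ?_))
    · rwa [← toZMod_eq_zero, map_natCast, ZMod.natCast_eq_zero_iff] at h'
    · rw [← toZMod_eq_zero]
      intro h'
      rw [h', zero_pow t0] at h
      exact zero_ne_one h
  obtain ⟨v, hv⟩ := u.exists_right_inv
  refine ⟨c - v * (c ^ t - 1), N + s + 2, fun n hn => ?_⟩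
  have h1 := kum_ideal K (show s + 2 ≤ 4 * n by omega) (second h3 h s)
  rw [map_sub, sh_C_mul, sh_per] at h1
  have h2 := dvd_sub (hN n (by omega)) h1
  rw [sub_sub_cancel, pow_add, mul_dvd_mul_iff_left (pow_ne_zero s pp_ne)] at h2
  obtain ⟨Q, hQ⟩ := taylor_one (c := c) t
  have h4 := kum_ideal K (show 2 ≤ 4 * n by omega)
    (Ideal.mul_mem_right Q _ (Ideal.pow_mem_pow (II_X (p : ℤ_[p]) c) 2))
  rw [hQ, map_add, dvd_add_left h4, map_add, ← mul_one (C (c ^ t - 1)), sh_C_mul, sh_C_mul,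
    ← pow_one (X - C c), sh_succ, pow_zero, sh_one, sh_one] at h2
  obtain ⟨e, he⟩ := h2
  exact ⟨v * e, by linear_combination v * he - (D (n + j) - c * D n) * hv⟩

section five

lemma sh_Y (n : ℕ) : sh D 1 n ((X - C (-1)) ^ 1) = D (n + 1) + D n := by
  rw [sh_succ, pow_zero, sh_one, sh_one]
  ring

lemma toZMod_neg_one (t : ℕ) : toZMod (-1 : ℤ_[p]) ^ (2 * t) = 1 := by
  rw [map_neg, map_one, pow_mul, neg_one_sq, one_pow]

lemma upper_five (h3 : 3 ≤ p)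
    (K : ∀ r n, r ≤ 4 * n → (p : ℤ_[p]) ^ r ∣ sh D 1 n ((X - C (-1)) ^ r))
    (h1 : D 2 + D 1 = 0) (s n : ℕ) (hn : s + 2 ≤ 4 * n) :
    (p : ℤ_[p]) ^ (s + 2) ∣ D (n + 2 * p ^ s) - D n := by
  have hy : ∀ n, (p : ℤ_[p]) ^ 2 ∣ D (n + 2) + D (n + 1) := by
    intro n
    induction n with
    | zero => simp [h1]
    | succ n ih =>
      have h2 := K 2 (n + 1) (by omega)
      rw [sh_succ, sh_Y, sh_Y, neg_neg, one_mul] at h2
      exact (dvd_add_left ih).1 h2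
  have h2 := kum_ideal K hn (second h3 (toZMod_neg_one 1) s)
  rw [map_sub, sh_C_mul, sh_per, sh_per] at h2
  obtain ⟨n, rfl⟩ : ∃ m, n = m + 1 := ⟨n - 1, by omega⟩
  have h4 : (p : ℤ_[p]) ^ (s + 2) ∣ p ^ s * (D (n + 1 + 1 * (2 * 1)) - D (n + 1)) := by
    rw [pow_add]
    refine mul_dvd_mul_left _ ?_
    have := dvd_sub (hy (n + 1)) (hy n)
    rwa [add_comm (D (n + 2)), add_comm (D (n + 1 + 2)), add_comm (D (n + 1)),
      add_sub_add_left_eq_sub] at this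
  simpa using dvd_add h2 h4

lemma lower_five (h3 : 3 ≤ p)
    (K : ∀ r n, r ≤ 4 * n → (p : ℤ_[p]) ^ r ∣ sh D 1 n ((X - C (-1)) ^ r))
    (h1 : ¬ (p : ℤ_[p]) ^ 3 ∣ D 3 + 2 * D 2 + D 1) {t : ℕ} (ht : ¬ p ∣ 2 * t) {s N : ℕ}
    (hN : ∀ n, N ≤ n → (p : ℤ_[p]) ^ (s + 3) ∣ D (n + 2 * t * p ^ s) - D n) : False := by
  have hz : ∀ n, ¬ (p : ℤ_[p]) ^ 3 ∣ sh D 1 (n + 1) ((X - C (-1)) ^ 2) := by
    intro n
    induction n with
    | zero =>
      rw [sh_succ, sh_Y, sh_Y]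
      intro h
      exact h1 (by rwa [show D 3 + 2 * D 2 + D 1 = D 3 + D 2 + - -1 * (D 2 + D 1) by ring])
    | succ n ih =>
      intro h
      have h2 := K 3 (n + 1) (by omega)
      rw [sh_succ, neg_neg, one_mul] at h2
      exact ih ((dvd_add_right h).1 h2)
  have u : IsUnit (((2 * t : ℕ) : ℤ_[p]) * (-1) ^ (2 * t - 1)) := by
    refine IsUnit.mul (isUnit_of_not_dvd fun h' => ht ?_) (isUnit_one.neg.pow _)
    rwa [← toZMod_eq_zero, map_natCast, ZMod.natCast_eq_zero_iff] at h'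
  have hY := II_X (p : ℤ_[p]) (-1)
  have h2 : X ^ (2 * t * p ^ s) - 1 ∈ JJ D 1 N ((p : ℤ_[p]) ^ (s + 3)) := fun n hn => by
    rw [sh_per, one_mul]
    exact hN n hn
  have h4 := Ideal.mul_mem_right (X - C (-1)) _ h2 (N + s + 2 + 1) (by omega)
  have h5 := kum_ideal K (show s + 2 + 1 ≤ 4 * (N + s + 2 + 1) by omega)
    (pow_succ (II (p : ℤ_[p]) (-1)) (s + 2) ▸
      Ideal.mul_mem_mul (second h3 (toZMod_neg_one t) s) hY)
  rw [sub_mul, map_sub, mul_assoc (C _), sh_C_mul] at h5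
  have h6 := dvd_sub h4 h5
  rw [sub_sub_cancel, pow_add, mul_dvd_mul_iff_left (pow_ne_zero s pp_ne)] at h6
  obtain ⟨Q, hQ⟩ := taylor_one (c := (-1 : ℤ_[p])) (2 * t)
  have h7 := kum_ideal K (show 3 ≤ 4 * (N + s + 2 + 1) by omega)
    (Ideal.mul_mem_right Q _ (Ideal.pow_mem_pow hY 3))
  rw [hQ, pow_mul, neg_one_sq, one_pow, sub_self, map_zero, zero_add, add_mul, map_add,
    mul_right_comm _ Q, ← pow_succ, dvd_add_left h7, mul_assoc, ← sq, sh_C_mul,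
    u.dvd_mul_left] at h6
  exact hz _ h6

end five

lemma Th.c_eq (T : Th ℤ_[p]) (hj : p = 4 * j + 1) :
    toZMod (32 ^ j * T.H0 (2 * j)) = 2 ^ j * (((2 * j).choose j : ℕ) : ZMod p) ∧
      toZMod (32 ^ j * T.H0 (2 * j)) ^ (2 * j) = 1 := by
  have hh : 2 * toZMod T.h = 1 := by
    simpa [map_ofNat] using congrArg toZMod T.hh
  have h2 := two_ne hj
  have fl : ∀ x : ZMod p, x ≠ 0 → x ^ (4 * j) = 1 := fun x hx => by
    rw [show 4 * j = p - 1 by omega]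
    exact ZMod.pow_card_sub_one_eq_one hx
  rw [map_mul, map_pow, map_ofNat, Th.H0, map_aeval_int]
  constructor
  · obtain ⟨i, hi⟩ := (ZMod.exists_sq_eq_neg_one_iff (p := p)).2 (by omega)
    have i1 : 1 + i ≠ 0 := by
      intro h4
      apply h2
      linear_combination (1 - i) * h4 - hi
    have e1 := fl _ i1
    rw [pow_mul, show (1 + i) ^ 4 = -4 by linear_combination (-(i ^ 2 + 4 * i + 5)) * hi] at e1
    have e2 : (32 : ZMod p) ^ j * (-1) ^ j * toZMod T.h ^ (2 * j) = 2 ^ j * (-4) ^ j := by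
      rw [pow_mul, ← mul_pow, ← mul_pow, ← mul_pow]
      congr 1
      linear_combination (-8 * (2 * toZMod T.h + 1)) * hh
    rw [mul_left_cancel₀ (fact_ne_zero (show 2 * j < p by omega)) (leg_half _ hh j)]
    linear_combination (((2 * j).choose j : ℕ) : ZMod p) * e2 +
      2 ^ j * (((2 * j).choose j : ℕ) : ZMod p) * e1
  · rw [mul_pow, (half_value hj _ hh).1, show (32 : ZMod p) = 2 ^ 5 by norm_num, ← pow_mul,
      ← pow_mul, ← pow_add, show 5 * (j * (2 * j)) + 2 * j ^ 2 = 4 * j * (3 * j) by ring, pow_mul,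
      fl 2 h2, one_pow]

end Pool.Agent.Lib.MP_3ef01f_nt
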