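import Mathlib
import Pool.Agent.Lib.MP_3ef01f_nt.Main
import Pool.Agent.Lib.MP_3ef01f_nt.XRed

set_option autoImplicit false

namespace Pool.Agent.Lib.MP_3ef01f_nt

open Polynomial PadicInt

variable {p : ℕ} [hp : Fact p.Prime]

theorem padic_period {j : ℕ} (hj : p = 4 * j + 1) {D : ℕ → ℤ_[p]}
    (hD : ∀ n, (G0 (2 * n) : ℤ_[p]) = 2 ^ n * D n) (e T : ℕ)
    (hT : T = p ^ (if p = 5 then e - 1 else e) *
      (j * orderOf ((2 : ZMod p) ^ j * (((2 * j).choose j : ℕ) : ZMod p)))) :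
    (∀ L N, (∀ n, N ≤ n → (p : ℤ_[p]) ^ (e + 1) ∣ D (n + L) - D n) → T ∣ L) ∧
    (∀ n, e + 1 ≤ 4 * n → (p : ℤ_[p]) ^ (e + 1) ∣ D (n + T) - D n) ∧
    T ∣ p ^ e * (2 * j ^ 2) := by
  have h2 := hp.1.two_le
  have u2 : IsUnit (2 : ℤ_[p]) := by
    apply isUnit_of_not_dvd
    rw [← toZMod_eq_zero, map_ofNat]
    exact two_ne hj
  obtain ⟨h, hh⟩ := u2.exists_right_inv
  obtain ⟨S, -, hf, ha⟩ := exists_Th h hh
  have K := S.kummer hf hj hD
  obtain ⟨c1, c2⟩ := S.c_eq hj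
  rw [← c1] at hT
  set c := 32 ^ j * S.H0 (2 * j) with hc
  have ho := pow_orderOf_eq_one (toZMod c)
  have hod := orderOf_dvd_of_pow_eq_one c2
  have low1 : ∀ L N, (∀ n, N ≤ n → (p : ℤ_[p]) ^ (e + 1) ∣ D (n + L) - D n) → L ≠ 0 →
      ∃ s t, ¬ p ∣ t ∧ L = j * (orderOf (toZMod c) * t * p ^ s) := by
    intro L N hL L0
    obtain ⟨t, rfl, ht⟩ := S.low_one hf ha hj hD (L := L) (N := N)
      fun n hn => (dvd_pow_self _ (by omega)).trans (hL n hn)
    obtain ⟨t, rfl⟩ := orderOf_dvd_of_pow_eq_one ht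
    obtain ⟨s, t, ht', rfl⟩ := Nat.exists_eq_pow_mul_and_not_dvd
      (show t ≠ 0 by rintro rfl; simp at L0) p hp.1.ne_one
    exact ⟨s, t, ht', by ring⟩
  have hpo : ¬ p ∣ orderOf (toZMod c) := fun h' =>
    absurd (Nat.le_of_dvd (by omega) (h'.trans hod)) (by omega)
  by_cases h5 : p = 5
  · obtain rfl : j = 1 := by omega
    rw [if_pos h5] at hT
    have c3 : toZMod c = -1 := by
      have : ((5 : ℕ) : ZMod p) = 0 := by rw [← h5, ZMod.natCast_self]
      rw [c1]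
      norm_num at this ⊢
      linear_combination this
    have o2 : orderOf (toZMod c) = 2 := by
      rw [c3]
      refine orderOf_eq_prime (by simp) fun h' => two_ne hj ?_
      linear_combination -h'
    have K' : ∀ r n, r ≤ 4 * n → (p : ℤ_[p]) ^ r ∣ sh D 1 n ((X - C (-1)) ^ r) := fun r n hn =>
      sh_change (n0 := n) (by rw [← toZMod_eq_zero, map_sub, c3]; simp)
        (fun i _ m _ => K i m (by omega)) n le_rfl
    have d1 : D 1 = 1 := mul_left_cancel₀ u2.ne_zero (by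
      have := hD 1
      rw [G0_two] at this
      push_cast at this
      linear_combination -this)
    have d2 : D 2 = -1 := mul_left_cancel₀ (u2.pow 2).ne_zero (by
      have := hD 2
      rw [G0_four] at this
      push_cast at this
      linear_combination -this)
    have d3 : D 3 = 51 := mul_left_cancel₀ (u2.pow 3).ne_zero (by
      have := hD 3
      rw [G0_six] at this
      push_cast at this
      linear_combination -this)
    rw [o2] at hT low1
    refine ⟨fun L N hL => ?_, fun n hn => ?_, ?_⟩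
    · rcases eq_or_ne L 0 with rfl | L0
      · exact dvd_zero _
      obtain ⟨s, t, ht, rfl⟩ := low1 L N hL L0
      rcases le_or_gt (e - 1) s with hs | hs
      · obtain ⟨w, hw⟩ := pow_dvd_pow p hs
        exact ⟨w * t, by rw [hT, hw]; ring⟩
      refine (lower_five (by omega) K' ?_ (t := t) ?_ (s := s) (N := N) fun n hn => ?_).elim
      · rw [d1, d2, d3]
        intro h'
        have := (PadicInt.pow_p_dvd_int_iff (p := p) 3 50).1 (by
          rwa [show ((50 : ℤ) : ℤ_[p]) = 51 + 2 * -1 + 1 by norm_num])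
        rw [h5] at this
        norm_num at this
      · exact fun h' => ((hp.1.dvd_mul).1 h').elim (o2 ▸ hpo) ht
      · exact (pow_dvd_pow _ (show s + 3 ≤ e + 1 by omega)).trans (by simpa using hL n hn)
    · have := upper_five (by omega) K' (by rw [d1, d2]; ring) (e - 1) n (by omega)
      rw [hT, one_mul, mul_comm]
      exact (pow_dvd_pow _ (by omega)).trans this
    · rw [hT]
      exact mul_dvd_mul (pow_dvd_pow _ (by omega)) (by norm_num)
  · rw [if_neg h5] at hT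
    refine ⟨fun L N hL => ?_, fun n hn => ?_, ?_⟩
    · rcases eq_or_ne L 0 with rfl | L0
      · exact dvd_zero _
      obtain ⟨s, t, ht, rfl⟩ := low1 L N hL L0
      rcases le_or_gt e s with hs | hs
      · obtain ⟨w, hw⟩ := pow_dvd_pow p hs
        exact ⟨w * t, by rw [hT, hw]; ring⟩
      obtain ⟨c', N', h'⟩ := lower (by omega) K (t := orderOf (toZMod c) * t)
        (by rw [pow_mul, ho, one_pow]) (fun h' => ((hp.1.dvd_mul).1 h').elim hpo ht)
        (s := s) (N := N) fun n hn => (pow_dvd_pow _ (by omega)).trans (hL n hn)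
      exact (S.low_two hf ha hj (by omega) hD h').elim
    · rw [hT, mul_comm, mul_assoc]
      exact upper K ho e n hn
    · rw [hT, show 2 * j ^ 2 = j * (2 * j) by ring]
      exact mul_dvd_mul_left _ (mul_dvd_mul_left _ hod)

theorem exact_period (p e : ℕ) (hp : p.Prime) (h4 : p % 4 = 1) (he : 1 ≤ e) (T : ℕ)
    (hT : T = p ^ (if p = 5 then e - 2 else e - 1) * ((p - 1) / 4 *
      orderOf ((2 : ZMod p) ^ ((p - 1) / 4) *
        ((((p - 1) / 2).choose ((p - 1) / 4) : ℕ) : ZMod p)))) :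
    (∀ L : ℕ, (∃ N, ∀ n, N ≤ n → ∃ a b : ℤ, d n = a ∧ d (n + L) = b ∧
      b ≡ a [ZMOD (p : ℤ) ^ e]) ↔ T ∣ L) ∧
    (∀ L n : ℕ, T ∣ L → e ≤ 4 * n → ∃ a b : ℤ, d n = a ∧ d (n + L) = b ∧
      b ≡ a [ZMOD (p : ℤ) ^ e]) ∧
    T ∣ p ^ (e - 1) * (p - 1) ^ 2 / 8 := by
  have : Fact p.Prime := ⟨hp⟩
  obtain ⟨e, rfl⟩ : ∃ e', e = e' + 1 := ⟨e - 1, by omega⟩
  obtain ⟨j, hj⟩ : ∃ j, p = 4 * j + 1 := ⟨p / 4, by omega⟩
  have hL : p ^ (e + 1 - 1) * (p - 1) ^ 2 / 8 = p ^ e * (2 * j ^ 2) := by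
    rw [Nat.add_sub_cancel, show p - 1 = 4 * j by omega,
      show p ^ e * (4 * j) ^ 2 = 8 * (p ^ e * (2 * j ^ 2)) by ring,
      Nat.mul_div_cancel_left _ (by norm_num)]
  rw [show (p - 1) / 4 = j by omega, show (p - 1) / 2 = 2 * j by omega,
    show e + 1 - 2 = e - 1 by omega, Nat.add_sub_cancel] at hT
  choose z hz hz' using d_int
  obtain ⟨h1, h2, h3⟩ := padic_period hj (D := fun n => (z n : ℤ_[p]))
    (fun n => by rw [hz']; push_cast; rfl) e T hT
  have cv : ∀ n L, (∃ a b : ℤ, d n = a ∧ d (n + L) = b ∧ b ≡ a [ZMOD (p : ℤ) ^ (e + 1)]) ↔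
      (p : ℤ_[p]) ^ (e + 1) ∣ (z (n + L) : ℤ_[p]) - z n := by
    intro n L
    rw [← Int.cast_sub, PadicInt.pow_p_dvd_int_iff, ← Int.modEq_iff_dvd]
    constructor
    · rintro ⟨a, b, ha, hb, h⟩
      rw [hz] at ha hb
      rw [Int.cast_injective ha, Int.cast_injective hb]
      exact h.symm
    · exact fun h => ⟨_, _, hz _, hz _, h.symm⟩
  have h5 : ∀ L n : ℕ, T ∣ L → e + 1 ≤ 4 * n →
      (p : ℤ_[p]) ^ (e + 1) ∣ (z (n + L) : ℤ_[p]) - z n := by
    rintro _ n ⟨t, rfl⟩ hn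
    induction t with
    | zero => simp
    | succ t ih =>
      have := dvd_add (h2 (n + T * t) (by omega)) ih
      rwa [sub_add_sub_cancel, add_assoc, ← Nat.mul_succ] at this
  simp only [cv]
  exact ⟨fun L => ⟨fun ⟨N, hN⟩ => h1 L N hN,
    fun h => ⟨e + 1, fun n hn => h5 L n h (by omega)⟩⟩, h5, hL ▸ h3⟩

end Pool.Agent.Lib.MP_3ef01f_nt
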